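import Mathlib

/-!
Coloured structures with a finite-valued closure on pairs, the omitted configurations and the
resulting bound on the cardinality.
-/

namespace Pool.Agent.TH767.B

open Function

/-- Structures: colours of pairs in `M`, numbers of pairs, and a ternary relation. -/
structure Str (M V : Type) where
  /-- the colour of a pair -/
  c : V → V → M
  /-- the number of a pair -/
  d : V → V → ℕ
  /-- `F x y z`: the point `z` lies in the closure of `x, y` -/
  F : V → V → V → Prop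

/-- Bad configurations. -/
structure Bad {M V : Type} (σ : Str M V) (m : ℕ) (w : V) (x y : Fin (2*m+1) → V) : Prop where
  inj : Injective (Sum.elim x y)
  hx : ∀ i, x i ≠ w
  hy : ∀ i, y i ≠ w
  dx : ∀ i, σ.d (x i) w ≤ m
  dy : ∀ i, σ.d (y i) w ≤ m
  cc : ∀ i, σ.c (x i) w = σ.c (x i) (y i)
  nF : ∀ i j, i ≠ j → ¬ σ.F (Sum.elim x y i) (Sum.elim x y j) w

/-- Structures without bad configurations. -/
def Good {M V : Type} (σ : Str M V) : Prop := ∀ m w x y, ¬ Bad σ m w x y

/-- Closed embeddings. -/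
structure Emb {M X V : Type} (f : X → V) (σ : Str M X) (τ : Str M V) : Prop where
  inj : Injective f
  c : ∀ x y, x ≠ y → σ.c x y = τ.c (f x) (f y)
  d : ∀ x y, x ≠ y → σ.d x y = τ.d (f x) (f y)
  F : ∀ x y z, x ≠ y → (σ.F x y z ↔ τ.F (f x) (f y) (f z))
  cl : ∀ x y w, x ≠ y → τ.F (f x) (f y) w → ∃ z, f z = w

theorem Emb.bad_iff {M X V : Type} {f : X → V} {σ : Str M X} {τ : Str M V} (h : Emb f σ τ)
    {m : ℕ} {w : X} {x y : Fin (2*m+1) → X} :
    Bad σ m w x y ↔ Bad τ m (f w) (f ∘ x) (f ∘ y) := by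
  have e : Sum.elim (f ∘ x) (f ∘ y) = f ∘ Sum.elim x y := by
    ext i; rcases i with i | i <;> rfl
  constructor
  · intro hb
    refine ⟨?_, ?_, ?_, ?_, ?_, ?_, ?_⟩
    · rw [e]; exact h.inj.comp hb.inj
    · intro i hi; exact hb.hx i (h.inj hi)
    · intro i hi; exact hb.hy i (h.inj hi)
    · intro i
      have := hb.dx i
      rw [h.d _ _ (hb.hx i)] at this
      exact this
    · intro i
      have := hb.dy i
      rw [h.d _ _ (hb.hy i)] at this
      exact this
    · intro i
      have := hb.cc i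
      rw [h.c _ _ (hb.hx i), h.c _ _ (fun h' => by
        have := @hb.inj (Sum.inl i) (Sum.inr i) h'
        cases this)] at this
      exact this
    · intro i j hij
      rw [e]
      have := hb.nF i j hij
      rw [h.F _ _ _ (fun h' => hij (hb.inj h'))] at this
      exact this
  · intro hb
    have hinj : Injective (Sum.elim x y) := by
      have := hb.inj
      rw [e] at this
      exact this.of_comp
    refine ⟨hinj, ?_, ?_, ?_, ?_, ?_, ?_⟩
    · intro i hi; exact hb.hx i (congrArg f hi)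
    · intro i hi; exact hb.hy i (congrArg f hi)
    · intro i
      rw [h.d _ _ (fun hi => hb.hx i (congrArg f hi))]
      exact hb.dx i
    · intro i
      rw [h.d _ _ (fun hi => hb.hy i (congrArg f hi))]
      exact hb.dy i
    · intro i
      rw [h.c _ _ (fun hi => hb.hx i (congrArg f hi)), h.c _ _ (fun h' => by
        have := @hinj (Sum.inl i) (Sum.inr i) h'
        cases this)]
      exact hb.cc i
    · intro i j hij
      have := hb.nF i j hij
      rw [e] at this
      rw [h.F _ _ _ (fun h' => hij (hinj h'))]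
      exact this

theorem Good.of_emb {M X V : Type} {f : X → V} {σ : Str M X} {τ : Str M V} (hg : Good τ)
    (h : Emb f σ τ) : Good σ := fun m _ _ _ hb => hg m _ _ _ (h.bad_iff.1 hb)

/-- Change of colours. -/
def Str.map {M M' V : Type} (g : M → M') (σ : Str M V) : Str M' V where
  c x y := g (σ.c x y)
  d := σ.d
  F := σ.F

theorem Good.of_map {M M' V : Type} {g : M → M'} {σ : Str M V} (h : Good (σ.map g)) : Good σ := by
  intro m w x y hb
  exact h m w x y ⟨hb.inj, hb.hx, hb.hy, hb.dx, hb.dy, fun i => congrArg g (hb.cc i), hb.nF⟩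

theorem Good.map {M M' V : Type} {g : M → M'} (hg : Injective g) {σ : Str M V} (h : Good σ) :
    Good (σ.map g) := by
  intro m w x y hb
  exact h m w x y ⟨hb.inj, hb.hx, hb.hy, hb.dx, hb.dy, fun i => hg (hb.cc i), hb.nF⟩

section Bound

open Cardinal

theorem exists_closed {V : Type} {κ : Cardinal.{0}} (hκ : ℵ₀ ≤ κ) (g : V → V → Set V)
    (hg : ∀ x y, #(g x y) ≤ κ) (A₀ : Set V) (hA₀ : #A₀ ≤ κ) :
    ∃ A : Set V, A₀ ⊆ A ∧ #A ≤ κ ∧ ∀ x ∈ A, ∀ y ∈ A, g x y ⊆ A := by
  let st : Set V → Set V := fun A => A ∪ ⋃ p : A × A, g p.1 p.2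
  have hst : ∀ A : Set V, #A ≤ κ → #(st A) ≤ κ := by
    intro A hA
    refine (mk_union_le _ _).trans (add_le_of_le hκ hA ?_)
    refine (mk_iUnion_le _).trans ?_
    refine (mul_le_mul' ?_ (ciSup_le' fun p => hg _ _)).trans (mul_eq_self hκ).le
    rw [mk_prod]
    simp only [Cardinal.lift_id]
    exact (mul_le_mul' hA hA).trans (mul_eq_self hκ).le
  let An : ℕ → Set V := fun n => Nat.rec A₀ (fun _ A => st A) n
  have hAn : ∀ n, #(↥(An n)) ≤ κ := by
    intro n
    induction n with
    | zero => exact hA₀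
    | succ n ih => exact hst _ ih
  have hmono : ∀ n, An n ⊆ An (n+1) := fun n => Set.subset_union_left
  have hmono' : ∀ a b, a ≤ b → An a ⊆ An b := by
    intro a b hab
    induction b, hab using Nat.le_induction with
    | base => exact subset_rfl
    | succ b _ ih => exact ih.trans (hmono b)
  refine ⟨⋃ n, An n, Set.subset_iUnion An 0, ?_, ?_⟩
  · refine (mk_iUnion_le _).trans ?_
    rw [mk_nat]
    exact (mul_le_mul' hκ (ciSup_le' hAn)).trans (mul_eq_self hκ).le
  · intro x hx y hy z hz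
    obtain ⟨a, ha⟩ := Set.mem_iUnion.1 hx
    obtain ⟨b, hb⟩ := Set.mem_iUnion.1 hy
    have hx' := hmono' a (max a b) (le_max_left _ _) ha
    have hy' := hmono' b (max a b) (le_max_right _ _) hb
    refine Set.mem_iUnion.2 ⟨max a b + 1, Or.inr ?_⟩
    exact Set.mem_iUnion.2 ⟨(⟨x, hx'⟩, ⟨y, hy'⟩), hz⟩

theorem card_le_of_good {M V : Type} (σ : Str M V) (hgood : Good σ)
    (hF : ∀ z z', {w | σ.F z z' w}.Countable) {κ : Cardinal.{0}} (hκ : ℵ₁ ≤ κ) (hM : #M ≤ κ) :
    #V ≤ κ := by
  classical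
  by_contra hV
  push Not at hV
  have hκ0 : ℵ₀ ≤ κ := (aleph0_lt_aleph_one.le).trans hκ
  -- the fibres
  let fib : V → M → Set V := fun x a => {y | σ.c x y = a}
  have hU : ∀ x a, ∃ U : Set V, U ⊆ fib x a ∧ #U ≤ ℵ₁ ∧ (¬ (fib x a).Countable → ¬ U.Countable) := by
    intro x a
    by_cases h : (fib x a).Countable
    · exact ⟨∅, Set.empty_subset _, by simp, fun h' => absurd h h'⟩
    · have h1 : ℵ₁ ≤ #(fib x a) := by
        rw [← not_lt, lt_aleph_one_iff]
        intro h2
        exact h (Set.countable_coe_iff.1 (mk_le_aleph0_iff.1 h2))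
      obtain ⟨U, hU1, hU2⟩ := le_mk_iff_exists_subset.1 h1
      refine ⟨U, hU1, hU2.le, fun _ h3 => ?_⟩
      have : #U ≤ ℵ₀ := mk_le_aleph0_iff.2 (Set.countable_coe_iff.2 h3)
      rw [hU2] at this
      exact absurd aleph0_lt_aleph_one (not_lt.2 this)
  choose U hU1 hU2 hU3 using hU
  obtain ⟨A₀, hA₀⟩ := (le_mk_iff_exists_set (c := ℵ₁) (α := V)).1 (hκ.trans hV.le)
  obtain ⟨A, hA₀A, hA, hcl⟩ := exists_closed hκ0
    (fun x y => {w | σ.F x y w} ∪ ⋃ a, U x a) (by
      intro x y
      refine (mk_union_le _ _).trans (add_le_of_le hκ0 ?_ ?_)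
      · exact (mk_le_aleph0_iff.2 (Set.countable_coe_iff.2 (hF x y))).trans hκ0
      · refine (mk_iUnion_le _).trans ?_
        exact (mul_le_mul' hM (ciSup_le' fun a => (hU2 x a).trans hκ)).trans (mul_eq_self hκ0).le)
    A₀ (hA₀.le.trans hκ)
  have hAunc : ¬ A.Countable := by
    intro h
    have h1 := h.mono hA₀A
    have : #A₀ ≤ ℵ₀ := mk_le_aleph0_iff.2 (Set.countable_coe_iff.2 h1)
    rw [hA₀] at this
    exact absurd aleph0_lt_aleph_one (not_lt.2 this)
  -- a good point outside
  let Bd : Set V := ⋃ p : {p : A × M // (fib p.1 p.2).Countable}, fib p.1.1 p.1.2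
  have hBd : #Bd ≤ κ := by
    refine (mk_iUnion_le _).trans ?_
    refine (mul_le_mul' (?_ : _ ≤ κ) (ciSup_le' (a := κ) fun p =>
      (mk_le_aleph0_iff.2 (Set.countable_coe_iff.2 p.2)).trans hκ0)).trans (mul_eq_self hκ0).le
    refine (mk_subtype_le _).trans ?_
    rw [mk_prod]
    simp only [Cardinal.lift_id]
    exact (mul_le_mul' hA hM).trans (mul_eq_self hκ0).le
  obtain ⟨w, hw⟩ : ∃ w, w ∉ A ∪ Bd := by
    by_contra hcon
    push Not at hcon
    have h1 : A ∪ Bd = Set.univ := Set.eq_univ_of_forall hcon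
    have h2 : #V ≤ κ := by
      rw [← mk_univ, ← h1]
      exact (mk_union_le _ _).trans (add_le_of_le hκ0 hA hBd)
    exact absurd hV (not_lt.2 h2)
  have hwA : w ∉ A := fun h => hw (Or.inl h)
  have hfib : ∀ x ∈ A, ¬ (fib x (σ.c x w) ∩ A).Countable := by
    intro x hx hc
    have h1 : ¬ (fib x (σ.c x w)).Countable := by
      intro h2
      exact hw (Or.inr (Set.mem_iUnion.2 ⟨⟨(⟨x, hx⟩, σ.c x w), h2⟩, rfl⟩))
    refine hU3 x _ h1 (hc.mono ?_)
    intro y hy
    exact ⟨hU1 _ _ hy, hcl x hx x hx (Or.inr (Set.mem_iUnion.2 ⟨_, hy⟩))⟩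
  -- families of disjoint pairs
  let Pr : ℕ → ℕ → Prop := fun m r => ∃ x y : Fin r → V, Injective (Sum.elim x y) ∧
    (∀ i, x i ∈ A) ∧ (∀ i, y i ∈ A) ∧ (∀ i, σ.d (x i) w ≤ m) ∧ (∀ i, σ.d (y i) w ≤ m) ∧
    ∀ i, σ.c (x i) w = σ.c (x i) (y i)
  have hno : ∀ m, ¬ Pr m (2*m+1) := by
    rintro m ⟨x, y, h1, h2, h3, h4, h5, h6⟩
    refine hgood m w x y ⟨h1, ?_, ?_, h4, h5, h6, ?_⟩
    · intro i h; exact hwA (h ▸ h2 i)
    · intro i h; exact hwA (h ▸ h3 i)
    · intro i j _ h
      apply hwA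
      have hmem : ∀ i, Sum.elim x y i ∈ A := by
        rintro (i | i)
        · exact h2 i
        · exact h3 i
      exact hcl _ (hmem i) _ (hmem j) (Or.inl h)
  have h0 : ∀ m, Pr m 0 := fun m =>
    ⟨Fin.elim0, Fin.elim0, by rintro (i | i) <;> exact i.elim0, fun i => i.elim0,
      fun i => i.elim0, fun i => i.elim0, fun i => i.elim0, fun i => i.elim0⟩
  have hmax : ∀ m, ∃ r, Pr m r ∧ ¬ Pr m (r+1) := by
    intro m
    by_contra hcon
    push Not at hcon
    have : ∀ r, Pr m r := by
      intro r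
      induction r with
      | zero => exact h0 m
      | succ r ih => exact hcon r ih
    exact hno m (this _)
  choose r hr hr' using hmax
  choose x y hxy hxA hyA hdx hdy hcc using hr
  let K : Set V := ⋃ m, Set.range (Sum.elim (x m) (y m))
  have hK : K.Countable := Set.countable_iUnion fun m => Set.countable_range _
  obtain ⟨x', hx'A, hx'K⟩ : ∃ x' ∈ A, x' ∉ K := by
    by_contra hcon
    push Not at hcon
    exact hAunc (hK.mono hcon)
  obtain ⟨y', hy'A, hy'K⟩ : ∃ y' ∈ fib x' (σ.c x' w) ∩ A, y' ∉ insert x' K := by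
    by_contra hcon
    push Not at hcon
    exact hfib x' hx'A ((hK.insert x').mono hcon)
  have hne : y' ≠ x' := fun h => hy'K (Or.inl h)
  have hy'K' : y' ∉ K := fun h => hy'K (Or.inr h)
  set m := max (σ.d x' w) (σ.d y' w) with hm
  have hxK : ∀ i, Sum.elim (x m) (y m) i ∈ K := fun i => Set.mem_iUnion.2 ⟨m, ⟨i, rfl⟩⟩
  refine hr' m ⟨Fin.cons x' (x m), Fin.cons y' (y m), ?_, ?_, ?_, ?_, ?_, ?_⟩
  · intro i j hij
    have key : ∀ i : Fin (r m + 1) ⊕ Fin (r m + 1),
        (i = Sum.inl 0 ∧ Sum.elim (Fin.cons x' (x m) : Fin (r m + 1) → V) (Fin.cons y' (y m)) i = x') ∨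
        (i = Sum.inr 0 ∧ Sum.elim (Fin.cons x' (x m) : Fin (r m + 1) → V) (Fin.cons y' (y m)) i = y') ∨
        (∃ i', i = Sum.map Fin.succ Fin.succ i' ∧
          Sum.elim (Fin.cons x' (x m) : Fin (r m + 1) → V) (Fin.cons y' (y m)) i =
            Sum.elim (x m) (y m) i') := by
      rintro (i | i)
      · induction i using Fin.cases with
        | zero => left; exact ⟨rfl, rfl⟩
        | succ i => right; right; exact ⟨Sum.inl i, rfl, by simp⟩
      · induction i using Fin.cases with
        | zero => right; left; exact ⟨rfl, rfl⟩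
        | succ i => right; right; exact ⟨Sum.inr i, rfl, by simp⟩
    rcases key i with ⟨hi, hi'⟩ | ⟨hi, hi'⟩ | ⟨i', hi, hi'⟩ <;>
    rcases key j with ⟨hj, hj'⟩ | ⟨hj, hj'⟩ | ⟨j', hj, hj'⟩ <;>
    rw [hi', hj'] at hij
    · rw [hi, hj]
    · exact absurd hij.symm hne
    · exact absurd (hij ▸ hxK j') hx'K
    · exact absurd hij hne
    · rw [hi, hj]
    · exact absurd (hij ▸ hxK j') hy'K'
    · exact absurd (hij ▸ hxK i') hx'K
    · exact absurd (hij ▸ hxK i') hy'K'
    · rw [hi, hj, hxy m hij]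
  · intro i
    induction i using Fin.cases with
    | zero => exact hx'A
    | succ i => simpa using hxA m i
  · intro i
    induction i using Fin.cases with
    | zero => exact hy'A.2
    | succ i => simpa using hyA m i
  · intro i
    induction i using Fin.cases with
    | zero => exact le_max_left _ _
    | succ i => simpa using hdx m i
  · intro i
    induction i using Fin.cases with
    | zero => exact le_max_right _ _
    | succ i => simpa using hdy m i
  · intro i
    induction i using Fin.cases with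
    | zero => exact (hy'A.1).symm
    | succ i => simpa using hcc m i

end Bound

end Pool.Agent.TH767.B
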