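import Mathlib
import Pool.Agent.TH767.B.Str

/-!
The term model.
-/

namespace Pool.Agent.TH767.B

open Function

/-- Labels of terms over colours `M` and tags `Y`. -/
abbrev Lab (M Y : Type) : Type :=
  Σ mk : ℕ × ℕ, Str M (Fin mk.1 ⊕ Fin mk.2) × (Fin mk.2 → Y) × Fin mk.2

/-- Arities. -/
abbrev Ar {M Y : Type} (a : Lab M Y) : Type := Fin a.1.1

/-- Terms. -/
abbrev T (M Y : Type) : Type := WType (Ar (M := M) (Y := Y))

section Terms

variable {M Y : Type}

/-- The number of children. -/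
def nm : T M Y → ℕ
  | WType.mk a _ => a.1.1

/-- The number of siblings. -/
def nk : T M Y → ℕ
  | WType.mk a _ => a.1.2

/-- The local structure of a term. -/
def chi : (v : T M Y) → Str M (Fin (nm v) ⊕ Fin (nk v))
  | WType.mk a _ => a.2.1

/-- The tag of a term. -/
def prj : T M Y → Y
  | WType.mk a _ => a.2.2.1 a.2.2.2

/-- The own index. -/
def ix : (v : T M Y) → Fin (nk v)
  | WType.mk a _ => a.2.2.2

/-- The new points of a block. -/
def news {m k : ℕ} (χ : Str M (Fin m ⊕ Fin k)) (p : Fin k → Y) (s : Fin m → T M Y) (i : Fin k) :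
    T M Y := WType.mk ⟨(m, k), (χ, p, i)⟩ s

/-- The block of a term: children and siblings. -/
def blk : (v : T M Y) → Fin (nm v) ⊕ Fin (nk v) → T M Y
  | WType.mk a s => Sum.elim s (news a.2.1 a.2.2.1 s)

/-- The set of all points in the block. -/
def rb (v : T M Y) : Set (T M Y) := Set.range (blk v)

theorem blk_ix (v : T M Y) : blk v (Sum.inr (ix v)) = v := by
  cases v with
  | mk a s => rfl

theorem mem_rb_self (v : T M Y) : v ∈ rb v := ⟨_, blk_ix v⟩

variable (lev : M → ℕ)

/-- The level of a term. -/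
def lam : T M Y → ℕ
  | WType.mk a s => (a.1.1 + a.1.2 + 1) + Finset.univ.sup (fun i => lam (s i) + 1) +
      Finset.univ.sup (fun ij : (Fin a.1.1 ⊕ Fin a.1.2) × (Fin a.1.1 ⊕ Fin a.1.2) =>
        lev (a.2.1.c ij.1 ij.2))

variable {lev}

theorem nm_lt (v : T M Y) : nm v + nk v < lam lev v := by
  cases v with
  | mk a s => rw [lam]; simp only [nm, nk]; omega

theorem lam_sib (v : T M Y) (i : Fin (nk v)) : lam lev (blk v (Sum.inr i)) = lam lev v := by
  cases v with
  | mk a s => rfl

theorem lam_child (v : T M Y) (i : Fin (nm v)) : lam lev (blk v (Sum.inl i)) < lam lev v := by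
  cases v with
  | mk a s =>
    conv_rhs => rw [lam]
    have h1 : lam lev (s i) + 1 ≤ Finset.univ.sup (fun i => lam lev (s i) + 1) :=
      Finset.le_sup (f := fun i => lam lev (s i) + 1) (Finset.mem_univ i)
    change lam lev (s i) < _
    omega

theorem lev_le (v : T M Y) (i j : Fin (nm v) ⊕ Fin (nk v)) :
    lev ((chi v).c i j) ≤ lam lev v := by
  cases v with
  | mk a s =>
    rw [lam]
    have h1 : lev (a.2.1.c i j) ≤ Finset.univ.sup
        (fun ij : (Fin a.1.1 ⊕ Fin a.1.2) × (Fin a.1.1 ⊕ Fin a.1.2) =>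
          lev (a.2.1.c ij.1 ij.2)) :=
      Finset.le_sup (f := fun ij : (Fin a.1.1 ⊕ Fin a.1.2) × (Fin a.1.1 ⊕ Fin a.1.2) =>
          lev (a.2.1.c ij.1 ij.2)) (Finset.mem_univ (i, j))
    change lev (a.2.1.c i j) ≤ _
    omega

theorem lam_rb {v w : T M Y} (h : w ∈ rb v) : lam lev w ≤ lam lev v := by
  obtain ⟨i | i, rfl⟩ := h
  · exact (lam_child v i).le
  · exact (lam_sib v i).le

/-- Membership in a block is symmetric at equal or higher levels. -/
theorem rb_symm {v w : T M Y} (h : w ∈ rb v) (hl : lam lev v ≤ lam lev w) :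
    ∃ i, w = blk v (Sum.inr i) := by
  obtain ⟨i | i, rfl⟩ := h
  · exact absurd (lam_child v i) (not_lt.2 hl)
  · exact ⟨i, rfl⟩

theorem rb_sib (v : T M Y) (i : Fin (nk v)) : rb (blk v (Sum.inr i)) = rb v := by
  cases v with
  | mk a s => rfl

theorem card_lt {ι : Type} (A : Finset ι) (r : ι → T M Y) (hr : Set.InjOn r A) {v : T M Y}
    (h : ∀ i ∈ A, r i ∈ rb v) : A.card < lam lev v := by
  classical
  have h1 : ∀ i : A, ∃ l, blk v l = r i := fun i => h i i.2
  choose g hg using h1
  have hgi : Injective g := by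
    intro i j hij
    have : r i = r j := by rw [← hg i, ← hg j, hij]
    exact Subtype.ext (hr i.2 j.2 this)
  have h2 := Fintype.card_le_of_injective g hgi
  simp only [Fintype.card_coe, Fintype.card_sum, Fintype.card_fin] at h2
  exact lt_of_le_of_lt h2 (nm_lt v)

/-- The place of `w` in the block of `v`. -/
noncomputable def loc (v w : T M Y) : Fin (nm v) ⊕ Fin (nk v) :=
  @Classical.epsilon _ ⟨Sum.inr (ix v)⟩ (fun l => blk v l = w)

theorem blk_loc {v w : T M Y} (h : w ∈ rb v) : blk v (loc v w) = w := by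
  have h' : ∃ l, blk v l = w := h
  exact Classical.epsilon_spec h'

theorem loc_blk {v : T M Y} (hv : Injective (blk v)) (l : Fin (nm v) ⊕ Fin (nk v)) :
    loc v (blk v l) = l := hv (blk_loc ⟨l, rfl⟩)

theorem news_ne {m k : ℕ} (χ : Str M (Fin m ⊕ Fin k)) (p : Fin k → Y) (s : Fin m → T M Y)
    (i : Fin k) (j : Fin m) : s j ≠ news χ p s i := by
  intro h
  have h1 : lam (fun _ => 0) (s j) < lam (fun _ => 0) (news χ p s i) :=
    lam_child (lev := fun _ => 0) (news χ p s i) j
  rw [← h] at h1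
  exact lt_irrefl _ h1

theorem news_inj {m k : ℕ} (χ : Str M (Fin m ⊕ Fin k)) (p : Fin k → Y) (s : Fin m → T M Y) :
    Injective (news χ p s) := by
  intro i j h
  unfold news at h
  injection h with h1 h2
  simpa using h1

theorem blkB_inj {m k : ℕ} (χ : Str M (Fin m ⊕ Fin k)) (p : Fin k → Y) (s : Fin m → T M Y)
    (hs : Injective s) : Injective (Sum.elim s (news χ p s)) := by
  rintro (i | i) (j | j) h
  · exact congrArg Sum.inl (hs h)
  · exact absurd h (news_ne χ p s j i)
  · exact absurd h.symm (news_ne χ p s i j)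
  · exact congrArg Sum.inr (news_inj χ p s h)

/-- `v` is a witness that the pair `z, z'` gets its values from a local structure. -/
def Exc (E : T M Y → Prop) (v z z' : T M Y) : Prop :=
  E v ∧ (z = v ∨ z' = v) ∧ z ∈ rb v ∧ z' ∈ rb v

theorem Exc.sib {E E' : T M Y → Prop} {v v' z z' : T M Y} (h : Exc E v z z')
    (h' : Exc E' v' z z') : ∃ i, v' = blk v (Sum.inr i) := by
  obtain ⟨-, h1, h2, h3⟩ := h
  obtain ⟨-, h1', h2', h3'⟩ := h'
  have key : v' ∈ rb v ∧ v ∈ rb v' := by
    constructor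
    · rcases h1' with h | h
      · rw [← h]; exact h2
      · rw [← h]; exact h3
    · rcases h1 with h | h
      · rw [← h]; exact h2'
      · rw [← h]; exact h3'
  exact rb_symm (lev := fun _ => 0) key.1 (lam_rb key.2)

variable (κ : T M Y → T M Y → M) (lev)

/-- Immediate predecessors. -/
def pre (u v : T M Y) : Prop :=
  u ∈ rb v ∨ ∃ x w i j, (chi v).c i j = κ x w ∧ (u = x ∨ u = w)

/-- The hereditary closure of a term. -/
def TC (v : T M Y) : Set (T M Y) := {u | Relation.ReflTransGen (pre κ) u v}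

open Classical in
/-- The structure determined by the set of effective terms. -/
noncomputable def colAux (E : T M Y → Prop) : Str M (T M Y) where
  c z z' := if h : ∃ v, Exc E v z z' then (chi h.choose).c (loc h.choose z) (loc h.choose z')
    else κ z z'
  d z z' := if h : ∃ v, Exc E v z z' then (chi h.choose).d (loc h.choose z) (loc h.choose z')
    else max (lam lev z) (lam lev z')
  F z z' u := if h : ∃ v, Exc E v z z' then
      ∃ l, blk h.choose l = u ∧ (chi h.choose).F (loc h.choose z) (loc h.choose z') l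
    else u ∈ TC κ z ∪ TC κ z'

/-- Restriction of a structure to the left summand. -/
def pullL {X Z : Type} (χ : Str M (X ⊕ Z)) : Str M X where
  c x y := χ.c (Sum.inl x) (Sum.inl y)
  d x y := χ.d (Sum.inl x) (Sum.inl y)
  F x y z := χ.F (Sum.inl x) (Sum.inl y) (Sum.inl z)

/-- The effective terms. -/
def Eff : T M Y → Prop
  | WType.mk a s => Emb Sum.inl (pullL a.2.1) a.2.1 ∧ Good a.2.1 ∧
      Emb s (pullL a.2.1) (colAux lev κ (fun w => ∃ i, s i = w ∧ Eff (s i)))

/-- The structure on the set of terms. -/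
noncomputable def col : Str M (T M Y) := colAux lev κ (Eff lev κ)

variable {κ lev}

theorem aux_c {E : T M Y → Prop} {v z z' : T M Y} (h : Exc E v z z') :
    (colAux lev κ E).c z z' = (chi v).c (loc v z) (loc v z') := by
  have hex : ∃ v, Exc E v z z' := ⟨v, h⟩
  unfold colAux
  simp only
  rw [dif_pos hex]
  obtain ⟨i, hi⟩ := h.sib hex.choose_spec
  rw [hi]
  cases v with
  | mk a s => rfl

theorem aux_d {E : T M Y → Prop} {v z z' : T M Y} (h : Exc E v z z') :
    (colAux lev κ E).d z z' = (chi v).d (loc v z) (loc v z') := by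
  have hex : ∃ v, Exc E v z z' := ⟨v, h⟩
  unfold colAux
  simp only
  rw [dif_pos hex]
  obtain ⟨i, hi⟩ := h.sib hex.choose_spec
  rw [hi]
  cases v with
  | mk a s => rfl

theorem aux_F {E : T M Y → Prop} {v z z' : T M Y} (h : Exc E v z z') (u : T M Y) :
    (colAux lev κ E).F z z' u ↔ ∃ l, blk v l = u ∧ (chi v).F (loc v z) (loc v z') l := by
  have hex : ∃ v, Exc E v z z' := ⟨v, h⟩
  unfold colAux
  simp only
  rw [dif_pos hex]
  obtain ⟨i, hi⟩ := h.sib hex.choose_spec
  rw [hi]
  cases v with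
  | mk a s => exact Iff.rfl

theorem dfl_c {E : T M Y → Prop} {z z' : T M Y} (h : ∀ v, ¬ Exc E v z z') :
    (colAux lev κ E).c z z' = κ z z' := by
  unfold colAux
  simp only
  rw [dif_neg (by push Not; exact h)]

theorem dfl_d {E : T M Y → Prop} {z z' : T M Y} (h : ∀ v, ¬ Exc E v z z') :
    (colAux lev κ E).d z z' = max (lam lev z) (lam lev z') := by
  unfold colAux
  simp only
  rw [dif_neg (by push Not; exact h)]

theorem dfl_F {E : T M Y → Prop} {z z' : T M Y} (h : ∀ v, ¬ Exc E v z z') (u : T M Y) :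
    (colAux lev κ E).F z z' u ↔ u ∈ TC κ z ∪ TC κ z' := by
  unfold colAux
  simp only
  rw [dif_neg (by push Not; exact h)]

theorem Exc.congr {E E' : T M Y → Prop} {v z z' : T M Y} (hz : E z ↔ E' z) (hz' : E z' ↔ E' z')
    (h : Exc E v z z') : Exc E' v z z' := by
  obtain ⟨h0, h1, h2, h3⟩ := h
  refine ⟨?_, h1, h2, h3⟩
  rcases h1 with rfl | rfl
  · exact hz.1 h0
  · exact hz'.1 h0

theorem aux_congr {E E' : T M Y → Prop} {z z' : T M Y} (hz : E z ↔ E' z) (hz' : E z' ↔ E' z') :
    (colAux lev κ E).c z z' = (colAux lev κ E').c z z' ∧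
    (colAux lev κ E).d z z' = (colAux lev κ E').d z z' ∧
    ∀ u, (colAux lev κ E).F z z' u ↔ (colAux lev κ E').F z z' u := by
  by_cases hex : ∃ v, Exc E v z z'
  · obtain ⟨v, hv⟩ := hex
    have hv' := hv.congr hz hz'
    exact ⟨by rw [aux_c hv, aux_c hv'], by rw [aux_d hv, aux_d hv'],
      fun u => by rw [aux_F hv, aux_F hv']⟩
  · push Not at hex
    have hex' : ∀ v, ¬ Exc E' v z z' := fun v hv => hex v (hv.congr hz.symm hz'.symm)
    exact ⟨by rw [dfl_c hex, dfl_c hex'], by rw [dfl_d hex, dfl_d hex'],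
      fun u => by rw [dfl_F hex, dfl_F hex']⟩

theorem emb_aux_congr {E E' : T M Y → Prop} {X : Type} {s : X → T M Y} {σ : Str M X}
    (hE : ∀ i, E (s i) ↔ E' (s i)) (h : Emb s σ (colAux lev κ E)) :
    Emb s σ (colAux lev κ E') where
  inj := h.inj
  c x y hxy := (h.c x y hxy).trans (aux_congr (hE x) (hE y)).1
  d x y hxy := (h.d x y hxy).trans (aux_congr (hE x) (hE y)).2.1
  F x y z hxy := (h.F x y z hxy).trans ((aux_congr (hE x) (hE y)).2.2 _)
  cl x y w hxy hw := h.cl x y w hxy (((aux_congr (hE x) (hE y)).2.2 _).2 hw)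

theorem eff_iff (a : Lab M Y) (s : Ar a → T M Y) : Eff lev κ (WType.mk a s) ↔
    Emb Sum.inl (pullL a.2.1) a.2.1 ∧ Good a.2.1 ∧ Emb s (pullL a.2.1) (col lev κ) := by
  rw [Eff]
  constructor
  · rintro ⟨h1, h2, h3⟩
    refine ⟨h1, h2, emb_aux_congr ?_ h3⟩
    intro i
    constructor
    · rintro ⟨j, hj, hj'⟩
      have : j = i := h3.inj hj
      subst this
      exact hj'
    · intro hi; exact ⟨i, rfl, hi⟩
  · rintro ⟨h1, h2, h3⟩
    refine ⟨h1, h2, emb_aux_congr ?_ h3⟩
    intro i
    constructor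
    · intro hi; exact ⟨i, rfl, hi⟩
    · rintro ⟨j, hj, hj'⟩
      have : j = i := h3.inj hj
      subst this
      exact hj'

/-- The block of effective data is closely embedded. -/
theorem emb_block {m k : ℕ} (χ : Str M (Fin m ⊕ Fin k)) (p : Fin k → Y) (s : Fin m → T M Y)
    (h1 : Emb Sum.inl (pullL χ) χ) (h2 : Good χ) (h3 : Emb s (pullL χ) (col lev κ)) :
    Emb (Sum.elim s (news χ p s)) χ (col lev κ) := by
  have hinj := blkB_inj χ p s h3.inj
  have hE : ∀ i, Eff lev κ (news χ p s i) := fun i => (eff_iff _ _).2 ⟨h1, h2, h3⟩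
  have hloc : ∀ i l, loc (news χ p s i) (Sum.elim s (news χ p s) l) = l := fun i l =>
    loc_blk (v := news χ p s i) hinj l
  have hexc : ∀ x y : Fin m ⊕ Fin k, (∃ i, x = Sum.inr i ∨ y = Sum.inr i) →
      ∃ i, Exc (Eff lev κ) (news χ p s i) (Sum.elim s (news χ p s) x)
        (Sum.elim s (news χ p s) y) := by
    rintro x y ⟨i, hi⟩
    refine ⟨i, hE i, ?_, ⟨x, rfl⟩, ⟨y, rfl⟩⟩
    rcases hi with rfl | rfl
    · left; rfl
    · right; rfl
  have hcase : ∀ x y : Fin m ⊕ Fin k, (∃ i, x = Sum.inr i ∨ y = Sum.inr i) ∨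
      ∃ i j, x = Sum.inl i ∧ y = Sum.inl j := by
    rintro (i | i) (j | j)
    · right; exact ⟨i, j, rfl, rfl⟩
    · left; exact ⟨j, Or.inr rfl⟩
    · left; exact ⟨i, Or.inl rfl⟩
    · left; exact ⟨i, Or.inl rfl⟩
  refine ⟨hinj, ?_, ?_, ?_, ?_⟩
  · intro x y hxy
    rcases hcase x y with h | ⟨i, j, rfl, rfl⟩
    · obtain ⟨i, hi⟩ := hexc x y h
      unfold col
      rw [aux_c hi, hloc, hloc]
      rfl
    · exact h3.c i j (fun h => hxy (congrArg _ h))
  · intro x y hxy
    rcases hcase x y with h | ⟨i, j, rfl, rfl⟩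
    · obtain ⟨i, hi⟩ := hexc x y h
      unfold col
      rw [aux_d hi, hloc, hloc]
      rfl
    · exact h3.d i j (fun h => hxy (congrArg _ h))
  · intro x y z hxy
    rcases hcase x y with h | ⟨i, j, rfl, rfl⟩
    · obtain ⟨i, hi⟩ := hexc x y h
      unfold col
      rw [aux_F hi, hloc, hloc]
      constructor
      · intro hF; exact ⟨z, rfl, hF⟩
      · rintro ⟨l, hl, hF⟩
        have : l = z := hinj hl
        subst this
        exact hF
    · have hij : i ≠ j := fun h => hxy (congrArg _ h)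
      rcases z with z | z
      · exact h3.F i j z hij
      · constructor
        · intro hF
          obtain ⟨z', hz'⟩ := h1.cl i j _ hij hF
          cases hz'
        · intro hF
          obtain ⟨z', hz'⟩ := h3.cl i j _ hij hF
          exact absurd hz' (news_ne χ p s z z')
  · intro x y w hxy hF
    rcases hcase x y with h | ⟨i, j, rfl, rfl⟩
    · obtain ⟨i, hi⟩ := hexc x y h
      unfold col at hF
      rw [aux_F hi] at hF
      obtain ⟨l, hl, -⟩ := hF
      exact ⟨l, hl⟩
    · obtain ⟨z, hz⟩ := h3.cl i j w (fun h => hxy (congrArg _ h)) hF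
      exact ⟨Sum.inl z, hz⟩

theorem emb_blk {v : T M Y} (h : Eff lev κ v) : Emb (blk v) (chi v) (col lev κ) := by
  cases v with
  | mk a s =>
    obtain ⟨h1, h2, h3⟩ := (eff_iff a s).1 h
    exact emb_block a.2.1 a.2.2.1 s h1 h2 h3

theorem good_chi {v : T M Y} (h : Eff lev κ v) : Good (chi v) := by
  cases v with
  | mk a s => exact ((eff_iff a s).1 h).2.1

theorem eff_sib {v : T M Y} (h : Eff lev κ v) (i : Fin (nk v)) :
    Eff lev κ (blk v (Sum.inr i)) := by
  cases v with
  | mk a s => exact (eff_iff _ _).2 ((eff_iff a s).1 h)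

end Terms

end Pool.Agent.TH767.B
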