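import Mathlib
import Pool.Agent.TH767.B.Term

/-!
The term structure has no bad configurations.
-/

namespace Pool.Agent.TH767.B

open Function

section GC

variable {M Y : Type} {lev : M → ℕ} {κ : T M Y → T M Y → M}

theorem tc_self (v : T M Y) : v ∈ TC κ v := Relation.ReflTransGen.refl

theorem tc_rb {u v : T M Y} (h : u ∈ rb v) : u ∈ TC κ v :=
  Relation.ReflTransGen.single (Or.inl h)

theorem tc_code {v x w : T M Y} {i j : Fin (nm v) ⊕ Fin (nk v)} (h : (chi v).c i j = κ x w) :
    x ∈ TC κ v ∧ w ∈ TC κ v :=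
  ⟨Relation.ReflTransGen.single (Or.inr ⟨x, w, i, j, h, Or.inl rfl⟩),
    Relation.ReflTransGen.single (Or.inr ⟨x, w, i, j, h, Or.inr rfl⟩)⟩

theorem tc_trans {u v : T M Y} (h : u ∈ TC κ v) : TC κ u ⊆ TC κ v := fun _ h' =>
  Relation.ReflTransGen.trans h' h

theorem lam_pre (hl : ∀ x w, max (lam lev x) (lam lev w) < lev (κ x w)) {u v : T M Y}
    (h : pre κ u v) : lam lev u ≤ lam lev v := by
  rcases h with h | ⟨x, w, i, j, h, h'⟩
  · exact lam_rb h
  · have h1 := lev_le (lev := lev) v i j
    rw [h] at h1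
    have h2 := hl x w
    rcases h' with rfl | rfl
    · exact ((le_max_left _ _).trans h2.le).trans h1
    · exact ((le_max_right _ _).trans h2.le).trans h1

theorem tc_lam (hl : ∀ x w, max (lam lev x) (lam lev w) < lev (κ x w)) {u v : T M Y}
    (h : u ∈ TC κ v) : lam lev u ≤ lam lev v := by
  have h' : Relation.ReflTransGen (pre κ) u v := h
  induction h' with
  | refl => exact le_rfl
  | tail _ hbc ih => exact (ih ‹_›).trans (lam_pre hl hbc)

/-- Strict predecessors. -/
def spre (κ : T M Y → T M Y → M) (u v : T M Y) : Prop :=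
  (∃ i, u = blk v (Sum.inl i)) ∨ ∃ x w i j, (chi v).c i j = κ x w ∧ (u = x ∨ u = w)

theorem spre_sib (v : T M Y) (i : Fin (nk v)) (u : T M Y) :
    spre κ u (blk v (Sum.inr i)) ↔ spre κ u v := by
  cases v with
  | mk a s => exact Iff.rfl

theorem tc_cases {u v : T M Y} (h : u ∈ TC κ v) :
    (∃ i, u = blk v (Sum.inr i)) ∨ ∃ u', spre κ u' v ∧ u ∈ TC κ u' := by
  have h' : Relation.ReflTransGen (pre κ) u v := h
  induction h' with
  | refl => exact Or.inl ⟨ix u, (blk_ix u).symm⟩
  | tail hab hbc ih =>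
    rename_i b c
    rcases hbc with ⟨i | i, hi⟩ | hbc
    · exact Or.inr ⟨b, Or.inl ⟨i, hi.symm⟩, hab⟩
    · subst hi
      rcases ih hab with ⟨j, hj⟩ | ⟨u', hu', hu''⟩
      · left
        have : blk (blk c (Sum.inr i)) (Sum.inr j) ∈ rb c := by
          rw [← rb_sib c i]; exact ⟨_, rfl⟩
        rw [← hj] at this
        refine rb_symm (lev := fun _ => 0) this ?_
        rw [hj, lam_sib, lam_sib]
      · exact Or.inr ⟨u', (spre_sib c i u').1 hu', hu''⟩
    · exact Or.inr ⟨b, Or.inr hbc, hab⟩

theorem tc_finite (hκ : ∀ x w x' w', κ x w = κ x' w' → x = x' ∧ w = w')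
    (hl : ∀ x w, max (lam lev x) (lam lev w) < lev (κ x w)) (v : T M Y) :
    (TC κ v).Finite := by
  have key : ∀ n, ∀ v : T M Y, lam lev v = n → (TC κ v).Finite := by
    intro n
    induction n using Nat.strong_induction_on with
    | _ n ih =>
      intro v hv
      have hlt : ∀ u, spre κ u v → lam lev u < n := by
        rintro u (⟨i, rfl⟩ | ⟨x, w, i, j, h, h'⟩)
        · rw [← hv]; exact lam_child v i
        · have h1 := lev_le (lev := lev) v i j
          rw [h, hv] at h1
          have h2 := hl x w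
          rcases h' with rfl | rfl
          · exact lt_of_le_of_lt (le_max_left _ _) (lt_of_lt_of_le h2 h1)
          · exact lt_of_le_of_lt (le_max_right _ _) (lt_of_lt_of_le h2 h1)
      have hfin : {u | spre κ u v}.Finite := by
        have h1 : {u | ∃ i, u = blk v (Sum.inl i)}.Finite := by
          refine (Set.finite_range (fun i => blk v (Sum.inl i))).subset ?_
          rintro u ⟨i, rfl⟩; exact ⟨i, rfl⟩
        have h2 : ∀ ij : (Fin (nm v) ⊕ Fin (nk v)) × (Fin (nm v) ⊕ Fin (nk v)),
            {u | ∃ x w, (chi v).c ij.1 ij.2 = κ x w ∧ (u = x ∨ u = w)}.Finite := by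
          intro ij
          by_cases hex : ∃ x w, (chi v).c ij.1 ij.2 = κ x w
          · obtain ⟨x, w, hxw⟩ := hex
            refine ((Set.finite_singleton w).insert x).subset ?_
            rintro u ⟨x', w', h, h'⟩
            obtain ⟨rfl, rfl⟩ := hκ _ _ _ _ (hxw.symm.trans h)
            rcases h' with rfl | rfl
            · exact Or.inl rfl
            · exact Or.inr rfl
          · convert! Set.finite_empty
            ext u
            simp only [Set.mem_ofPred_eq, Set.mem_empty_iff_false, iff_false]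
            rintro ⟨x, w, h, -⟩
            exact hex ⟨x, w, h⟩
        refine (h1.union (Set.finite_iUnion h2)).subset ?_
        rintro u (h | ⟨x, w, i, j, h, h'⟩)
        · exact Or.inl h
        · exact Or.inr (Set.mem_iUnion.2 ⟨(i, j), x, w, h, h'⟩)
      have hU : (⋃ u ∈ {u | spre κ u v}, TC κ u).Finite := by
        refine hfin.biUnion ?_
        intro u hu
        exact ih _ (hlt u hu) u rfl
      refine ((Set.finite_range (fun i => blk v (Sum.inr i))).union hU).subset ?_
      intro u hu
      rcases tc_cases hu with ⟨i, rfl⟩ | ⟨u', hu', hu''⟩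
      · exact Or.inl ⟨i, rfl⟩
      · exact Or.inr (Set.mem_biUnion hu' hu'')
  exact key _ v rfl

/-- Being in the effective block. -/
def EB (lev : M → ℕ) (κ : T M Y → T M Y → M) (v z : T M Y) : Prop := Eff lev κ v ∧ z ∈ rb v

theorem not_exc {z z' : T M Y} (h1 : ¬ EB lev κ z z') (h2 : ¬ EB lev κ z' z) :
    ∀ v, ¬ Exc (Eff lev κ) v z z' := by
  rintro v ⟨h3, rfl | rfl, h4, h5⟩
  · exact h1 ⟨h3, h5⟩
  · exact h2 ⟨h3, h4⟩

theorem eb_symm {v z : T M Y} (h : EB lev κ v z) (hl : lam lev v ≤ lam lev z) :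
    EB lev κ z v := by
  obtain ⟨h1, h2⟩ := h
  obtain ⟨i, rfl⟩ := rb_symm h2 hl
  refine ⟨eff_sib h1 i, ?_⟩
  rw [rb_sib]
  exact mem_rb_self v

/-- A bad configuration inside one effective block is impossible. -/
theorem no_local {v w : T M Y} {m : ℕ} {x y : Fin (2*m+1) → T M Y} (hv : Eff lev κ v)
    (hb : Bad (col lev κ) m w x y) (hw : w ∈ rb v) (hx : ∀ i, x i ∈ rb v)
    (hy : ∀ i, y i ∈ rb v) : False := by
  obtain ⟨w', rfl⟩ := hw
  choose x' hx' using hx
  choose y' hy' using hy
  have e1 : x = blk v ∘ x' := by ext1 i; exact (hx' i).symm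
  have e2 : y = blk v ∘ y' := by ext1 i; exact (hy' i).symm
  rw [e1, e2] at hb
  exact good_chi hv m w' x' y' ((emb_blk hv).bad_iff.2 hb)

/-- The colour argument: default pairs `x i, w` give a contradiction. -/
theorem no_colour (hκ : ∀ x w x' w', κ x w = κ x' w' → x = x' ∧ w = w')
    {w : T M Y} {m : ℕ} {x y : Fin (2*m+1) → T M Y}
    (hb : Bad (col lev κ) m w x y) (i : Fin (2*m+1)) (h1 : ¬ EB lev κ (x i) w)
    (h2 : ¬ EB lev κ w (x i))
    (h3 : ∀ a b, (chi (x i)).c a b ≠ κ (x i) w) (h4 : ∀ a b, (chi (y i)).c a b ≠ κ (x i) w) :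
    False := by
  have hc := hb.cc i
  unfold col at hc
  rw [dfl_c (not_exc h1 h2)] at hc
  by_cases hex : ∃ v, Exc (Eff lev κ) v (x i) (y i)
  · obtain ⟨v, hv⟩ := hex
    rw [aux_c hv] at hc
    rcases hv.2.1 with h | h
    · rw [← h] at hc; exact h3 _ _ hc.symm
    · rw [← h] at hc; exact h4 _ _ hc.symm
  · push Not at hex
    rw [dfl_c hex] at hc
    exact hb.hy i (hκ _ _ _ _ hc).2.symm

theorem good_col (hκ : ∀ x w x' w', κ x w = κ x' w' → x = x' ∧ w = w')
    (hl : ∀ x w, max (lam lev x) (lam lev w) < lev (κ x w)) : Good (col lev κ) := by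
  classical
  intro m w x y hb
  set s : Fin (2*m+1) ⊕ Fin (2*m+1) → T M Y := Sum.elim x y with hs
  have hsw : ∀ i, s i ≠ w := by
    rintro (i | i)
    · exact hb.hx i
    · exact hb.hy i
  have hd : ∀ i, (col lev κ).d (s i) w ≤ m := by
    rintro (i | i)
    · exact hb.dx i
    · exact hb.dy i
  have hdd : ∀ i, ¬ EB lev κ (s i) w → ¬ EB lev κ w (s i) →
      lam lev (s i) ≤ m ∧ lam lev w ≤ m := by
    intro i h1 h2
    have h3 := hd i
    unfold col at h3
    rw [dfl_d (not_exc h1 h2)] at h3
    exact max_le_iff.1 h3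
  -- counting
  have count : ∀ v : T M Y, ∀ A : Finset (Fin (2*m+1)),
      (∀ i ∈ A, x i ∈ rb v ∨ y i ∈ rb v) → A.card < lam lev v := by
    intro v A hA
    have h1 : ∀ i, ∃ z : T M Y, (z = x i ∨ z = y i) ∧ (i ∈ A → z ∈ rb v) := by
      intro i
      by_cases hi : i ∈ A
      · rcases hA i hi with h | h
        · exact ⟨x i, Or.inl rfl, fun _ => h⟩
        · exact ⟨y i, Or.inr rfl, fun _ => h⟩
      · exact ⟨x i, Or.inl rfl, fun h => absurd h hi⟩
    choose r hr hr' using h1
    refine card_lt A r ?_ (fun i hi => hr' i hi)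
    intro i _ j _ hij
    have hinj := hb.inj
    have key : ∀ i j, r i = r j → i = j := by
      intro i j hij
      rcases hr i with hi | hi <;> rcases hr j with hj | hj <;> rw [hi, hj] at hij
      · exact Sum.inl.inj (@hinj (Sum.inl i) (Sum.inl j) hij)
      · exact absurd (@hinj (Sum.inl i) (Sum.inr j) hij) (by simp)
      · exact absurd (@hinj (Sum.inr i) (Sum.inl j) hij) (by simp)
      · exact Sum.inr.inj (@hinj (Sum.inr i) (Sum.inr j) hij)
    exact key i j hij
  obtain ⟨i₀, hi₀⟩ := Finite.exists_max (fun i => lam lev (s i))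
  rcases le_or_gt (lam lev (s i₀)) (lam lev w) with hcase | hcase
  · -- `w` is a top point
    have hle : ∀ i, lam lev (s i) ≤ lam lev w := fun i => (hi₀ i).trans hcase
    by_cases hall : ∀ i, EB lev κ w (s i)
    · exact no_local (hall i₀).1 hb (mem_rb_self w) (fun i => (hall (Sum.inl i)).2)
        (fun i => (hall (Sum.inr i)).2)
    · push Not at hall
      obtain ⟨i₁, hi₁⟩ := hall
      have hsym : ∀ i, ¬ EB lev κ w (s i) → ¬ EB lev κ (s i) w := by
        intro i h1 h2
        by_cases h3 : lam lev (s i) ≤ lam lev w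
        · exact h1 (eb_symm h2 h3)
        · exact h3 (hle i)
      have hlw := (hdd i₁ (hsym _ hi₁) hi₁).2
      obtain ⟨i, hi1, hi2⟩ : ∃ i, x i ∉ rb w ∧ y i ∉ rb w := by
        by_contra hcon
        push Not at hcon
        have := count w Finset.univ (fun i _ => by
          by_cases h : x i ∈ rb w
          · exact Or.inl h
          · exact Or.inr (hcon i h))
        simp only [Finset.card_univ, Fintype.card_fin] at this
        omega
      have hEx : ¬ EB lev κ w (x i) := fun h => hi1 h.2
      have hlev : ∀ v : T M Y, lam lev v ≤ lam lev w → ∀ a b, (chi v).c a b ≠ κ (x i) w := by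
        intro v hv a b h
        have h1 := lev_le (lev := lev) v a b
        rw [h] at h1
        have h2 := hl (x i) w
        have h3 := le_max_right (lam lev (x i)) (lam lev w)
        omega
      exact no_colour hκ hb i (hsym (Sum.inl i) hEx) hEx (hlev _ (hle (Sum.inl i)))
        (hlev _ (hle (Sum.inr i)))
  · -- the top point `v` lies in `s`
    set v := s i₀ with hv
    have hwv : w ∉ rb v → ¬ EB lev κ v w := fun h h' => h h'.2
    have hvw : ¬ EB lev κ w v := fun h => absurd (lam_rb (lev := lev) h.2) (not_le.2 hcase)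
    by_cases hall : ∀ i, i ≠ i₀ → EB lev κ v (s i)
    · -- everything is in the block of `v`
      have hother : ∃ i, i ≠ i₀ := by
        rcases i₀ with j | j
        · exact ⟨Sum.inr j, by simp⟩
        · exact ⟨Sum.inl j, by simp⟩
      obtain ⟨i₁, hi₁⟩ := hother
      have hEv := (hall i₁ hi₁).1
      have hmem : ∀ i, s i ∈ rb v := by
        intro i
        by_cases h : i = i₀
        · rw [h]; exact mem_rb_self v
        · exact (hall i h).2
      by_cases hw : w ∈ rb v
      · exact no_local hEv hb hw (fun i => hmem (Sum.inl i)) (fun i => hmem (Sum.inr i))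
      · have h1 := (hdd i₀ (hwv hw) hvw).1
        have h2 := count v Finset.univ (fun i _ => Or.inl (hmem (Sum.inl i)))
        simp only [Finset.card_univ, Fintype.card_fin] at h2
        rw [← hv] at h1
        omega
    · push Not at hall
      obtain ⟨i₁, hi₁, hi₁'⟩ := hall
      have hsym : ∀ i, ¬ EB lev κ v (s i) → ¬ EB lev κ (s i) v := by
        intro i h1 h2
        exact h1 (eb_symm h2 (hi₀ i))
      have hTC : ∀ i, i ≠ i₀ → ¬ EB lev κ v (s i) → w ∉ TC κ v ∧ w ∉ TC κ (s i) := by
        intro i hi hE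
        have h1 := hb.nF i₀ i hi.symm
        unfold col at h1
        rw [dfl_F (not_exc hE (hsym i hE))] at h1
        exact ⟨fun h => h1 (Or.inl h), fun h => h1 (Or.inr h)⟩
      have hwTC := (hTC i₁ hi₁ hi₁').1
      have hw : w ∉ rb v := fun h => hwTC (tc_rb h)
      have hlv : lam lev v ≤ m ∧ lam lev w ≤ m := hdd i₀ (hwv hw) hvw
      obtain ⟨i, hi1, hi2, hi3, hi4⟩ : ∃ i, x i ∉ rb v ∧ y i ∉ rb v ∧ x i ∉ rb w ∧
          y i ∉ rb w := by
        by_contra hcon
        push Not at hcon
        let A : Finset (Fin (2*m+1)) := Finset.univ.filter (fun i => x i ∈ rb v ∨ y i ∈ rb v)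
        let B : Finset (Fin (2*m+1)) := Finset.univ.filter (fun i => x i ∈ rb w ∨ y i ∈ rb w)
        have hA := count v A (fun i hi => (Finset.mem_filter.1 hi).2)
        have hB := count w B (fun i hi => (Finset.mem_filter.1 hi).2)
        have hAB : A ∪ B = Finset.univ := by
          apply Finset.eq_univ_of_forall
          intro i
          rw [Finset.mem_union]
          by_cases h1 : x i ∈ rb v
          · left; exact Finset.mem_filter.2 ⟨Finset.mem_univ _, Or.inl h1⟩
          by_cases h2 : y i ∈ rb v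
          · left; exact Finset.mem_filter.2 ⟨Finset.mem_univ _, Or.inr h2⟩
          right
          refine Finset.mem_filter.2 ⟨Finset.mem_univ _, ?_⟩
          by_cases h3 : x i ∈ rb w
          · exact Or.inl h3
          · exact Or.inr (hcon i h1 h2 h3)
        have hcard := Finset.card_union_le A B
        rw [hAB, Finset.card_univ, Fintype.card_fin] at hcard
        omega
      have hxi₀ : (Sum.inl i : Fin (2*m+1) ⊕ Fin (2*m+1)) ≠ i₀ := by
        intro h
        apply hi1
        have : x i = v := by rw [hv, ← h]; rfl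
        rw [this]; exact mem_rb_self v
      have hyi₀ : (Sum.inr i : Fin (2*m+1) ⊕ Fin (2*m+1)) ≠ i₀ := by
        intro h
        apply hi2
        have : y i = v := by rw [hv, ← h]; rfl
        rw [this]; exact mem_rb_self v
      have hTx : w ∉ TC κ (x i) := (hTC (Sum.inl i) hxi₀ (fun h => hi1 h.2)).2
      have hTy : w ∉ TC κ (y i) := (hTC (Sum.inr i) hyi₀ (fun h => hi2 h.2)).2
      exact no_colour hκ hb i (fun h => hTx (tc_rb h.2)) (fun h => hi3 h.2)
        (fun a b h => hTx (tc_code h).2) (fun a b h => hTy (tc_code h).2)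

end GC

end Pool.Agent.TH767.B
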