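import Mathlib
import Pool.Agent.TH767.B.GoodCol

/-!
Existence of models.
-/

namespace Pool.Agent.TH767.B

open Function Cardinal

/-- The abstract properties of the models over the colours `M` and the labels `U`. -/
structure Mdl {M V Y : Type} (U : Set Y) (π : V → Y) (σ : Str M V) : Prop where
  tag : ∀ v, π v ∈ U
  good : Good σ
  fin : ∀ S : Set V, S.Finite → ∃ S' : Set V, S ⊆ S' ∧ S'.Finite ∧
    ∀ x ∈ S', ∀ y ∈ S', ∀ w, x ≠ y → σ.F x y w → w ∈ S'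
  ext : ∀ {m k : ℕ} (s : Fin m → V) (χ : Str M (Fin m ⊕ Fin k)) (p : Fin k → Y),
    (∀ i, p i ∈ U) → Good χ → Emb Sum.inl (pullL χ) χ → Emb s (pullL χ) σ →
    ∃ t : Fin k → V, Emb (Sum.elim s t) χ σ ∧ ∀ i, π (t i) = p i

theorem mk_fun_le {X Z : Type} [Finite X] {κ : Cardinal.{0}} (hκ : ℵ₀ ≤ κ) (hZ : #Z ≤ κ) :
    #(X → Z) ≤ κ := by
  have := Fintype.ofFinite X
  rw [← power_def, mk_fintype X]
  exact (power_le_power_right hZ).trans (power_nat_le hκ)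

theorem mk_prod_le' {X Z : Type} {κ : Cardinal.{0}} (hκ : ℵ₀ ≤ κ) (hX : #X ≤ κ) (hZ : #Z ≤ κ) :
    #(X × Z) ≤ κ := by
  rw [mk_prod]
  simp only [Cardinal.lift_id]
  exact (mul_le_mul' hX hZ).trans (mul_eq_self hκ).le

theorem mk_str_le {M X : Type} [Finite X] {κ : Cardinal.{0}} (hκ : ℵ₀ ≤ κ) (hM : #M ≤ κ) :
    #(Str M X) ≤ κ := by
  have h1 : #(Str M X) ≤ #((X → X → M) × (X → X → ℕ) × (X → X → X → Prop)) := by
    refine mk_le_of_injective (f := fun σ : Str M X => (σ.c, σ.d, σ.F)) ?_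
    rintro ⟨c, d, F⟩ ⟨c', d', F'⟩ h
    simp only [Prod.mk.injEq] at h
    obtain ⟨rfl, rfl, rfl⟩ := h
    rfl
  refine h1.trans (mk_prod_le' hκ ?_ (mk_prod_le' hκ ?_ ?_))
  · exact mk_fun_le hκ (mk_fun_le hκ hM)
  · exact mk_fun_le hκ (mk_fun_le hκ (mk_nat.le.trans hκ))
  · exact (lt_aleph0_of_finite _).le.trans hκ

theorem mk_T_le {M U : Type} [Infinite M] (hU : #U ≤ #M) : #(T M U) ≤ #M := by
  have hM : ℵ₀ ≤ #M := aleph0_le_mk M
  have h1 := WType.cardinalMk_le_max_aleph0_of_finite (β := Ar (M := M) (Y := U))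
  refine h1.trans (max_le ?_ hM)
  rw [mk_sigma]
  refine (sum_le_sum _ (fun _ => #M) ?_).trans ?_
  · intro mk
    refine mk_prod_le' hM (mk_str_le hM le_rfl) (mk_prod_le' hM (mk_fun_le hM hU) ?_)
    exact (lt_aleph0_of_finite _).le.trans hM
  · rw [sum_const']
    exact (mul_le_mul' (mk_le_aleph0.trans hM) le_rfl).trans (mul_eq_self hM).le

theorem exists_lev (M : Type) [Infinite M] : Nonempty (M ≃ M × ℕ) := by
  have h : #M = #(M × ℕ) := by
    rw [mk_prod]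
    simp only [Cardinal.lift_id, mk_nat]
    exact (mul_aleph0_eq (aleph0_le_mk M)).symm
  exact Cardinal.eq.1 h

/-- The extension property of the term structure. -/
theorem ext_col {M Y : Type} {lev : M → ℕ} {κ : T M Y → T M Y → M} {m k : ℕ}
    (s : Fin m → T M Y) (χ : Str M (Fin m ⊕ Fin k)) (p : Fin k → Y) (h1 : Good χ)
    (h2 : Emb Sum.inl (pullL χ) χ) (h3 : Emb s (pullL χ) (col lev κ)) :
    ∃ t : Fin k → T M Y, Emb (Sum.elim s t) χ (col lev κ) ∧ ∀ i, prj (t i) = p i :=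
  ⟨news χ p s, emb_block χ p s h2 h1 h3, fun _ => rfl⟩

theorem fin_col {M Y : Type} {lev : M → ℕ} {κ : T M Y → T M Y → M}
    (hκ : ∀ x w x' w', κ x w = κ x' w' → x = x' ∧ w = w')
    (hl : ∀ x w, max (lam lev x) (lam lev w) < lev (κ x w)) (S : Set (T M Y)) (hS : S.Finite) :
    ∃ S' : Set (T M Y), S ⊆ S' ∧ S'.Finite ∧
      ∀ x ∈ S', ∀ y ∈ S', ∀ w, x ≠ y → (col lev κ).F x y w → w ∈ S' := by
  refine ⟨⋃ v ∈ S, TC κ v, fun v hv => Set.mem_biUnion hv (tc_self v),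
    hS.biUnion (fun v _ => tc_finite hκ hl v), ?_⟩
  intro x hx y hy w hxy hF
  obtain ⟨a, ha, hxa⟩ := Set.mem_iUnion₂.1 hx
  obtain ⟨b, hb, hyb⟩ := Set.mem_iUnion₂.1 hy
  have hx' : TC κ x ⊆ ⋃ v ∈ S, TC κ v := (tc_trans hxa).trans
    (Set.subset_biUnion_of_mem (u := fun v => TC κ v) ha)
  have hy' : TC κ y ⊆ ⋃ v ∈ S, TC κ v := (tc_trans hyb).trans
    (Set.subset_biUnion_of_mem (u := fun v => TC κ v) hb)
  unfold col at hF
  by_cases hex : ∃ v, Exc (Eff lev κ) v x y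
  · obtain ⟨v, hv⟩ := hex
    rw [aux_F hv] at hF
    obtain ⟨l, hl, -⟩ := hF
    have hw : w ∈ rb v := ⟨l, hl⟩
    rcases hv.2.1 with rfl | rfl
    · exact hx' (tc_rb hw)
    · exact hy' (tc_rb hw)
  · push Not at hex
    rw [dfl_F hex] at hF
    rcases hF with h | h
    · exact hx' h
    · exact hy' h

theorem exists_mdl {M Y : Type} [Infinite M] (U : Set Y) (hU : #U ≤ #M) :
    ∃ (V : Type) (π : V → Y) (σ : Str M V), #V ≤ #M ∧ Mdl U π σ := by
  obtain ⟨e⟩ := exists_lev M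
  let lev : M → ℕ := fun a => (e a).2
  have hT : #(T M U × T M U) ≤ #M :=
    mk_prod_le' (aleph0_le_mk M) (mk_T_le hU) (mk_T_le hU)
  obtain ⟨g⟩ := hT
  let κ : T M U → T M U → M := fun x w =>
    e.symm (g (x, w), max (lam lev x) (lam lev w) + 1)
  have hκ : ∀ x w x' w', κ x w = κ x' w' → x = x' ∧ w = w' := by
    intro x w x' w' h
    have h1 := e.symm.injective h
    rw [Prod.mk.injEq] at h1
    have h2 := g.injective h1.1
    rwa [Prod.mk.injEq] at h2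
  have hl : ∀ x w, max (lam lev x) (lam lev w) < lev (κ x w) := by
    intro x w
    simp only [κ, lev, Equiv.apply_symm_apply]
    exact Nat.lt_succ_self _
  refine ⟨T M U, fun v : T M U => ((prj v : U) : Y), col lev κ, mk_T_le hU, fun v => (prj v : U).2,
    good_col hκ hl, fin_col hκ hl, ?_⟩
  intro m k s χ p hp h1 h2 h3
  obtain ⟨t, ht1, ht2⟩ := ext_col s χ (fun i => (⟨p i, hp i⟩ : U)) h1 h2 h3
  exact ⟨t, ht1, fun i => congrArg Subtype.val (ht2 i)⟩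

end Pool.Agent.TH767.B
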