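import Mathlib

/-!
Back-and-forth systems for relational languages presented by tuples.
-/

namespace Pool.Agent.TH767.B

open FirstOrder FirstOrder.Language FirstOrder.Language.Structure Function

/-- Back-and-forth equivalence. -/
def BFE (L : FirstOrder.Language.{0,0}) (M A : Type) [L.Structure M] [L.Structure A] : Prop :=
  ∃ S : Set (L.PartialEquiv M A), S.Nonempty ∧ (∀ f ∈ S, f.dom.FG) ∧
    (∀ f ∈ S, ∀ m : M, ∃ g ∈ S, f ≤ g ∧ m ∈ g.dom) ∧
    (∀ f ∈ S, ∀ a : A, ∃ g ∈ S, f ≤ g ∧ a ∈ g.cod)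

section PE

variable {L : FirstOrder.Language.{0,0}} {M N : Type} [L.Structure M] [L.Structure N]

/-- `f` maps `x` to `y`. -/
def Mp (f : L.PartialEquiv M N) (x : M) (y : N) : Prop :=
  ∃ h : x ∈ f.dom, ((f.toEquiv ⟨x, h⟩ : f.cod) : N) = y

theorem exists_mp {f : L.PartialEquiv M N} {x : M} (h : x ∈ f.dom) : ∃ y, Mp f x y :=
  ⟨_, h, rfl⟩

theorem exists_mp' {f : L.PartialEquiv M N} {y : N} (h : y ∈ f.cod) : ∃ x, Mp f x y := by
  refine ⟨((f.toEquiv.symm ⟨y, h⟩ : f.dom) : M), (f.toEquiv.symm ⟨y, h⟩).2, ?_⟩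
  have : (⟨((f.toEquiv.symm ⟨y, h⟩ : f.dom) : M), (f.toEquiv.symm ⟨y, h⟩).2⟩ : f.dom) =
      f.toEquiv.symm ⟨y, h⟩ := rfl
  rw [this, f.toEquiv.apply_symm_apply]

theorem Mp.dom {f : L.PartialEquiv M N} {x : M} {y : N} (h : Mp f x y) : x ∈ f.dom := h.1

theorem Mp.cod {f : L.PartialEquiv M N} {x : M} {y : N} (h : Mp f x y) : y ∈ f.cod := by
  obtain ⟨h1, rfl⟩ := h
  exact (f.toEquiv ⟨x, h1⟩).2

theorem Mp.mono {f g : L.PartialEquiv M N} (hfg : f ≤ g) {x : M} {y : N} (h : Mp f x y) :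
    Mp g x y := by
  obtain ⟨h1, rfl⟩ := h
  refine ⟨PartialEquiv.dom_le_dom hfg h1, ?_⟩
  have := PartialEquiv.toEquiv_inclusion_apply hfg ⟨x, h1⟩
  exact congrArg Subtype.val this

theorem Mp.fun {f : L.PartialEquiv M N} {x : M} {y y' : N} (h : Mp f x y) (h' : Mp f x y') :
    y = y' := by
  obtain ⟨h1, rfl⟩ := h
  obtain ⟨h2, rfl⟩ := h'
  rfl

theorem Mp.inj {f : L.PartialEquiv M N} {x x' : M} {y : N} (h : Mp f x y) (h' : Mp f x' y) :
    x = x' := by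
  obtain ⟨h1, rfl⟩ := h
  obtain ⟨h2, h3⟩ := h'
  have := f.toEquiv.injective (Subtype.ext h3)
  exact (congrArg Subtype.val this).symm

theorem Mp.symm {f : L.PartialEquiv M N} {x : M} {y : N} (h : Mp f x y) : Mp f.symm y x := by
  obtain ⟨h1, rfl⟩ := h
  refine ⟨(f.toEquiv ⟨x, h1⟩).2, ?_⟩
  change ((f.toEquiv.symm (f.toEquiv ⟨x, h1⟩) : f.dom) : M) = x
  rw [f.toEquiv.symm_apply_apply]

theorem Mp.rel {f : L.PartialEquiv M N} {n : ℕ} (R : L.Relations n) {a : Fin n → M}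
    {b : Fin n → N} (h : ∀ i, Mp f (a i) (b i)) : RelMap R a ↔ RelMap R b := by
  have h1 := f.toEquiv.map_rel R (fun i => ⟨a i, (h i).1⟩)
  have h2 : (fun i => ((f.toEquiv ⟨a i, (h i).1⟩ : f.cod) : N)) = b := by
    funext i; exact (h i).2
  have h3 : RelMap R (fun i => ((f.toEquiv ⟨a i, (h i).1⟩ : f.cod) : N)) ↔ RelMap R a := h1
  rw [h2] at h3
  exact h3.symm

theorem le_of_mp {f g : L.PartialEquiv M N} (h : ∀ x y, Mp f x y → Mp g x y) : f ≤ g := by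
  have hd : f.dom ≤ g.dom := by
    intro x hx
    obtain ⟨y, hy⟩ := exists_mp hx
    exact (h x y hy).1
  refine ⟨hd, ?_⟩
  ext ⟨x, hx⟩
  obtain ⟨h1, h2⟩ := h x _ ⟨hx, rfl⟩
  exact h2

/-- The forth property. -/
def Forth (S : Set (L.PartialEquiv M N)) : Prop :=
  ∀ f ∈ S, ∀ m : M, ∃ g ∈ S, f ≤ g ∧ m ∈ g.dom

/-- The back property. -/
def Back (S : Set (L.PartialEquiv M N)) : Prop :=
  ∀ f ∈ S, ∀ a : N, ∃ g ∈ S, f ≤ g ∧ a ∈ g.cod

/-- The inverse system. -/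
def inv (S : Set (L.PartialEquiv M N)) : Set (L.PartialEquiv N M) := {f | f.symm ∈ S}

theorem Back.forth_inv {S : Set (L.PartialEquiv M N)} (h : Back S) : Forth (inv S) := by
  intro f hf m
  obtain ⟨g, hg, hfg, hm⟩ := h f.symm hf m
  exact ⟨g.symm, hg, PartialEquiv.symm_le_symm hfg, hm⟩

theorem Forth.back_inv {S : Set (L.PartialEquiv M N)} (h : Forth S) : Back (inv S) := by
  intro f hf m
  obtain ⟨g, hg, hfg, hm⟩ := h f.symm hf m
  exact ⟨g.symm, hg, PartialEquiv.symm_le_symm hfg, hm⟩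

theorem Forth.finite {S : Set (L.PartialEquiv M N)} (h : Forth S) {f : L.PartialEquiv M N}
    (hf : f ∈ S) (F : Set M) (hF : F.Finite) : ∃ g ∈ S, f ≤ g ∧ ∀ x ∈ F, x ∈ g.dom := by
  refine Set.Finite.induction_on F hF ⟨f, hf, le_rfl, by simp⟩ ?_
  rintro a F - - ⟨g, hg, hfg, h'⟩
  obtain ⟨g', hg', hgg', ha⟩ := h g hg a
  refine ⟨g', hg', hfg.trans hgg', ?_⟩
  intro x hx
  rcases hx with rfl | hx
  · exact ha
  · exact PartialEquiv.dom_le_dom hgg' (h' x hx)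

theorem Back.finite {S : Set (L.PartialEquiv M N)} (h : Back S) {f : L.PartialEquiv M N}
    (hf : f ∈ S) (F : Set N) (hF : F.Finite) : ∃ g ∈ S, f ≤ g ∧ ∀ x ∈ F, x ∈ g.cod := by
  refine Set.Finite.induction_on F hF ⟨f, hf, le_rfl, by simp⟩ ?_
  rintro a F - - ⟨g, hg, hfg, h'⟩
  obtain ⟨g', hg', hgg', ha⟩ := h g hg a
  refine ⟨g', hg', hfg.trans hgg', ?_⟩
  intro x hx
  rcases hx with rfl | hx
  · exact ha
  · exact PartialEquiv.cod_le_cod hgg' (h' x hx)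

/-- `f` is the map `a i ↦ b i`. -/
def Rep (f : L.PartialEquiv M N) {ι : Type} (a : ι → M) (b : ι → N) : Prop :=
  ∀ x y, Mp f x y ↔ ∃ i, a i = x ∧ b i = y

theorem exists_rep [L.IsRelational] {ι : Type} (a : ι → M) (b : ι → N) (ha : Injective a)
    (hb : Injective b)
    (hR : ∀ n (R : L.Relations n) (x : Fin n → ι), RelMap R (a ∘ x) ↔ RelMap R (b ∘ x)) :
    ∃ f : L.PartialEquiv M N, Rep f a b := by
  let D : L.Substructure M := ⟨Set.range a, fun f => isEmptyElim f⟩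
  let E : L.Substructure N := ⟨Set.range b, fun f => isEmptyElim f⟩
  let e : D ≃ E := (Equiv.ofInjective a ha).symm.trans (Equiv.ofInjective b hb)
  have he : ∀ i (h : a i ∈ D), ((e ⟨a i, h⟩ : E) : N) = b i := by
    intro i h
    have : (Equiv.ofInjective a ha).symm ⟨a i, h⟩ = i := by
      rw [Equiv.symm_apply_eq]
      rfl
    change (((Equiv.ofInjective b hb) ((Equiv.ofInjective a ha).symm ⟨a i, h⟩) :
      Set.range b) : N) = b i
    rw [this]
    rfl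
  refine ⟨⟨D, E, ⟨e, fun f => isEmptyElim f, ?_⟩⟩, ?_⟩
  · intro n R x
    have hx : ∀ j, ∃ i, a i = (x j : M) := fun j => (x j).2
    choose y hy using hx
    have h1 : RelMap R x ↔ RelMap R (a ∘ y) := by
      have : a ∘ y = fun j => (x j : M) := by ext j; exact hy j
      rw [this]
      rfl
    have h2 : RelMap R (e ∘ x) ↔ RelMap R (b ∘ y) := by
      have : b ∘ y = fun j => (e (x j) : N) := by
        ext j
        have h3 : x j = ⟨a (y j), by rw [hy]; exact (x j).2⟩ := Subtype.ext (hy j).symm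
        rw [h3, he]
        rfl
      rw [this]
      rfl
    rw [h1, hR, ← h2]
    rfl
  · intro x y
    constructor
    · rintro ⟨⟨i, rfl⟩, h⟩
      exact ⟨i, rfl, (he i ⟨i, rfl⟩).symm.trans h⟩
    · rintro ⟨i, rfl, rfl⟩
      exact ⟨⟨i, rfl⟩, he i ⟨i, rfl⟩⟩

/-- Back-and-forth equivalence from tuples. -/
theorem bfe_of [L.IsRelational] {St : Type*} (ix : St → Type) [∀ s, Finite (ix s)]
    (a : (s : St) → ix s → M) (b : (s : St) → ix s → N) (s0 : St)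
    (ha : ∀ s, Injective (a s)) (hb : ∀ s, Injective (b s))
    (hR : ∀ s n (R : L.Relations n) (x : Fin n → ix s),
      RelMap R (a s ∘ x) ↔ RelMap R (b s ∘ x))
    (forth : ∀ s (m : M), ∃ s', (∀ i, ∃ j, a s i = a s' j ∧ b s i = b s' j) ∧
      ∃ i, a s' i = m)
    (back : ∀ s (m : N), ∃ s', (∀ i, ∃ j, a s i = a s' j ∧ b s i = b s' j) ∧
      ∃ i, b s' i = m) : BFE L M N := by
  have key : ∀ s, ∃ f : L.PartialEquiv M N, Rep f (a s) (b s) := fun s =>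
    exists_rep _ _ (ha s) (hb s) (hR s)
  have hle : ∀ s s' (f g : L.PartialEquiv M N), Rep f (a s) (b s) → Rep g (a s') (b s') →
      (∀ i, ∃ j, a s i = a s' j ∧ b s i = b s' j) → f ≤ g := by
    intro s s' f g hf hg h
    refine le_of_mp ?_
    intro x y hxy
    obtain ⟨i, rfl, rfl⟩ := (hf x y).1 hxy
    obtain ⟨j, hj1, hj2⟩ := h i
    exact (hg _ _).2 ⟨j, hj1.symm, hj2.symm⟩
  refine ⟨{f | ∃ s, Rep f (a s) (b s)}, ?_, ?_, ?_, ?_⟩
  · obtain ⟨f, hf⟩ := key s0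
    exact ⟨f, s0, hf⟩
  · rintro f ⟨s, hf⟩
    have : Finite f.dom := by
      have h1 : (f.dom : Set M) = Set.range (a s) := by
        ext x
        constructor
        · intro hx
          obtain ⟨y, hy⟩ := exists_mp hx
          obtain ⟨i, hi, -⟩ := (hf x y).1 hy
          exact ⟨i, hi⟩
        · rintro ⟨i, rfl⟩
          exact ((hf _ _).2 ⟨i, rfl, rfl⟩).dom
      have h2 : (Set.range (a s)).Finite := Set.finite_range _
      rw [← h1] at h2
      exact h2.to_subtype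
    exact Substructure.FG.of_finite
  · rintro f ⟨s, hf⟩ m
    obtain ⟨s', h1, i, hi⟩ := forth s m
    obtain ⟨g, hg⟩ := key s'
    exact ⟨g, ⟨s', hg⟩, hle s s' f g hf hg h1, ((hg _ _).2 ⟨i, hi, rfl⟩).dom⟩
  · rintro f ⟨s, hf⟩ m
    obtain ⟨s', h1, i, hi⟩ := back s m
    obtain ⟨g, hg⟩ := key s'
    exact ⟨g, ⟨s', hg⟩, hle s s' f g hf hg h1, ((hg _ _).2 ⟨i, rfl, hi⟩).cod⟩

end PE

end Pool.Agent.TH767.B
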