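import Mathlib
import Pool.Agent.TH767.B.Model
import Pool.Agent.TH767.B.PE

/-!
The language, the structures, and the states of the back-and-forth.
-/

namespace Pool.Agent.TH767.B

open FirstOrder FirstOrder.Language FirstOrder.Language.Structure Function

/-- The own relation symbols. -/
inductive Own : ℕ → Type
  | isM : Own 1
  | isY : Own 1
  | proj : Own 2
  | colr : Own 3
  | dd (n : ℕ) : Own 2
  | clo : Own 3

/-- The combined language. -/
def LL (L₀ L₁ : FirstOrder.Language.{0,0}) : FirstOrder.Language.{0,0} :=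
  ⟨fun _ => Empty, fun n => L₀.Relations n ⊕ (L₁.Relations n ⊕ Own n)⟩

instance (L₀ L₁ : FirstOrder.Language.{0,0}) : (LL L₀ L₁).IsRelational :=
  fun _ => inferInstanceAs (IsEmpty Empty)

/-- The carrier. -/
def Car {M V Y : Type} (_ : V → Y) (_ : Str M V) : Type := M ⊕ (V ⊕ Y)

/-- Interpretation of the own symbols. -/
def intO {M V Y : Type} (π : V → Y) (σ : Str M V) :
    {n : ℕ} → Own n → (Fin n → Car π σ) → Prop
  | _, Own.isM, a => ∃ m, a 0 = Sum.inl m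
  | _, Own.isY, a => ∃ y, a 0 = Sum.inr (Sum.inr y)
  | _, Own.proj, a => ∃ v, a 0 = Sum.inr (Sum.inl v) ∧ a 1 = Sum.inr (Sum.inr (π v))
  | _, Own.colr, a => ∃ v v', v ≠ v' ∧ a 0 = Sum.inr (Sum.inl v) ∧ a 1 = Sum.inr (Sum.inl v') ∧
      a 2 = Sum.inl (σ.c v v')
  | _, Own.dd n, a => ∃ v v', v ≠ v' ∧ a 0 = Sum.inr (Sum.inl v) ∧ a 1 = Sum.inr (Sum.inl v') ∧
      σ.d v v' = n
  | _, Own.clo, a => ∃ v v' u, v ≠ v' ∧ a 0 = Sum.inr (Sum.inl v) ∧ a 1 = Sum.inr (Sum.inl v') ∧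
      a 2 = Sum.inr (Sum.inl u) ∧ σ.F v v' u

/-- Interpretation of all symbols. -/
def intA {L₀ L₁ : FirstOrder.Language.{0,0}} {M V Y : Type} [L₀.Structure M] [L₁.Structure Y]
    (π : V → Y) (σ : Str M V) {n : ℕ} :
    L₀.Relations n ⊕ (L₁.Relations n ⊕ Own n) → (Fin n → Car π σ) → Prop
  | Sum.inl R, a => ∃ b : Fin n → M, (∀ i, a i = Sum.inl (b i)) ∧ RelMap R b
  | Sum.inr (Sum.inl R), a => ∃ b : Fin n → Y, (∀ i, a i = Sum.inr (Sum.inr (b i))) ∧ RelMap R b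
  | Sum.inr (Sum.inr R), a => intO π σ R a

instance {L₀ L₁ : FirstOrder.Language.{0,0}} {M V Y : Type} [L₀.Structure M] [L₁.Structure Y]
    (π : V → Y) (σ : Str M V) : (LL L₀ L₁).Structure (Car π σ) where
  funMap f := Empty.elim f
  RelMap R a := intA π σ R a

theorem Emb.comp {M X Z V : Type} {f : X → Z} {g : Z → V} {σ : Str M X} {τ : Str M Z}
    {ρ : Str M V} (hf : Emb f σ τ) (hg : Emb g τ ρ) : Emb (g ∘ f) σ ρ where
  inj := hg.inj.comp hf.inj
  c x y hxy := (hf.c x y hxy).trans (hg.c _ _ (fun h => hxy (hf.inj h)))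
  d x y hxy := (hf.d x y hxy).trans (hg.d _ _ (fun h => hxy (hf.inj h)))
  F x y z hxy := (hf.F x y z hxy).trans (hg.F _ _ _ (fun h => hxy (hf.inj h)))
  cl x y w hxy h := by
    have hne : f x ≠ f y := fun h => hxy (hf.inj h)
    obtain ⟨z, rfl⟩ := hg.cl _ _ w hne h
    obtain ⟨z', rfl⟩ := hf.cl x y z hxy ((hg.F _ _ _ hne).2 h)
    exact ⟨z', rfl⟩

/-- Pulling back a structure. -/
def Str.pull {M X V : Type} (f : X → V) (σ : Str M V) : Str M X where
  c x y := σ.c (f x) (f y)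
  d x y := σ.d (f x) (f y)
  F x y z := σ.F (f x) (f y) (f z)

theorem emb_pull {M X V : Type} {f : X → V} {σ : Str M V} (hf : Injective f)
    (hcl : ∀ x y w, x ≠ y → σ.F (f x) (f y) w → ∃ z, f z = w) : Emb f (σ.pull f) σ where
  inj := hf
  c _ _ _ := rfl
  d _ _ _ := rfl
  F _ _ _ _ := Iff.rfl
  cl := hcl

/-- The extension property for arbitrary finite index types. -/
theorem Mdl.ext' {M V Y : Type} {U : Set Y} {π : V → Y} {σ : Str M V} (h : Mdl U π σ)
    {B N : Type} [Finite B] [Finite N] (s : B → V) (χ : Str M (B ⊕ N)) (p : N → Y)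
    (hp : ∀ i, p i ∈ U) (hg : Good χ) (h1 : Emb Sum.inl (pullL χ) χ)
    (h2 : Emb s (pullL χ) σ) : ∃ t : N → V, Emb (Sum.elim s t) χ σ ∧ ∀ i, π (t i) = p i := by
  obtain ⟨m, ⟨eB⟩⟩ := Finite.exists_equiv_fin B
  obtain ⟨k, ⟨eN⟩⟩ := Finite.exists_equiv_fin N
  let e : Fin m ⊕ Fin k ≃ B ⊕ N := Equiv.sumCongr eB.symm eN.symm
  have he : Emb e (χ.pull e) χ := emb_pull e.injective (fun _ _ w _ _ => ⟨e.symm w, by simp⟩)
  have heB : Emb eB.symm (pullL (χ.pull e)) (pullL χ) :=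
    ⟨eB.symm.injective, fun _ _ _ => rfl, fun _ _ _ => rfl, fun _ _ _ _ => Iff.rfl,
      fun _ _ w _ _ => ⟨eB w, by simp⟩⟩
  obtain ⟨t, ht1, ht2⟩ := h.ext (s ∘ eB.symm) (χ.pull e) (p ∘ eN.symm) (fun i => hp _)
    (hg.of_emb he) (by
      refine ⟨Sum.inl_injective, fun _ _ _ => rfl, fun _ _ _ => rfl, fun _ _ _ _ => Iff.rfl, ?_⟩
      intro x y w hxy hF
      obtain ⟨z, hz⟩ := h1.cl (eB.symm x) (eB.symm y) (e w)
        (fun h => hxy (eB.symm.injective h)) hF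
      refine ⟨eB z, ?_⟩
      apply e.injective
      rw [← hz]
      simp [e]) (heB.comp h2)
  refine ⟨t ∘ eN, ?_, ?_⟩
  · have e1 : Emb e.symm χ (χ.pull e) := by
      refine ⟨e.symm.injective, ?_, ?_, ?_, fun _ _ w _ _ => ⟨e w, by simp⟩⟩
      · intro x y _; simp [Str.pull]
      · intro x y _; simp [Str.pull]
      · intro x y z _; simp [Str.pull]
    have e2 := e1.comp ht1
    have e3 : (Sum.elim (s ∘ eB.symm) t) ∘ e.symm = Sum.elim s (t ∘ eN) := by
      ext x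
      rcases x with x | x <;> simp [e]
    rw [e3] at e2
    exact e2
  · intro i
    have := ht2 (eN i)
    simpa using this

section States

variable {L₀ L₁ : FirstOrder.Language.{0,0}} {M M' V V' Y Y' : Type}
  [L₀.Structure M] [L₀.Structure M'] [L₁.Structure Y] [L₁.Structure Y']

/-- States of the back-and-forth. -/
structure State (S₀ : Set (L₀.PartialEquiv M M')) (S₁ : Set (L₁.PartialEquiv Y Y'))
    (π : V → Y) (σ : Str M V) (π' : V' → Y') (σ' : Str M' V') where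
  f₀ : L₀.PartialEquiv M M'
  h₀ : f₀ ∈ S₀
  f₁ : L₁.PartialEquiv Y Y'
  h₁ : f₁ ∈ S₁
  A : Type
  B : Type
  C : Type
  fA : Finite A
  fB : Finite B
  fC : Finite C
  τ : Str A B
  α : A → M
  α' : A → M'
  s : B → V
  s' : B → V'
  r : C → Y
  r' : C → Y'
  pr : B → C
  ia : Injective α
  ir : Injective r
  ma : ∀ i, Mp f₀ (α i) (α' i)
  mr : ∀ i, Mp f₁ (r i) (r' i)
  e : Emb s (τ.map α) σ
  e' : Emb s' (τ.map α') σ'
  hp : ∀ i, π (s i) = r (pr i)
  hp' : ∀ i, π' (s' i) = r' (pr i)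

variable {S₀ : Set (L₀.PartialEquiv M M')} {S₁ : Set (L₁.PartialEquiv Y Y')}
    {π : V → Y} {σ : Str M V} {π' : V' → Y'} {σ' : Str M' V'}

theorem State.ia' (S : State S₀ S₁ π σ π' σ') : Injective S.α' := by
  intro i j hij
  apply S.ia
  have h1 := S.ma i
  have h2 := S.ma j
  rw [← hij] at h2
  exact h1.inj h2

theorem State.ir' (S : State S₀ S₁ π σ π' σ') : Injective S.r' := by
  intro i j hij
  apply S.ir
  have h1 := S.mr i
  have h2 := S.mr j
  rw [← hij] at h2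
  exact h1.inj h2

/-- The symmetric state. -/
def State.symm (S : State S₀ S₁ π σ π' σ') : State (inv S₀) (inv S₁) π' σ' π σ where
  f₀ := S.f₀.symm
  h₀ := S.h₀
  f₁ := S.f₁.symm
  h₁ := S.h₁
  A := S.A
  B := S.B
  C := S.C
  fA := S.fA
  fB := S.fB
  fC := S.fC
  τ := S.τ
  α := S.α'
  α' := S.α
  s := S.s'
  s' := S.s
  r := S.r'
  r' := S.r
  pr := S.pr
  ia := S.ia'
  ir := S.ir'
  ma i := (S.ma i).symm
  mr i := (S.mr i).symm
  e := S.e'
  e' := S.e
  hp := S.hp'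
  hp' := S.hp

/-- The index type of a state. -/
abbrev State.ix (S : State S₀ S₁ π σ π' σ') : Type := S.A ⊕ (S.B ⊕ S.C)

instance (S : State S₀ S₁ π σ π' σ') : Finite S.ix := by
  have := S.fA
  have := S.fB
  have := S.fC
  infer_instance

/-- The left tuple of a state. -/
def State.a (S : State S₀ S₁ π σ π' σ') : S.ix → Car π σ := Sum.map S.α (Sum.map S.s S.r)

/-- The right tuple of a state. -/
def State.b (S : State S₀ S₁ π σ π' σ') : S.ix → Car π' σ' := Sum.map S.α' (Sum.map S.s' S.r')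

theorem State.a_inj (S : State S₀ S₁ π σ π' σ') : Injective S.a :=
  Sum.map_injective.2 ⟨S.ia, Sum.map_injective.2 ⟨S.e.inj, S.ir⟩⟩

theorem State.b_inj (S : State S₀ S₁ π σ π' σ') : Injective S.b :=
  Sum.map_injective.2 ⟨S.ia', Sum.map_injective.2 ⟨S.e'.inj, S.ir'⟩⟩

/-- Extension of states. -/
def Ex (S S' : State S₀ S₁ π σ π' σ') : Prop := ∀ i, ∃ j, S.a i = S'.a j ∧ S.b i = S'.b j

theorem Ex.refl (S : State S₀ S₁ π σ π' σ') : Ex S S := fun i => ⟨i, rfl, rfl⟩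

theorem Ex.trans {S S' S'' : State S₀ S₁ π σ π' σ'} (h : Ex S S') (h' : Ex S' S'') :
    Ex S S'' := by
  intro i
  obtain ⟨j, h1, h2⟩ := h i
  obtain ⟨k, h3, h4⟩ := h' j
  exact ⟨k, h1.trans h3, h2.trans h4⟩

end States

end Pool.Agent.TH767.B
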