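import Mathlib
import Pool.Agent.TH767.B.Lang

/-!
Any two models over back-and-forth equivalent structures are back-and-forth equivalent.
-/

namespace Pool.Agent.TH767.B

open FirstOrder FirstOrder.Language FirstOrder.Language.Structure Function

section States

variable {L₀ L₁ : FirstOrder.Language.{0,0}} {M M' V V' Y Y' : Type}
  [L₀.Structure M] [L₀.Structure M'] [L₁.Structure Y] [L₁.Structure Y']
  {S₀ : Set (L₀.PartialEquiv M M')} {S₁ : Set (L₁.PartialEquiv Y Y')}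
  {π : V → Y} {σ : Str M V} {π' : V' → Y'} {σ' : Str M' V'}

theorem State.extM (hF : Forth S₀) (S : State S₀ S₁ π σ π' σ') (K : Set M) (hK : K.Finite) :
    ∃ S' : State S₀ S₁ π σ π' σ', Ex S S' ∧ K ⊆ Set.range S'.α ∧
      ∀ i, S'.s i ∈ Set.range S.s := by
  have := S.fA
  have := S.fB
  have := S.fC
  obtain ⟨g, hg, hfg, hgK⟩ := hF.finite S.h₀ K hK
  let N : Type := ↥(K \ Set.range S.α)
  have hN : Finite N := (hK.subset Set.sdiff_subset).to_subtype
  have h1 : ∀ n : N, ∃ y, Mp g (n : M) y := fun n => exists_mp (hgK _ n.2.1)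
  choose α₁ hα₁ using h1
  refine ⟨{ f₀ := g
            h₀ := hg
            f₁ := S.f₁
            h₁ := S.h₁
            A := S.A ⊕ N
            B := S.B
            C := S.C
            fA := inferInstance
            fB := S.fB
            fC := S.fC
            τ := S.τ.map Sum.inl
            α := Sum.elim S.α Subtype.val
            α' := Sum.elim S.α' α₁
            s := S.s
            s' := S.s'
            r := S.r
            r' := S.r'
            pr := S.pr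
            ia := Function.Injective.sumElim S.ia Subtype.val_injective
              (fun i n h => n.2.2 ⟨i, h⟩)
            ir := S.ir
            ma := by
              rintro (i | i)
              · exact (S.ma i).mono hfg
              · exact hα₁ i
            mr := S.mr
            e := S.e
            e' := S.e'
            hp := S.hp
            hp' := S.hp' }, ?_, ?_, ?_⟩
  · rintro (i | i)
    · exact ⟨Sum.inl (Sum.inl i), rfl, rfl⟩
    · exact ⟨Sum.inr i, by rcases i with i | i <;> rfl, by rcases i with i | i <;> rfl⟩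
  · intro m hm
    by_cases h : m ∈ Set.range S.α
    · obtain ⟨i, rfl⟩ := h
      exact ⟨Sum.inl i, rfl⟩
    · exact ⟨Sum.inr ⟨m, hm, h⟩, rfl⟩
  · intro i
    exact ⟨i, rfl⟩

theorem State.extY (hF : Forth S₁) (S : State S₀ S₁ π σ π' σ') (K : Set Y) (hK : K.Finite) :
    ∃ S' : State S₀ S₁ π σ π' σ', Ex S S' ∧ K ⊆ Set.range S'.r ∧
      (∀ i, S'.s i ∈ Set.range S.s) ∧ Set.range S.α ⊆ Set.range S'.α := by
  have := S.fA
  have := S.fB
  have := S.fC
  obtain ⟨g, hg, hfg, hgK⟩ := hF.finite S.h₁ K hK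
  let N : Type := ↥(K \ Set.range S.r)
  have hN : Finite N := (hK.subset Set.sdiff_subset).to_subtype
  have h1 : ∀ n : N, ∃ y, Mp g (n : Y) y := fun n => exists_mp (hgK _ n.2.1)
  choose r₁ hr₁ using h1
  refine ⟨{ f₀ := S.f₀
            h₀ := S.h₀
            f₁ := g
            h₁ := hg
            A := S.A
            B := S.B
            C := S.C ⊕ N
            fA := S.fA
            fB := S.fB
            fC := inferInstance
            τ := S.τ
            α := S.α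
            α' := S.α'
            s := S.s
            s' := S.s'
            r := Sum.elim S.r Subtype.val
            r' := Sum.elim S.r' r₁
            pr := fun i => Sum.inl (S.pr i)
            ia := S.ia
            ir := Function.Injective.sumElim S.ir Subtype.val_injective
              (fun i n h => n.2.2 ⟨i, h⟩)
            ma := S.ma
            mr := by
              rintro (i | i)
              · exact (S.mr i).mono hfg
              · exact hr₁ i
            e := S.e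
            e' := S.e'
            hp := S.hp
            hp' := S.hp' }, ?_, ?_, ?_, subset_rfl⟩
  · rintro (i | i | i)
    · exact ⟨Sum.inl i, rfl, rfl⟩
    · exact ⟨Sum.inr (Sum.inl i), rfl, rfl⟩
    · exact ⟨Sum.inr (Sum.inr (Sum.inl i)), rfl, rfl⟩
  · intro m hm
    by_cases h : m ∈ Set.range S.r
    · obtain ⟨i, rfl⟩ := h
      exact ⟨Sum.inl i, rfl⟩
    · exact ⟨Sum.inr ⟨m, hm, h⟩, rfl⟩
  · intro i
    exact ⟨i, rfl⟩

theorem State.extV {U : Set Y} {U' : Set Y'} (hF₀ : Forth S₀) (hF₁ : Forth S₁)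
    (hU : ∀ f ∈ S₁, ∀ y y', Mp f y y' → (y ∈ U ↔ y' ∈ U'))
    (hM : Mdl U π σ) (hM' : Mdl U' π' σ') (S : State S₀ S₁ π σ π' σ') (v : V) :
    ∃ S' : State S₀ S₁ π σ π' σ', Ex S S' ∧ ∃ i, S'.s i = v := by
  classical
  have fB0 := S.fB
  obtain ⟨D, hD1, hDfin, hDcl⟩ := hM.fin (insert v (Set.range S.s))
    ((Set.finite_range _).insert v)
  -- extend the sorts of colours and labels
  obtain ⟨Sa, hSa, hSa1, hSa2⟩ := S.extM hF₀ ((fun p : V × V => σ.c p.1 p.2) '' (D ×ˢ D))
    ((hDfin.prod hDfin).image _)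
  obtain ⟨Sb, hSb, hSb1, hSb2, hSb3⟩ := Sa.extY hF₁ (π '' D) (hDfin.image _)
  have hcol : ∀ x ∈ D, ∀ y ∈ D, ∃ a, Sb.α a = σ.c x y := by
    intro x hx y hy
    exact hSb3 (hSa1 ⟨(x, y), ⟨hx, hy⟩, rfl⟩)
  have hlab : ∀ x ∈ D, ∃ a, Sb.r a = π x := fun x hx => hSb1 ⟨x, hx, rfl⟩
  have hsD : ∀ i, Sb.s i ∈ D := by
    intro i
    obtain ⟨j, hj⟩ := hSb2 i
    obtain ⟨k, hk⟩ := hSa2 j
    rw [← hj, ← hk]
    exact hD1 (Or.inr ⟨k, rfl⟩)
  have := Sb.fA
  have := Sb.fB
  have := Sb.fC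
  let N : Type := ↥(D \ Set.range Sb.s)
  have hN : Finite N := (hDfin.subset Set.sdiff_subset).to_subtype
  let s₁ : Sb.B ⊕ N → V := Sum.elim Sb.s Subtype.val
  have hs₁ : Injective s₁ := Function.Injective.sumElim Sb.e.inj Subtype.val_injective
    (fun i n h => n.2.2 ⟨i, h⟩)
  have hs₁D : ∀ i, s₁ i ∈ D := by
    rintro (i | i)
    · exact hsD i
    · exact i.2.1
  have hs₁r : ∀ x ∈ D, ∃ i, s₁ i = x := by
    intro x hx
    by_cases h : x ∈ Set.range Sb.s
    · obtain ⟨i, rfl⟩ := h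
      exact ⟨Sum.inl i, rfl⟩
    · exact ⟨Sum.inr ⟨x, hx, h⟩, rfl⟩
  have h1 : ∀ i j, ∃ a, Sb.α a = σ.c (s₁ i) (s₁ j) := fun i j =>
    hcol _ (hs₁D i) _ (hs₁D j)
  choose cc hcc using h1
  let τ₁ : Str Sb.A (Sb.B ⊕ N) :=
    { c := cc
      d := fun i j => σ.d (s₁ i) (s₁ j)
      F := fun i j l => σ.F (s₁ i) (s₁ j) (s₁ l) }
  have e₁ : Emb s₁ (τ₁.map Sb.α) σ := by
    refine ⟨hs₁, fun x y _ => hcc x y, fun x y _ => rfl, fun x y z _ => Iff.rfl, ?_⟩
    intro x y w hxy hw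
    exact hs₁r w (hDcl _ (hs₁D x) _ (hs₁D y) w (fun h => hxy (hs₁ h)) hw)
  have hgood : Good (τ₁.map Sb.α') := (hM.good.of_emb e₁).of_map.map Sb.ia'
  have hcB : ∀ x y : Sb.B, x ≠ y → cc (Sum.inl x) (Sum.inl y) = Sb.τ.c x y := by
    intro x y hxy
    apply Sb.ia
    rw [hcc]
    exact (Sb.e.c x y hxy).symm
  have e2 : Emb Sum.inl (pullL (τ₁.map Sb.α')) (τ₁.map Sb.α') := by
    refine ⟨Sum.inl_injective, fun _ _ _ => rfl, fun _ _ _ => rfl, fun _ _ _ _ => Iff.rfl, ?_⟩
    intro x y w hxy hw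
    obtain ⟨z, hz⟩ := Sb.e.cl x y _ hxy hw
    exact ⟨z, hs₁ hz⟩
  have e3 : Emb Sb.s' (pullL (τ₁.map Sb.α')) σ' := by
    refine ⟨Sb.e'.inj, ?_, ?_, ?_, ?_⟩
    · intro x y hxy
      change Sb.α' (cc (Sum.inl x) (Sum.inl y)) = _
      rw [hcB x y hxy]
      exact Sb.e'.c x y hxy
    · intro x y hxy
      change σ.d (Sb.s x) (Sb.s y) = _
      rw [← Sb.e.d x y hxy]
      exact Sb.e'.d x y hxy
    · intro x y z hxy
      change σ.F (Sb.s x) (Sb.s y) (Sb.s z) ↔ _
      rw [← Sb.e.F x y z hxy]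
      exact Sb.e'.F x y z hxy
    · exact Sb.e'.cl
  have h2 : ∀ n : N, ∃ a, Sb.r a = π n := fun n => hlab _ n.2.1
  choose pr₁ hpr₁ using h2
  obtain ⟨t, ht, htp⟩ := hM'.ext' Sb.s' (τ₁.map Sb.α') (fun n => Sb.r' (pr₁ n)) (by
    intro n
    have h3 := hU _ Sb.h₁ _ _ (Sb.mr (pr₁ n))
    rw [← h3, hpr₁]
    exact hM.tag _) hgood e2 e3
  have hfin := hSb
  refine ⟨{ f₀ := Sb.f₀
            h₀ := Sb.h₀
            f₁ := Sb.f₁
            h₁ := Sb.h₁
            A := Sb.A
            B := Sb.B ⊕ N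
            C := Sb.C
            fA := Sb.fA
            fB := inferInstance
            fC := Sb.fC
            τ := τ₁
            α := Sb.α
            α' := Sb.α'
            s := s₁
            s' := Sum.elim Sb.s' t
            r := Sb.r
            r' := Sb.r'
            pr := Sum.elim Sb.pr pr₁
            ia := Sb.ia
            ir := Sb.ir
            ma := Sb.ma
            mr := Sb.mr
            e := e₁
            e' := ht
            hp := by
              rintro (i | i)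
              · exact Sb.hp i
              · exact (hpr₁ i).symm
            hp' := by
              rintro (i | i)
              · exact Sb.hp' i
              · exact htp i }, hSa.trans (hSb.trans ?_), ?_⟩
  · rintro (i | i | i)
    · exact ⟨Sum.inl i, rfl, rfl⟩
    · exact ⟨Sum.inr (Sum.inl (Sum.inl i)), rfl, rfl⟩
    · exact ⟨Sum.inr (Sum.inr i), rfl, rfl⟩
  · exact hs₁r v (hD1 (Or.inl rfl))

theorem State.forth {U : Set Y} {U' : Set Y'} (hF₀ : Forth S₀) (hF₁ : Forth S₁)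
    (hU : ∀ f ∈ S₁, ∀ y y', Mp f y y' → (y ∈ U ↔ y' ∈ U'))
    (hM : Mdl U π σ) (hM' : Mdl U' π' σ') (S : State S₀ S₁ π σ π' σ') (x : Car π σ) :
    ∃ S' : State S₀ S₁ π σ π' σ', Ex S S' ∧ ∃ i, S'.a i = x := by
  rcases x with m | v | y
  · obtain ⟨S', h1, h2, -⟩ := S.extM hF₀ {m} (Set.finite_singleton m)
    obtain ⟨i, hi⟩ := h2 (Set.mem_singleton m)
    exact ⟨S', h1, Sum.inl i, congrArg Sum.inl hi⟩
  · obtain ⟨S', h1, i, hi⟩ := S.extV hF₀ hF₁ hU hM hM' v
    exact ⟨S', h1, Sum.inr (Sum.inl i), congrArg (fun v => Sum.inr (Sum.inl v)) hi⟩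
  · obtain ⟨S', h1, h2, -, -⟩ := S.extY hF₁ {y} (Set.finite_singleton y)
    obtain ⟨i, hi⟩ := h2 (Set.mem_singleton y)
    exact ⟨S', h1, Sum.inr (Sum.inr i), congrArg (fun v => Sum.inr (Sum.inr v)) hi⟩

theorem State.rel_imp (S : State S₀ S₁ π σ π' σ') {n : ℕ} (R : (LL L₀ L₁).Relations n)
    (x : Fin n → S.ix) (h : RelMap R (S.a ∘ x)) : RelMap R (S.b ∘ x) := by
  have i0 : ∀ i m, S.a i = Sum.inl m → ∃ j, i = Sum.inl j ∧ S.α j = m := by
    rintro (j | j | j) m h
    · exact ⟨j, rfl, Sum.inl.inj h⟩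
    · cases h
    · cases h
  have i1 : ∀ i v, S.a i = Sum.inr (Sum.inl v) → ∃ j, i = Sum.inr (Sum.inl j) ∧ S.s j = v := by
    rintro (j | j | j) m h
    · cases h
    · exact ⟨j, rfl, Sum.inl.inj (Sum.inr.inj h)⟩
    · have := Sum.inr.inj h
      cases this
  have i2 : ∀ i y, S.a i = Sum.inr (Sum.inr y) → ∃ j, i = Sum.inr (Sum.inr j) ∧ S.r j = y := by
    rintro (j | j | j) m h
    · cases h
    · have := Sum.inr.inj h
      cases this
    · exact ⟨j, rfl, Sum.inr.inj (Sum.inr.inj h)⟩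
  have b0 : ∀ j i, i = Sum.inl j → S.b i = Sum.inl (S.α' j) := by rintro j i rfl; rfl
  have b1 : ∀ j i, i = Sum.inr (Sum.inl j) → S.b i = Sum.inr (Sum.inl (S.s' j)) := by
    rintro j i rfl; rfl
  have b2 : ∀ j i, i = Sum.inr (Sum.inr j) → S.b i = Sum.inr (Sum.inr (S.r' j)) := by
    rintro j i rfl; rfl
  have hh : intA π σ R (S.a ∘ x) := h
  change intA π' σ' R (S.b ∘ x)
  rcases R with R | R | R
  · obtain ⟨b, hb, hR⟩ := hh
    have h1 : ∀ i, ∃ j, x i = Sum.inl j ∧ S.α j = b i := fun i => i0 _ _ (hb i)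
    choose y hy hy' using h1
    refine ⟨S.α' ∘ y, fun i => b0 _ _ (hy i), ?_⟩
    have h2 := Mp.rel (f := S.f₀) R (a := S.α ∘ y) (b := S.α' ∘ y) (fun i => S.ma _)
    rw [← h2]
    have h3 : S.α ∘ y = b := by funext i; exact hy' i
    rw [h3]
    exact hR
  · obtain ⟨b, hb, hR⟩ := hh
    have h1 : ∀ i, ∃ j, x i = Sum.inr (Sum.inr j) ∧ S.r j = b i := fun i => i2 _ _ (hb i)
    choose y hy hy' using h1
    refine ⟨S.r' ∘ y, fun i => b2 _ _ (hy i), ?_⟩
    have h2 := Mp.rel (f := S.f₁) R (a := S.r ∘ y) (b := S.r' ∘ y) (fun i => S.mr _)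
    rw [← h2]
    have h3 : S.r ∘ y = b := by funext i; exact hy' i
    rw [h3]
    exact hR
  · cases R with
    | isM =>
      obtain ⟨m, hm⟩ := hh
      obtain ⟨j, hj, -⟩ := i0 _ _ hm
      exact ⟨_, b0 _ _ hj⟩
    | isY =>
      obtain ⟨m, hm⟩ := hh
      obtain ⟨j, hj, -⟩ := i2 _ _ hm
      exact ⟨_, b2 _ _ hj⟩
    | proj =>
      obtain ⟨v, hv, hy⟩ := hh
      obtain ⟨j, hj, hj'⟩ := i1 _ _ hv
      obtain ⟨k, hk, hk'⟩ := i2 _ _ hy
      refine ⟨S.s' j, b1 _ _ hj, ?_⟩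
      refine (b2 _ _ hk).trans ?_
      rw [S.hp']
      congr 3
      apply S.ir
      rw [hk', ← hj', S.hp]
    | colr =>
      obtain ⟨v, v', hne, hv, hv', hm⟩ := hh
      obtain ⟨j, hj, rfl⟩ := i1 _ _ hv
      obtain ⟨k, hk, rfl⟩ := i1 _ _ hv'
      obtain ⟨l, hl, hl'⟩ := i0 _ _ hm
      have hjk : j ≠ k := fun h => hne (congrArg _ h)
      refine ⟨S.s' j, S.s' k, fun h => hjk (S.e'.inj h), b1 _ _ hj, b1 _ _ hk, ?_⟩
      refine (b0 _ _ hl).trans ?_
      rw [← S.e'.c j k hjk]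
      congr 1
      change S.α' l = S.α' (S.τ.c j k)
      congr 1
      apply S.ia
      rw [hl', ← S.e.c j k hjk]
      rfl
    | dd n =>
      obtain ⟨v, v', hne, hv, hv', hd⟩ := hh
      obtain ⟨j, hj, rfl⟩ := i1 _ _ hv
      obtain ⟨k, hk, rfl⟩ := i1 _ _ hv'
      have hjk : j ≠ k := fun h => hne (congrArg _ h)
      refine ⟨S.s' j, S.s' k, fun h => hjk (S.e'.inj h), b1 _ _ hj, b1 _ _ hk, ?_⟩
      rw [← S.e'.d j k hjk, ← hd, ← S.e.d j k hjk]
      rfl
    | clo =>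
      obtain ⟨v, v', u, hne, hv, hv', hu, hF⟩ := hh
      obtain ⟨j, hj, rfl⟩ := i1 _ _ hv
      obtain ⟨k, hk, rfl⟩ := i1 _ _ hv'
      obtain ⟨l, hl, rfl⟩ := i1 _ _ hu
      have hjk : j ≠ k := fun h => hne (congrArg _ h)
      refine ⟨S.s' j, S.s' k, S.s' l, fun h => hjk (S.e'.inj h), b1 _ _ hj, b1 _ _ hk,
        b1 _ _ hl, ?_⟩
      rw [← S.e'.F j k l hjk]
      rw [← S.e.F j k l hjk] at hF
      exact hF

end States

/-- Any two models over back-and-forth equivalent structures are back-and-forth equivalent. -/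
theorem bfe_car {L₀ L₁ : FirstOrder.Language.{0,0}} {M M' V V' Y Y' : Type}
    [L₀.Structure M] [L₀.Structure M'] [L₁.Structure Y] [L₁.Structure Y']
    {π : V → Y} {σ : Str M V} {π' : V' → Y'} {σ' : Str M' V'} (u : L₁.Relations 1)
    (h₀ : BFE L₀ M M') (h₁ : BFE L₁ Y Y') (hM : Mdl {y | RelMap u ![y]} π σ)
    (hM' : Mdl {y | RelMap u ![y]} π' σ') : BFE (LL L₀ L₁) (Car π σ) (Car π' σ') := by
  obtain ⟨S₀, ⟨f₀, hf₀⟩, -, hF₀, hB₀⟩ := h₀
  obtain ⟨S₁, ⟨f₁, hf₁⟩, -, hF₁, hB₁⟩ := h₁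
  have hF₀' : Forth S₀ := hF₀
  have hB₀' : Back S₀ := hB₀
  have hF₁' : Forth S₁ := hF₁
  have hB₁' : Back S₁ := hB₁
  have hu : ∀ f ∈ S₁, ∀ y y', Mp f y y' →
      (y ∈ {y | RelMap u ![y]} ↔ y' ∈ {y | RelMap u ![y]}) := by
    intro f _ y y' h
    exact Mp.rel u (a := ![y]) (b := ![y']) (by
      intro i; fin_cases i; exact h)
  have hu' : ∀ f ∈ inv S₁, ∀ y y', Mp f y y' →
      (y ∈ {y | RelMap u ![y]} ↔ y' ∈ {y | RelMap u ![y]}) := by
    intro f _ y y' h
    exact Mp.rel u (a := ![y]) (b := ![y']) (by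
      intro i; fin_cases i; exact h)
  refine bfe_of (St := State S₀ S₁ π σ π' σ') State.ix State.a State.b
    { f₀ := f₀
      h₀ := hf₀
      f₁ := f₁
      h₁ := hf₁
      A := Empty
      B := Empty
      C := Empty
      fA := inferInstance
      fB := inferInstance
      fC := inferInstance
      τ := ⟨fun x => x.elim, fun x => x.elim, fun x => x.elim⟩
      α := fun x => x.elim
      α' := fun x => x.elim
      s := fun x => x.elim
      s' := fun x => x.elim
      r := fun x => x.elim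
      r' := fun x => x.elim
      pr := fun x => x.elim
      ia := fun x => x.elim
      ir := fun x => x.elim
      ma := fun x => x.elim
      mr := fun x => x.elim
      e := ⟨fun x => x.elim, fun x => x.elim, fun x => x.elim, fun x => x.elim, fun x => x.elim⟩
      e' := ⟨fun x => x.elim, fun x => x.elim, fun x => x.elim, fun x => x.elim, fun x => x.elim⟩
      hp := fun x => x.elim
      hp' := fun x => x.elim }
    (fun S => S.a_inj) (fun S => S.b_inj) ?_ ?_ ?_
  · intro S n R x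
    exact ⟨fun h => S.rel_imp R x h, fun h => S.symm.rel_imp R x h⟩
  · intro S x
    exact S.forth hF₀' hF₁' hu hM hM' x
  · intro S x
    obtain ⟨S', h1, h2⟩ := S.symm.forth hB₀'.forth_inv hB₁'.forth_inv hu' hM' hM x
    refine ⟨S'.symm, ?_, h2⟩
    intro i
    obtain ⟨j, h3, h4⟩ := h1 i
    exact ⟨j, h4, h3⟩

end Pool.Agent.TH767.B
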