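import Mathlib
import Pool.Agent.TH767.B.BF

/-!
Structures back-and-forth equivalent to a model: their sorts and the bound.
-/

namespace Pool.Agent.TH767.B

open FirstOrder FirstOrder.Language FirstOrder.Language.Structure Function

/-- A sort of a structure is back-and-forth equivalent to the corresponding sort. -/
theorem bfe_sort {L L₀ : FirstOrder.Language.{0,0}} [L.IsRelational] [L₀.IsRelational]
    {X Z A : Type} [L₀.Structure X] [L.Structure Z] [L.Structure A]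
    (ρ : ∀ {n}, L₀.Relations n → L.Relations n) (i : X → Z) (hi : Injective i)
    (hρ : ∀ {n} (R : L₀.Relations n) (x : Fin n → X), RelMap (ρ R) (i ∘ x) ↔ RelMap R x)
    (P : L.Relations 1) (hP : ∀ z : Z, RelMap P ![z] ↔ ∃ x, i x = z)
    [L₀.Structure {a : A // RelMap P ![a]}]
    (hA : ∀ {n} (R : L₀.Relations n) (x : Fin n → {a : A // RelMap P ![a]}),
      RelMap R x ↔ RelMap (ρ R) (fun j => (x j : A)))
    (h : BFE L Z A) : BFE L₀ X {a : A // RelMap P ![a]} := by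
  obtain ⟨S, ⟨f₀, hf₀⟩, hfg, hF, hB⟩ := h
  have hPP : ∀ (f : L.PartialEquiv Z A) z a, Mp f z a → (RelMap P ![z] ↔ RelMap P ![a]) := by
    intro f z a h
    exact Mp.rel P (a := ![z]) (b := ![a]) (by intro j; fin_cases j; exact h)
  let ix : S → Type := fun g => {x : X // i x ∈ g.1.dom}
  have hfin : ∀ g, Finite (ix g) := by
    intro g
    have h1 : Finite g.1.dom := (hfg g.1 g.2).finite
    exact Finite.of_injective (fun x : ix g => (⟨i x.1, x.2⟩ : g.1.dom)) (by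
      intro x y hxy
      exact Subtype.ext (hi (congrArg Subtype.val hxy)))
  have hb : ∀ (g : S) (x : ix g), ∃ a : {a : A // RelMap P ![a]}, Mp g.1 (i x.1) a.1 := by
    intro g x
    obtain ⟨a, ha⟩ := exists_mp x.2
    exact ⟨⟨a, (hPP _ _ _ ha).1 ((hP _).2 ⟨_, rfl⟩)⟩, ha⟩
  choose b hb using hb
  refine bfe_of (St := S) ix (fun g x => x.1) b ⟨f₀, hf₀⟩ ?_ ?_ ?_ ?_ ?_
  · intro g; exact Subtype.val_injective
  · intro g x y hxy
    have h1 := hb g x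
    rw [hxy] at h1
    exact Subtype.ext (hi (h1.inj (hb g y)))
  · intro g n R x
    rw [hA R (b g ∘ x), ← hρ R]
    exact Mp.rel (f := g.1) (ρ R) (fun j => hb g (x j))
  · intro g m
    obtain ⟨g', hg', hgg', hm⟩ := hF g.1 g.2 (i m)
    refine ⟨⟨g', hg'⟩, ?_, ⟨m, hm⟩, rfl⟩
    intro x
    refine ⟨⟨x.1, PartialEquiv.dom_le_dom hgg' x.2⟩, rfl, ?_⟩
    apply Subtype.ext
    exact ((hb g x).mono hgg').fun (hb ⟨g', hg'⟩ ⟨x.1, PartialEquiv.dom_le_dom hgg' x.2⟩)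
  · intro g m
    obtain ⟨g', hg', hgg', hm⟩ := hB g.1 g.2 m.1
    obtain ⟨z, hz⟩ := exists_mp' hm
    obtain ⟨x, rfl⟩ := (hP z).1 ((hPP _ _ _ hz).2 m.2)
    refine ⟨⟨g', hg'⟩, ?_, ⟨x, hz.dom⟩, ?_⟩
    · intro x
      refine ⟨⟨x.1, PartialEquiv.dom_le_dom hgg' x.2⟩, rfl, ?_⟩
      apply Subtype.ext
      exact ((hb g x).mono hgg').fun (hb ⟨g', hg'⟩ ⟨x.1, PartialEquiv.dom_le_dom hgg' x.2⟩)
    · apply Subtype.ext
      exact (hb ⟨g', hg'⟩ ⟨x, hz.dom⟩).fun hz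

section Bd

variable {L₀ L₁ : FirstOrder.Language.{0,0}} [L₀.IsRelational] [L₁.IsRelational]
  {M V Y : Type} [L₀.Structure M] [L₁.Structure Y]
  {π : V → Y} {σ : Str M V} {A : Type} [(LL L₀ L₁).Structure A]

/-- The own symbols as relation symbols of the combined language. -/
def ow (L₀ L₁ : FirstOrder.Language.{0,0}) {n : ℕ} (R : Own n) : (LL L₀ L₁).Relations n :=
  Sum.inr (Sum.inr R)

/-- The sort of colours. -/
abbrev MA (L₀ L₁ : FirstOrder.Language.{0,0}) (A : Type) [(LL L₀ L₁).Structure A] : Type :=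
  {a : A // RelMap (ow L₀ L₁ Own.isM) ![a]}

/-- The sort of labels. -/
abbrev YA (L₀ L₁ : FirstOrder.Language.{0,0}) (A : Type) [(LL L₀ L₁).Structure A] : Type :=
  {a : A // RelMap (ow L₀ L₁ Own.isY) ![a]}

/-- The main sort. -/
abbrev VA (L₀ L₁ : FirstOrder.Language.{0,0}) (A : Type) [(LL L₀ L₁).Structure A] : Type :=
  {a : A // ¬ RelMap (ow L₀ L₁ Own.isM) ![a] ∧ ¬ RelMap (ow L₀ L₁ Own.isY) ![a]}

instance : L₀.Structure (MA L₀ L₁ A) where
  funMap f := isEmptyElim f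
  RelMap R x := RelMap (L := LL L₀ L₁) (Sum.inl R : (LL L₀ L₁).Relations _) (fun j => (x j : A))

instance : L₁.Structure (YA L₀ L₁ A) where
  funMap f := isEmptyElim f
  RelMap R x := RelMap (L := LL L₀ L₁) (Sum.inr (Sum.inl R) : (LL L₀ L₁).Relations _)
    (fun j => (x j : A))

theorem bfe_MA (h : BFE (LL L₀ L₁) (Car π σ) A) : BFE L₀ M (MA L₀ L₁ A) := by
  refine bfe_sort (L := LL L₀ L₁) (Z := Car π σ) (fun R => Sum.inl R) (fun m => Sum.inl m)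
    (fun a b h => Sum.inl.inj h) ?_ (ow L₀ L₁ Own.isM) ?_ ?_ h
  · intro n R x
    constructor
    · rintro ⟨b, hb, hR⟩
      have : x = b := by funext i; exact Sum.inl.inj (hb i)
      rw [this]; exact hR
    · intro hR
      exact ⟨x, fun i => rfl, hR⟩
  · intro z
    constructor
    · rintro ⟨m, hm⟩; exact ⟨m, hm.symm⟩
    · rintro ⟨m, hm⟩; exact ⟨m, hm.symm⟩
  · intro n R x; exact Iff.rfl

theorem bfe_YA (h : BFE (LL L₀ L₁) (Car π σ) A) : BFE L₁ Y (YA L₀ L₁ A) := by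
  refine bfe_sort (L := LL L₀ L₁) (Z := Car π σ) (fun R => Sum.inr (Sum.inl R))
    (fun m => Sum.inr (Sum.inr m))
    (fun a b h => Sum.inr.inj (Sum.inr.inj h)) ?_ (ow L₀ L₁ Own.isY) ?_ ?_ h
  · intro n R x
    constructor
    · rintro ⟨b, hb, hR⟩
      have : x = b := by funext i; exact Sum.inr.inj (Sum.inr.inj (hb i))
      rw [this]; exact hR
    · intro hR
      exact ⟨x, fun i => rfl, hR⟩
  · intro z
    constructor
    · rintro ⟨m, hm⟩; exact ⟨m, hm.symm⟩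
    · rintro ⟨m, hm⟩; exact ⟨m, hm.symm⟩
  · intro n R x; exact Iff.rfl

theorem rel1 {L : FirstOrder.Language.{0,0}} {Z A : Type} [L.Structure Z] [L.Structure A]
    {f : L.PartialEquiv Z A} (R : L.Relations 1) {z : Z} {a : A} (h : Mp f z a) :
    RelMap R ![z] ↔ RelMap R ![a] :=
  Mp.rel R (a := ![z]) (b := ![a]) (by intro j; fin_cases j; exact h)

theorem rel2 {L : FirstOrder.Language.{0,0}} {Z A : Type} [L.Structure Z] [L.Structure A]
    {f : L.PartialEquiv Z A} (R : L.Relations 2) {z z' : Z} {a a' : A} (h : Mp f z a)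
    (h' : Mp f z' a') : RelMap R ![z, z'] ↔ RelMap R ![a, a'] :=
  Mp.rel R (a := ![z, z']) (b := ![a, a']) (by
    intro j; fin_cases j
    · exact h
    · exact h')

theorem rel3 {L : FirstOrder.Language.{0,0}} {Z A : Type} [L.Structure Z] [L.Structure A]
    {f : L.PartialEquiv Z A} (R : L.Relations 3) {z z' z'' : Z} {a a' a'' : A} (h : Mp f z a)
    (h' : Mp f z' a') (h'' : Mp f z'' a'') :
    RelMap R ![z, z', z''] ↔ RelMap R ![a, a', a''] :=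
  Mp.rel R (a := ![z, z', z'']) (b := ![a, a', a'']) (by
    intro j; fin_cases j
    · exact h
    · exact h'
    · exact h'')

/-- Preimages of points of the three sorts. -/
theorem pre_M {f : (LL L₀ L₁).PartialEquiv (Car π σ) A} {z : Car π σ} (a : MA L₀ L₁ A)
    (h : Mp f z a.1) : ∃ m, z = Sum.inl m := (rel1 (ow L₀ L₁ Own.isM) h).2 a.2

theorem pre_Y {f : (LL L₀ L₁).PartialEquiv (Car π σ) A} {z : Car π σ} (a : YA L₀ L₁ A)
    (h : Mp f z a.1) : ∃ y, z = Sum.inr (Sum.inr y) := (rel1 (ow L₀ L₁ Own.isY) h).2 a.2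

theorem pre_V {f : (LL L₀ L₁).PartialEquiv (Car π σ) A} {z : Car π σ} (a : VA L₀ L₁ A)
    (h : Mp f z a.1) : ∃ v, z = Sum.inr (Sum.inl v) := by
  rcases z with m | v | y
  · exact absurd ((rel1 (ow L₀ L₁ Own.isM) h).1 ⟨m, rfl⟩) a.2.1
  · exact ⟨v, rfl⟩
  · exact absurd ((rel1 (ow L₀ L₁ Own.isY) h).1 ⟨y, rfl⟩) a.2.2

open Classical in
/-- The structure read off the main sort. -/
noncomputable def σA (L₀ L₁ : FirstOrder.Language.{0,0}) (A : Type) [(LL L₀ L₁).Structure A]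
    (m₀ : MA L₀ L₁ A) : Str (MA L₀ L₁ A) (VA L₀ L₁ A) where
  c x y := if h : ∃ m : MA L₀ L₁ A, RelMap (ow L₀ L₁ Own.colr) ![x.1, y.1, m.1] then h.choose
    else m₀
  d x y := if h : ∃ n, RelMap (ow L₀ L₁ (Own.dd n)) ![x.1, y.1] then h.choose else 0
  F x y z := x ≠ y ∧ RelMap (ow L₀ L₁ Own.clo) ![x.1, y.1, z.1]

/-- Inclusion of the main sort. -/
def cV (π : V → Y) (σ : Str M V) (v : V) : Car π σ := Sum.inr (Sum.inl v)

/-- Inclusion of the sort of colours. -/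
def cM (π : V → Y) (σ : Str M V) (m : M) : Car π σ := Sum.inl m

/-- Inclusion of the sort of labels. -/
def cY (π : V → Y) (σ : Str M V) (y : Y) : Car π σ := Sum.inr (Sum.inr y)

theorem colr_iff {v v' : V} (h : v ≠ v') (m : M) :
    RelMap (ow L₀ L₁ Own.colr) ![cV π σ v, cV π σ v', cM π σ m] ↔ σ.c v v' = m := by
  constructor
  · rintro ⟨x, y, -, h1, h2, h3⟩
    have h1' : v = x := Sum.inl.inj (Sum.inr.inj h1)
    have h2' : v' = y := Sum.inl.inj (Sum.inr.inj h2)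
    subst h1'
    subst h2'
    exact (Sum.inl.inj h3).symm
  · rintro rfl
    exact ⟨v, v', h, rfl, rfl, rfl⟩

theorem dd_iff {v v' : V} (h : v ≠ v') (n : ℕ) :
    RelMap (ow L₀ L₁ (Own.dd n)) ![cV π σ v, cV π σ v'] ↔ σ.d v v' = n := by
  constructor
  · rintro ⟨x, y, -, h1, h2, h3⟩
    have h1' : v = x := Sum.inl.inj (Sum.inr.inj h1)
    have h2' : v' = y := Sum.inl.inj (Sum.inr.inj h2)
    subst h1'
    subst h2'
    exact h3
  · rintro rfl
    exact ⟨v, v', h, rfl, rfl, rfl⟩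

theorem clo_iff {v v' u : V} (h : v ≠ v') :
    RelMap (ow L₀ L₁ Own.clo) ![cV π σ v, cV π σ v', cV π σ u] ↔ σ.F v v' u := by
  constructor
  · rintro ⟨x, y, z, -, h1, h2, h3, h4⟩
    have h1' : v = x := Sum.inl.inj (Sum.inr.inj h1)
    have h2' : v' = y := Sum.inl.inj (Sum.inr.inj h2)
    have h3' : u = z := Sum.inl.inj (Sum.inr.inj h3)
    subst h1'
    subst h2'
    subst h3'
    exact h4
  · intro h4
    exact ⟨v, v', u, h, rfl, rfl, rfl, h4⟩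

theorem exists_colr (h : BFE (LL L₀ L₁) (Car π σ) A) (x y : VA L₀ L₁ A) (hxy : x ≠ y) :
    ∃ m : MA L₀ L₁ A, RelMap (ow L₀ L₁ Own.colr) ![x.1, y.1, m.1] := by
  obtain ⟨S, ⟨f₀, hf₀⟩, -, hF, hB⟩ := h
  obtain ⟨f, hf, -, hfc⟩ := Back.finite (S := S) hB hf₀ {x.1, y.1} (by simp)
  obtain ⟨z, hz⟩ := exists_mp' (hfc x.1 (by simp))
  obtain ⟨z', hz'⟩ := exists_mp' (hfc y.1 (by simp))
  obtain ⟨v, rfl⟩ := pre_V x hz
  obtain ⟨v', rfl⟩ := pre_V y hz'
  obtain ⟨g, hg, hfg, hgd⟩ := hF f hf (Sum.inl (σ.c v v'))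
  obtain ⟨a, ha⟩ := exists_mp hgd
  refine ⟨⟨a, (rel1 (ow L₀ L₁ Own.isM) ha).1 ⟨_, rfl⟩⟩, ?_⟩
  rw [← rel3 (ow L₀ L₁ Own.colr) (hz.mono hfg) (hz'.mono hfg) ha]
  have hne : v ≠ v' := by
    rintro rfl
    exact hxy (Subtype.ext (hz.fun hz'))
  exact (colr_iff hne _).2 rfl

theorem σA_c {f : (LL L₀ L₁).PartialEquiv (Car π σ) A} (h : BFE (LL L₀ L₁) (Car π σ) A)
    (m₀ : MA L₀ L₁ A) {x y : VA L₀ L₁ A} (hxy : x ≠ y) {v v' : V} {m : M}
    (hx : Mp f (Sum.inr (Sum.inl v)) x.1) (hy : Mp f (Sum.inr (Sum.inl v')) y.1)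
    (hm : Mp f (Sum.inl m) ((σA L₀ L₁ A m₀).c x y).1) : σ.c v v' = m := by
  have hex := exists_colr h x y hxy
  have h1 : (σA L₀ L₁ A m₀).c x y = hex.choose := by
    unfold σA
    simp only
    rw [dif_pos hex]
  rw [h1] at hm
  have h2 := hex.choose_spec
  rw [← rel3 (ow L₀ L₁ Own.colr) hx hy hm] at h2
  have hne : v ≠ v' := by
    rintro rfl
    exact hxy (Subtype.ext (hx.fun hy))
  exact (colr_iff hne _).1 h2

theorem σA_d {f : (LL L₀ L₁).PartialEquiv (Car π σ) A}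
    (m₀ : MA L₀ L₁ A) {x y : VA L₀ L₁ A} (hxy : x ≠ y) {v v' : V}
    (hx : Mp f (Sum.inr (Sum.inl v)) x.1) (hy : Mp f (Sum.inr (Sum.inl v')) y.1) :
    σ.d v v' = (σA L₀ L₁ A m₀).d x y := by
  have hne : v ≠ v' := by
    rintro rfl
    exact hxy (Subtype.ext (hx.fun hy))
  have key : ∀ n, RelMap (ow L₀ L₁ (Own.dd n)) ![x.1, y.1] ↔ σ.d v v' = n := by
    intro n
    rw [← rel2 (ow L₀ L₁ (Own.dd n)) hx hy]
    exact dd_iff hne n
  have hex : ∃ n, RelMap (ow L₀ L₁ (Own.dd n)) ![x.1, y.1] := ⟨_, (key _).2 rfl⟩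
  have h1 : (σA L₀ L₁ A m₀).d x y = hex.choose := by
    unfold σA
    simp only
    rw [dif_pos hex]
  rw [h1]
  exact (key _).1 hex.choose_spec

theorem σA_F {f : (LL L₀ L₁).PartialEquiv (Car π σ) A}
    (m₀ : MA L₀ L₁ A) {x y z : VA L₀ L₁ A} (hxy : x ≠ y) {v v' u : V}
    (hx : Mp f (Sum.inr (Sum.inl v)) x.1) (hy : Mp f (Sum.inr (Sum.inl v')) y.1)
    (hz : Mp f (Sum.inr (Sum.inl u)) z.1) :
    (σA L₀ L₁ A m₀).F x y z ↔ σ.F v v' u := by
  have hne : v ≠ v' := by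
    rintro rfl
    exact hxy (Subtype.ext (hx.fun hy))
  have h1 : RelMap (ow L₀ L₁ Own.clo) ![cV π σ v, cV π σ v', cV π σ u] ↔ σ.F v v' u :=
    clo_iff hne
  have h2 : RelMap (ow L₀ L₁ Own.clo) ![cV π σ v, cV π σ v', cV π σ u] ↔
      RelMap (ow L₀ L₁ Own.clo) ![x.1, y.1, z.1] := rel3 (ow L₀ L₁ Own.clo) hx hy hz
  rw [← h1, h2]
  exact ⟨fun h => h.2, fun h => ⟨hxy, h⟩⟩

theorem good_σA (h : BFE (LL L₀ L₁) (Car π σ) A) (hg : Good σ) (m₀ : MA L₀ L₁ A) :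
    Good (σA L₀ L₁ A m₀) := by
  intro m w x y hb
  have h' := h
  obtain ⟨S, ⟨f₀, hf₀⟩, -, hF, hB⟩ := h'
  let F1 : Set A := {w.1} ∪ Set.range (fun i => (x i).1) ∪ Set.range (fun i => (y i).1) ∪
    Set.range (fun i => ((σA L₀ L₁ A m₀).c (x i) w).1)
  have hF1 : F1.Finite := (((Set.finite_singleton _).union (Set.finite_range _)).union
    (Set.finite_range _)).union (Set.finite_range _)
  obtain ⟨f, hf, -, hfc⟩ := Back.finite (S := S) hB hf₀ F1 hF1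
  have hmw : ∃ v, Mp f (Sum.inr (Sum.inl v)) w.1 := by
    obtain ⟨z, hz⟩ := exists_mp' (hfc w.1 (Or.inl (Or.inl (Or.inl rfl))))
    obtain ⟨v, rfl⟩ := pre_V w hz
    exact ⟨v, hz⟩
  have hmx : ∀ i, ∃ v, Mp f (Sum.inr (Sum.inl v)) (x i).1 := by
    intro i
    obtain ⟨z, hz⟩ := exists_mp' (hfc (x i).1 (Or.inl (Or.inl (Or.inr ⟨i, rfl⟩))))
    obtain ⟨v, rfl⟩ := pre_V (x i) hz
    exact ⟨v, hz⟩
  have hmy : ∀ i, ∃ v, Mp f (Sum.inr (Sum.inl v)) (y i).1 := by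
    intro i
    obtain ⟨z, hz⟩ := exists_mp' (hfc (y i).1 (Or.inl (Or.inr ⟨i, rfl⟩)))
    obtain ⟨v, rfl⟩ := pre_V (y i) hz
    exact ⟨v, hz⟩
  have hmc : ∀ i, ∃ a, Mp f (Sum.inl a) ((σA L₀ L₁ A m₀).c (x i) w).1 := by
    intro i
    obtain ⟨z, hz⟩ := exists_mp' (hfc ((σA L₀ L₁ A m₀).c (x i) w).1 (Or.inr ⟨i, rfl⟩))
    obtain ⟨a, rfl⟩ := pre_M _ hz
    exact ⟨a, hz⟩
  obtain ⟨w', hw'⟩ := hmw
  choose x' hx' using hmx
  choose y' hy' using hmy
  choose a' ha' using hmc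
  have hmp : ∀ i, Mp f (Sum.inr (Sum.inl (Sum.elim x' y' i))) (Sum.elim x y i).1 := by
    rintro (i | i)
    · exact hx' i
    · exact hy' i
  have hne : ∀ {z z' : VA L₀ L₁ A} {v v' : V}, z ≠ z' → Mp f (Sum.inr (Sum.inl v)) z.1 →
      Mp f (Sum.inr (Sum.inl v')) z'.1 → v ≠ v' := by
    rintro z z' v v' hzz h1 h2 rfl
    exact hzz (Subtype.ext (h1.fun h2))
  have hxy : ∀ i, x i ≠ y i := by
    intro i h
    have h1 : (Sum.inl i : Fin (2*m+1) ⊕ Fin (2*m+1)) = Sum.inr i := hb.inj h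
    cases h1
  refine hg m w' x' y' ⟨?_, ?_, ?_, ?_, ?_, ?_, ?_⟩
  · intro i j hij
    by_contra hne'
    exact hne (fun h => hne' (hb.inj h)) (hmp i) (hmp j) hij
  · intro i; exact hne (hb.hx i) (hx' i) hw'
  · intro i; exact hne (hb.hy i) (hy' i) hw'
  · intro i
    rw [σA_d m₀ (hb.hx i) (hx' i) hw']
    exact hb.dx i
  · intro i
    rw [σA_d m₀ (hb.hy i) (hy' i) hw']
    exact hb.dy i
  · intro i
    rw [σA_c h m₀ (hb.hx i) (hx' i) hw' (ha' i)]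
    have h1 := ha' i
    rw [hb.cc i] at h1
    exact (σA_c h m₀ (hxy i) (hx' i) (hy' i) h1).symm
  · intro i j hij
    have h1 := hb.nF i j hij
    rw [σA_F m₀ (fun h => hij (hb.inj h)) (hmp i) (hmp j) hw'] at h1
    exact h1

theorem fin_σA (h : BFE (LL L₀ L₁) (Car π σ) A)
    (hfin : ∀ v v', v ≠ v' → {u | σ.F v v' u}.Finite) (m₀ : MA L₀ L₁ A) (x y : VA L₀ L₁ A) :
    {w | (σA L₀ L₁ A m₀).F x y w}.Countable := by
  by_cases hxy : x = y
  · convert! Set.countable_empty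
    ext w
    simp only [Set.mem_ofPred_eq, Set.mem_empty_iff_false, iff_false]
    exact fun h => h.1 hxy
  apply Set.Finite.countable
  by_contra hinf
  obtain ⟨S, ⟨f₀, hf₀⟩, -, hF, hB⟩ := h
  obtain ⟨f, hf, -, hfc⟩ := Back.finite (S := S) hB hf₀ {x.1, y.1} (by simp)
  obtain ⟨z, hz⟩ := exists_mp' (hfc x.1 (by simp))
  obtain ⟨z', hz'⟩ := exists_mp' (hfc y.1 (by simp))
  obtain ⟨v, rfl⟩ := pre_V x hz
  obtain ⟨v', rfl⟩ := pre_V y hz'
  have hne : v ≠ v' := by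
    rintro rfl
    exact hxy (Subtype.ext (hz.fun hz'))
  have hfv := hfin v v' hne
  obtain ⟨W, hW, hWc⟩ := Set.Infinite.exists_subset_card_eq hinf (hfv.toFinset.card + 1)
  obtain ⟨g, hg, hfg, hgc⟩ := Back.finite (S := S) hB hf
    ((fun a : VA L₀ L₁ A => (a : A)) '' (W : Set (VA L₀ L₁ A))) (W.finite_toSet.image _)
  have h1 : ∀ a : W, ∃ u, Mp g (Sum.inr (Sum.inl u)) (a : VA L₀ L₁ A).1 := by
    intro a
    obtain ⟨z, hz⟩ := exists_mp' (hgc (a : VA L₀ L₁ A).1 ⟨a, a.2, rfl⟩)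
    obtain ⟨u, rfl⟩ := pre_V _ hz
    exact ⟨u, hz⟩
  choose u hu using h1
  have h2 : ∀ a : W, u a ∈ hfv.toFinset := by
    intro a
    rw [Set.Finite.mem_toFinset]
    have h3 := hW a.2
    rw [Set.mem_ofPred_eq, σA_F m₀ hxy (hz.mono hfg) (hz'.mono hfg) (hu a)] at h3
    exact h3
  have h3 : Injective (fun a : W => (⟨u a, h2 a⟩ : hfv.toFinset)) := by
    intro a b hab
    have h4 : u a = u b := congrArg Subtype.val hab
    have h5 := hu a
    rw [h4] at h5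
    exact Subtype.ext (Subtype.ext (h5.fun (hu b)))
  have h4 := Fintype.card_le_of_injective _ h3
  simp only [Fintype.card_coe] at h4
  omega

end Bd

end Pool.Agent.TH767.B
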