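import Mathlib
import Pool.Agent.TH767.B.Bounding

/-!
Automorphisms of the countable structures over a permutation of the labels.
-/

namespace Pool.Agent.TH767.B

open FirstOrder FirstOrder.Language FirstOrder.Language.Structure Function

section Homog

variable {M V Y : Type} (U : Set Y) (π : V → Y) (σ : Str M V) (τ : Equiv.Perm Y)

/-- States for the construction of automorphisms. -/
structure HS where
  B : Type
  fB : Finite B
  ρ : Str M B
  s : B → V
  s' : B → V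
  e : Emb s ρ σ
  e' : Emb s' ρ σ
  hp : ∀ i, π (s' i) = τ (π (s i))

variable {U π σ τ}

/-- The symmetric state. -/
def HS.symm (S : HS π σ τ) : HS π σ τ.symm where
  B := S.B
  fB := S.fB
  ρ := S.ρ
  s := S.s'
  s' := S.s
  e := S.e'
  e' := S.e
  hp i := by rw [S.hp, Equiv.symm_apply_apply]

/-- The symmetric state, the other way. -/
def HS.symm' (S : HS π σ τ.symm) : HS π σ τ where
  B := S.B
  fB := S.fB
  ρ := S.ρ
  s := S.s'
  s' := S.s
  e := S.e'
  e' := S.e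
  hp i := by rw [S.hp, Equiv.apply_symm_apply]

/-- Extension. -/
def HE (S S' : HS π σ τ) : Prop := ∀ i, ∃ j, S.s i = S'.s j ∧ S.s' i = S'.s' j

theorem HE.refl (S : HS π σ τ) : HE S S := fun i => ⟨i, rfl, rfl⟩

theorem HE.trans {S S' S'' : HS π σ τ} (h : HE S S') (h' : HE S' S'') : HE S S'' := by
  intro i
  obtain ⟨j, h1, h2⟩ := h i
  obtain ⟨k, h3, h4⟩ := h' j
  exact ⟨k, h1.trans h3, h2.trans h4⟩

theorem HS.forth (hM : Mdl U π σ) (hU : ∀ y ∈ U, τ y ∈ U) (S : HS π σ τ) (v : V) :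
    ∃ S' : HS π σ τ, HE S S' ∧ ∃ j, S'.s j = v := by
  classical
  have fB0 := S.fB
  obtain ⟨D, hD1, hDfin, hDcl⟩ := hM.fin (insert v (Set.range S.s))
    ((Set.finite_range _).insert v)
  have hsD : ∀ i, S.s i ∈ D := fun i => hD1 (Or.inr ⟨i, rfl⟩)
  let N : Type := ↥(D \ Set.range S.s)
  have hN : Finite N := (hDfin.subset Set.sdiff_subset).to_subtype
  let s₁ : S.B ⊕ N → V := Sum.elim S.s Subtype.val
  have hs₁ : Injective s₁ := Function.Injective.sumElim S.e.inj Subtype.val_injective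
    (fun i n h => n.2.2 ⟨i, h⟩)
  have hs₁D : ∀ i, s₁ i ∈ D := by
    rintro (i | i)
    · exact hsD i
    · exact i.2.1
  have hs₁r : ∀ x ∈ D, ∃ i, s₁ i = x := by
    intro x hx
    by_cases h : x ∈ Set.range S.s
    · obtain ⟨i, rfl⟩ := h
      exact ⟨Sum.inl i, rfl⟩
    · exact ⟨Sum.inr ⟨x, hx, h⟩, rfl⟩
  have e₁ : Emb s₁ (σ.pull s₁) σ := emb_pull hs₁ (by
    intro x y w hxy hw
    exact hs₁r w (hDcl _ (hs₁D x) _ (hs₁D y) w (fun h => hxy (hs₁ h)) hw))
  have e2 : Emb Sum.inl (pullL (σ.pull s₁)) (σ.pull s₁) := by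
    refine ⟨Sum.inl_injective, fun _ _ _ => rfl, fun _ _ _ => rfl, fun _ _ _ _ => Iff.rfl, ?_⟩
    intro x y w hxy hw
    obtain ⟨z, hz⟩ := S.e.cl x y _ hxy hw
    exact ⟨z, hs₁ hz⟩
  have e3 : Emb S.s' (pullL (σ.pull s₁)) σ := by
    refine ⟨S.e'.inj, ?_, ?_, ?_, ?_⟩
    · intro x y hxy
      change σ.c (S.s x) (S.s y) = _
      rw [← S.e.c x y hxy]
      exact S.e'.c x y hxy
    · intro x y hxy
      change σ.d (S.s x) (S.s y) = _
      rw [← S.e.d x y hxy]
      exact S.e'.d x y hxy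
    · intro x y z hxy
      change σ.F (S.s x) (S.s y) (S.s z) ↔ _
      rw [← S.e.F x y z hxy]
      exact S.e'.F x y z hxy
    · exact S.e'.cl
  obtain ⟨t, ht, htp⟩ := hM.ext' S.s' (σ.pull s₁) (fun n : N => τ (π n)) (by
    intro n
    exact hU _ (hM.tag _)) (hM.good.of_emb e₁) e2 e3
  refine ⟨{ B := S.B ⊕ N
            fB := inferInstance
            ρ := σ.pull s₁
            s := s₁
            s' := Sum.elim S.s' t
            e := e₁
            e' := ht
            hp := by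
              rintro (i | i)
              · exact S.hp i
              · exact htp i }, ?_, ?_⟩
  · intro i
    exact ⟨Sum.inl i, rfl, rfl⟩
  · exact hs₁r v (hD1 (Or.inl rfl))

theorem HS.step (hM : Mdl U π σ) (hU : ∀ y, y ∈ U ↔ τ y ∈ U) (S : HS π σ τ) (v v' : V) :
    ∃ S' : HS π σ τ, HE S S' ∧ (∃ j, S'.s j = v) ∧ ∃ j, S'.s' j = v' := by
  obtain ⟨S1, hS1, j, hj⟩ := S.forth hM (fun y hy => (hU y).1 hy) v
  obtain ⟨S2, h1, h3⟩ := S1.symm.forth hM (fun y hy => by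
    rw [hU]; simpa using hy) v'
  refine ⟨S2.symm', hS1.trans ?_, ?_, h3⟩
  · intro i
    obtain ⟨k, h4, h5⟩ := h1 i
    exact ⟨k, h5, h4⟩
  · obtain ⟨k, h4, h5⟩ := h1 j
    exact ⟨k, h5.symm.trans hj⟩

theorem exists_iso [Countable V] (hM : Mdl U π σ) (hU : ∀ y, y ∈ U ↔ τ y ∈ U) :
    ∃ g : V ≃ V, (∀ v, π (g v) = τ (π v)) ∧
      (∀ v v', v ≠ v' → σ.c (g v) (g v') = σ.c v v') ∧
      (∀ v v', v ≠ v' → σ.d (g v) (g v') = σ.d v v') ∧
      (∀ v v' u, v ≠ v' → (σ.F (g v) (g v') (g u) ↔ σ.F v v' u)) := by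
  rcases isEmpty_or_nonempty V with hV | hV
  · exact ⟨Equiv.refl V, fun v => (hV.false v).elim, fun v => (hV.false v).elim,
      fun v => (hV.false v).elim, fun v => (hV.false v).elim⟩
  obtain ⟨ν, hν⟩ := exists_surjective_nat V
  let S0 : HS π σ τ :=
    { B := Empty
      fB := inferInstance
      ρ := ⟨fun x => x.elim, fun x => x.elim, fun x => x.elim⟩
      s := fun x => x.elim
      s' := fun x => x.elim
      e := ⟨fun x => x.elim, fun x => x.elim, fun x => x.elim, fun x => x.elim, fun x => x.elim⟩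
      e' := ⟨fun x => x.elim, fun x => x.elim, fun x => x.elim, fun x => x.elim, fun x => x.elim⟩
      hp := fun x => x.elim }
  have hstep := fun (n : ℕ) (S : HS π σ τ) => S.step hM hU (ν n) (ν n)
  choose nx hnx1 hnx2 hnx3 using hstep
  let St : ℕ → HS π σ τ := fun n => Nat.rec S0 (fun n S => nx n S) n
  have hSt : ∀ n, HE (St n) (St (n+1)) := fun n => hnx1 n (St n)
  have hmono : ∀ a b, a ≤ b → HE (St a) (St b) := by
    intro a b hab
    induction b, hab using Nat.le_induction with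
    | base => exact HE.refl _
    | succ b _ ih => exact ih.trans (hSt b)
  let Gr : V → V → ℕ → Prop := fun v v' n => ∃ i, (St n).s i = v ∧ (St n).s' i = v'
  have hGr : ∀ v v' a b, a ≤ b → Gr v v' a → Gr v v' b := by
    rintro v v' a b hab ⟨i, hi, hi'⟩
    obtain ⟨j, h1, h2⟩ := hmono a b hab i
    exact ⟨j, by rw [← h1, hi], by rw [← h2, hi']⟩
  have hGe : ∀ v, ∃ v' n, Gr v v' n := by
    intro v
    obtain ⟨n, rfl⟩ := hν v
    obtain ⟨j, hj⟩ := hnx2 n (St n)
    exact ⟨_, n+1, j, hj, rfl⟩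
  have hGe' : ∀ v', ∃ v n, Gr v v' n := by
    intro v'
    obtain ⟨n, rfl⟩ := hν v'
    obtain ⟨j, hj⟩ := hnx3 n (St n)
    exact ⟨_, n+1, j, rfl, hj⟩
  have hGf : ∀ v v' w' a b, Gr v v' a → Gr v w' b → v' = w' := by
    intro v v' w' a b h1 h2
    obtain ⟨i, hi, hi'⟩ := hGr _ _ _ _ (le_max_left a b) h1
    obtain ⟨j, hj, hj'⟩ := hGr _ _ _ _ (le_max_right a b) h2
    have : i = j := (St (max a b)).e.inj (hi.trans hj.symm)
    subst this
    exact hi'.symm.trans hj'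
  have hGi : ∀ v w v' a b, Gr v v' a → Gr w v' b → v = w := by
    intro v w v' a b h1 h2
    obtain ⟨i, hi, hi'⟩ := hGr _ _ _ _ (le_max_left a b) h1
    obtain ⟨j, hj, hj'⟩ := hGr _ _ _ _ (le_max_right a b) h2
    have : i = j := (St (max a b)).e'.inj (hi'.trans hj'.symm)
    subst this
    exact hi.symm.trans hj
  choose g gn hg using hGe
  have hbij : Bijective g := by
    constructor
    · intro v w h
      have h1 := hg v
      rw [h] at h1
      exact hGi _ _ _ _ _ h1 (hg w)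
    · intro v'
      obtain ⟨v, n, h⟩ := hGe' v'
      exact ⟨v, hGf _ _ _ _ _ (hg v) h⟩
  -- common stages
  have hcom : ∀ v v' u, ∃ n i j k, (St n).s i = v ∧ (St n).s' i = g v ∧ (St n).s j = v' ∧
      (St n).s' j = g v' ∧ (St n).s k = u ∧ (St n).s' k = g u := by
    intro v v' u
    let n := max (gn v) (max (gn v') (gn u))
    obtain ⟨i, hi, hi'⟩ := hGr v (g v) _ n (le_max_left _ _) (hg v)
    obtain ⟨j, hj, hj'⟩ := hGr v' (g v') _ n ((le_max_left _ _).trans (le_max_right _ _)) (hg v')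
    obtain ⟨k, hk, hk'⟩ := hGr u (g u) _ n ((le_max_right _ _).trans (le_max_right _ _)) (hg u)
    exact ⟨n, i, j, k, hi, hi', hj, hj', hk, hk'⟩
  refine ⟨Equiv.ofBijective g hbij, ?_, ?_, ?_, ?_⟩
  · intro v
    obtain ⟨i, hi, hi'⟩ := hg v
    change π (g v) = _
    rw [← hi', (St (gn v)).hp, hi]
  · intro v v' hne
    obtain ⟨n, i, j, -, h1, h2, h3, h4, -, -⟩ := hcom v v' v
    have hij : i ≠ j := by rintro rfl; exact hne (h1.symm.trans h3)
    change σ.c (g v) (g v') = _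
    rw [← h2, ← h4, ← (St n).e'.c i j hij, (St n).e.c i j hij, h1, h3]
  · intro v v' hne
    obtain ⟨n, i, j, -, h1, h2, h3, h4, -, -⟩ := hcom v v' v
    have hij : i ≠ j := by rintro rfl; exact hne (h1.symm.trans h3)
    change σ.d (g v) (g v') = _
    rw [← h2, ← h4, ← (St n).e'.d i j hij, (St n).e.d i j hij, h1, h3]
  · intro v v' u hne
    obtain ⟨n, i, j, k, h1, h2, h3, h4, h5, h6⟩ := hcom v v' u
    have hij : i ≠ j := by rintro rfl; exact hne (h1.symm.trans h3)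
    change σ.F (g v) (g v') (g u) ↔ _
    rw [← h2, ← h4, ← h6, ← (St n).e'.F i j k hij, (St n).e.F i j k hij, h1, h3, h5]

end Homog

/-- The language of pure sets. -/
inductive PR : ℕ → Type
  | u : PR 1

/-- The language of pure sets, with a trivial unary symbol. -/
def LP : FirstOrder.Language.{0,0} := ⟨fun _ => Empty, PR⟩

instance : LP.IsRelational := fun _ => inferInstanceAs (IsEmpty Empty)

/-- The pure structure on a set. -/
def pureStr (Y : Type) : LP.Structure Y where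
  funMap f := Empty.elim f
  RelMap _ _ := True

theorem bfe_pure (Y Y' : Type) [Infinite Y] [Infinite Y'] :
    @BFE LP Y Y' (pureStr Y) (pureStr Y') := by
  let _ := pureStr Y
  let _ := pureStr Y'
  let St : Type := {z : Σ n : ℕ, (Fin n → Y) × (Fin n → Y') //
    Injective z.2.1 ∧ Injective z.2.2}
  have ext : ∀ (n : ℕ) (a : Fin n → Y) (b : Fin n → Y') (m : Y) (m' : Y'), Injective a →
      Injective b → (∀ i, a i ≠ m) → (∀ i, b i ≠ m') →
      ∃ s' : St, (∀ i, ∃ j, a i = s'.1.2.1 j ∧ b i = s'.1.2.2 j) ∧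
        (∃ i, s'.1.2.1 i = m) ∧ ∃ i, s'.1.2.2 i = m' := by
    intro n a b m m' ha hb hm hm'
    have e1 : ∀ i : Fin n, (Fin.snoc a m : Fin (n+1) → Y) i.castSucc = a i := fun i => by
      rw [Fin.snoc_castSucc]
    have e2 : ∀ i : Fin n, (Fin.snoc b m' : Fin (n+1) → Y') i.castSucc = b i :=
      fun i => by rw [Fin.snoc_castSucc]
    have e3 : (Fin.snoc a m : Fin (n+1) → Y) (Fin.last n) = m := by rw [Fin.snoc_last]
    have e4 : (Fin.snoc b m' : Fin (n+1) → Y') (Fin.last n) = m' := by rw [Fin.snoc_last]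
    refine ⟨⟨⟨n+1, Fin.snoc a m, Fin.snoc b m'⟩, ?_, ?_⟩,
      fun i => ⟨i.castSucc, (e1 i).symm, (e2 i).symm⟩, ⟨Fin.last n, e3⟩, ⟨Fin.last n, e4⟩⟩
    · rw [Fin.snoc_injective_iff]
      exact ⟨ha, by rintro ⟨i, hi⟩; exact hm i hi⟩
    · rw [Fin.snoc_injective_iff]
      exact ⟨hb, by rintro ⟨i, hi⟩; exact hm' i hi⟩
  refine bfe_of (L := LP) (St := St) (fun z => Fin z.1.1) (fun z => z.1.2.1) (fun z => z.1.2.2)
    ⟨⟨0, Fin.elim0, Fin.elim0⟩, fun i => i.elim0, fun i => i.elim0⟩ (fun z => z.2.1)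
    (fun z => z.2.2) (fun _ _ _ _ => Iff.rfl) ?_ ?_
  · rintro ⟨⟨n, a, b⟩, ha, hb⟩ m
    by_cases hm : ∃ i, a i = m
    · exact ⟨⟨⟨n, a, b⟩, ha, hb⟩, fun i => ⟨i, rfl, rfl⟩, hm⟩
    push Not at hm
    obtain ⟨m', hm'⟩ := (Set.finite_range b).exists_notMem
    obtain ⟨s', h1, h2, -⟩ := ext n a b m m' ha hb hm (fun i h => hm' ⟨i, h⟩)
    exact ⟨s', h1, h2⟩
  · rintro ⟨⟨n, a, b⟩, ha, hb⟩ m'
    by_cases hm' : ∃ i, b i = m'
    · exact ⟨⟨⟨n, a, b⟩, ha, hb⟩, fun i => ⟨i, rfl, rfl⟩, hm'⟩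
    push Not at hm'
    obtain ⟨m, hm⟩ := (Set.finite_range a).exists_notMem
    obtain ⟨s', h1, -, h2⟩ := ext n a b m m' ha hb (fun i h => hm ⟨i, h⟩) hm'
    exact ⟨s', h1, h2⟩

end Pool.Agent.TH767.B
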