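import Mathlib
import Pool.Agent.TH767.B.PE

/-!
A downward Löwenheim-Skolem theorem for back-and-forth equivalence to a countable structure.
-/

namespace Pool.Agent.TH767.B

open FirstOrder FirstOrder.Language FirstOrder.Language.Structure Function

/-- The language of witness functions. -/
def WL (M : Type) : FirstOrder.Language.{0,0} := ⟨fun n => (Fin n → M) × M, fun _ => Empty⟩

theorem ls {L : FirstOrder.Language.{0,0}} [L.IsRelational] {M A : Type} [L.Structure M]
    [L.Structure A] [Countable M] (h : BFE L M A) {μ : Cardinal.{0}}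
    (hμ : Cardinal.aleph0 ≤ μ) (hA : μ ≤ Cardinal.mk A) :
    ∃ (A₀ : Type) (_ : L.Structure A₀), Cardinal.mk A₀ = μ ∧ BFE L M A₀ := by
  classical
  obtain ⟨S, ⟨f₀, hf₀⟩, -, hF, hB⟩ := h
  obtain ⟨X, hX⟩ := Cardinal.le_mk_iff_exists_set.1 hA
  have hXne : Nonempty A := by
    have : (X : Set A).Nonempty := by
      rw [Set.nonempty_iff_ne_empty]
      rintro rfl
      rw [Cardinal.mk_eq_zero] at hX
      rw [← hX] at hμ
      exact absurd hμ (not_le.2 Cardinal.aleph0_pos)
    exact ⟨this.some⟩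
  let gt : ∀ {n : ℕ}, (Fin n → M) → (Fin n → A) → Prop := fun a b =>
    ∃ f ∈ S, ∀ i, Mp f (a i) (b i)
  have hgt : ∀ {n : ℕ} (a : Fin n → M) (b : Fin n → A) (m : M), gt a b →
      ∃ b', ∃ f ∈ S, (∀ i, Mp f (a i) (b i)) ∧ Mp f m b' := by
    rintro n a b m ⟨f, hf, hab⟩
    obtain ⟨g, hg, hfg, hm⟩ := hF f hf m
    obtain ⟨b', hb'⟩ := exists_mp hm
    exact ⟨b', g, hg, fun i => (hab i).mono hfg, hb'⟩
  let str : (WL M).Structure A :=
    { funMap := fun {n} (am : (Fin n → M) × M) b =>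
        if h : gt am.1 b then (hgt am.1 b am.2 h).choose else Classical.arbitrary A
      RelMap := fun r => Empty.elim r }
  let A₀ : (WL M).Substructure A := Substructure.closure (WL M) X
  have hXA₀ : X ⊆ A₀ := Substructure.subset_closure
  have hcard : Cardinal.mk A₀ = μ := by
    apply le_antisymm
    · have h1 := Substructure.lift_card_closure_le (L := WL M) (s := X)
      simp only [Cardinal.lift_id] at h1
      refine h1.trans (max_le hμ (Cardinal.add_le_of_le hμ hX.le ?_))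
      have : Countable (Σ i, (WL M).Functions i) := by
        have : ∀ i, Countable ((WL M).Functions i) := fun i =>
          inferInstanceAs (Countable ((Fin i → M) × M))
        infer_instance
      exact Cardinal.mk_le_aleph0.trans hμ
    · rw [← hX]
      exact Cardinal.mk_le_mk_of_subset hXA₀
  let str₀ : L.Structure A₀ :=
    { funMap := fun f => isEmptyElim f
      RelMap := fun R x => RelMap R (fun i => (x i : A)) }
  refine ⟨A₀, str₀, hcard, ?_⟩
  let St : Type := {z : Σ n : ℕ, (Fin n → M) × (Fin n → A₀) //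
    Injective z.2.1 ∧ gt z.2.1 (fun i => (z.2.2 i : A))}
  refine bfe_of (St := St) (fun z => Fin z.1.1) (fun z => z.1.2.1) (fun z => z.1.2.2)
    ⟨⟨0, Fin.elim0, Fin.elim0⟩, fun i => i.elim0, f₀, hf₀, fun i => i.elim0⟩ ?_ ?_ ?_ ?_ ?_
  · intro z; exact z.2.1
  · rintro ⟨⟨n, a, b⟩, ha, f, hf, hab⟩ i j hij
    have h1 := hab i
    have h2 := hab j
    simp only at hij h1 h2
    rw [hij] at h1
    exact ha (h1.inj h2)
  · rintro ⟨⟨n, a, b⟩, ha, f, hf, hab⟩ k R x
    exact Mp.rel (f := f) R (a := a ∘ x) (b := fun i => ((b (x i) : A₀) : A)) (fun i => hab _)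
  · rintro ⟨⟨n, a, b⟩, ha, hgab⟩ m
    by_cases hm : ∃ i, a i = m
    · exact ⟨⟨⟨n, a, b⟩, ha, hgab⟩, fun i => ⟨i, rfl, rfl⟩, hm⟩
    push Not at hm
    have hmem : (hgt a (fun i => (b i : A)) m hgab).choose ∈ A₀ := by
      have h1 := A₀.fun_mem ((a, m) : (WL M).Functions n) (fun i => (b i : A)) (fun i => (b i).2)
      have h2 : @funMap (WL M) A str n ((a, m) : (WL M).Functions n) (fun i => (b i : A)) =
          (hgt a (fun i => (b i : A)) m hgab).choose := by
        change (if h : gt a (fun i => (b i : A)) then (hgt a (fun i => (b i : A)) m h).choose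
          else Classical.arbitrary A) = _
        rw [dif_pos hgab]
      rw [← h2]
      exact h1
    obtain ⟨f, hf, hab, hfm⟩ := (hgt a (fun i => (b i : A)) m hgab).choose_spec
    have e1 : ∀ i : Fin n, (Fin.snoc a m : Fin (n+1) → M) i.castSucc = a i := fun i => by
      rw [Fin.snoc_castSucc]
    have e2 : ∀ i : Fin n, (Fin.snoc b ⟨_, hmem⟩ : Fin (n+1) → A₀) i.castSucc = b i :=
      fun i => by rw [Fin.snoc_castSucc]
    have e3 : (Fin.snoc a m : Fin (n+1) → M) (Fin.last n) = m := by rw [Fin.snoc_last]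
    refine ⟨⟨⟨n+1, Fin.snoc a m, Fin.snoc b ⟨_, hmem⟩⟩, ?_, f, hf, ?_⟩,
      fun i => ⟨i.castSucc, (e1 i).symm, (e2 i).symm⟩, ⟨Fin.last n, e3⟩⟩
    · rw [Fin.snoc_injective_iff]
      exact ⟨ha, by rintro ⟨i, hi⟩; exact hm i hi⟩
    · intro i
      induction i using Fin.lastCases with
      | last => simp only [Fin.snoc_last]; exact hfm
      | cast i => simp only [Fin.snoc_castSucc]; exact hab i
  · rintro ⟨⟨n, a, b⟩, ha, f, hf, hab⟩ x
    obtain ⟨g, hg, hfg, hx⟩ := hB f hf x
    obtain ⟨m, hm⟩ := exists_mp' hx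
    by_cases hmr : ∃ i, a i = m
    · obtain ⟨i, rfl⟩ := hmr
      refine ⟨⟨⟨n, a, b⟩, ha, f, hf, hab⟩, fun i => ⟨i, rfl, rfl⟩, i, ?_⟩
      exact Subtype.ext (((hab i).mono hfg).fun hm)
    push Not at hmr
    have e1 : ∀ i : Fin n, (Fin.snoc a m : Fin (n+1) → M) i.castSucc = a i := fun i => by
      rw [Fin.snoc_castSucc]
    have e2 : ∀ i : Fin n, (Fin.snoc b x : Fin (n+1) → A₀) i.castSucc = b i :=
      fun i => by rw [Fin.snoc_castSucc]
    have e3 : (Fin.snoc b x : Fin (n+1) → A₀) (Fin.last n) = x := by rw [Fin.snoc_last]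
    refine ⟨⟨⟨n+1, Fin.snoc a m, Fin.snoc b x⟩, ?_, g, hg, ?_⟩,
      fun i => ⟨i.castSucc, (e1 i).symm, (e2 i).symm⟩, ⟨Fin.last n, e3⟩⟩
    · rw [Fin.snoc_injective_iff]
      exact ⟨ha, by rintro ⟨i, hi⟩; exact hmr i hi⟩
    · intro i
      induction i using Fin.lastCases with
      | last => simp only [Fin.snoc_last]; exact hm
      | cast i => simp only [Fin.snoc_castSucc]; exact (hab i).mono hfg

end Pool.Agent.TH767.B
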