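import Mathlib
import Pool.Agent.TH767.B.Bounding
import Pool.Agent.TH767.B.LS

/-!
Cardinality of the language, and the cardinality bounds on structures
back-and-forth equivalent to a model.
-/

namespace Pool.Agent.TH767.B

open FirstOrder FirstOrder.Language FirstOrder.Language.Structure Function Cardinal

theorem countable_rel {L : FirstOrder.Language.{0,0}} (h : L.card ≤ ℵ₀) :
    Countable (Σ n, L.Relations n) := by
  have h0 : Countable L.Symbols := Cardinal.mk_le_aleph0_iff.1 h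
  exact Function.Injective.countable (f := fun z => (Sum.inr z : L.Symbols)) Sum.inr_injective

/-- A code for the own symbols. -/
def ownCode : (Σ n, Own n) → ℕ
  | ⟨_, Own.isM⟩ => 0
  | ⟨_, Own.isY⟩ => 1
  | ⟨_, Own.proj⟩ => 2
  | ⟨_, Own.colr⟩ => 3
  | ⟨_, Own.clo⟩ => 4
  | ⟨_, Own.dd n⟩ => n + 5

theorem ownCode_inj : Injective ownCode := by
  rintro ⟨n, a⟩ ⟨m, b⟩ h
  cases a <;> cases b <;> simp only [ownCode] at h <;> first | rfl | omega | skip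
  have : ∀ k l : ℕ, k + 5 = l + 5 → (⟨2, Own.dd k⟩ : Σ n, Own n) = ⟨2, Own.dd l⟩ := by
    intro k l hkl
    have : k = l := by omega
    rw [this]
  exact this _ _ h

theorem card_LL {L₀ L₁ : FirstOrder.Language.{0,0}} (h₀ : L₀.card ≤ ℵ₀) (h₁ : L₁.card ≤ ℵ₀) :
    (LL L₀ L₁).card ≤ ℵ₀ := by
  have c0 := countable_rel h₀
  have c1 := countable_rel h₁
  have c2 : Countable (Σ n, Own n) := ownCode_inj.countable
  have c3 : Countable ((Σ n, L₀.Relations n) ⊕ ((Σ n, L₁.Relations n) ⊕ (Σ n, Own n))) :=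
    inferInstance
  have c4 : Countable (Σ n, (LL L₀ L₁).Relations n) := by
    refine Function.Injective.countable (f := fun z : (Σ n, (LL L₀ L₁).Relations n) =>
      (match z with
        | ⟨n, Sum.inl R⟩ => Sum.inl ⟨n, R⟩
        | ⟨n, Sum.inr (Sum.inl R)⟩ => Sum.inr (Sum.inl ⟨n, R⟩)
        | ⟨n, Sum.inr (Sum.inr R)⟩ => Sum.inr (Sum.inr ⟨n, R⟩) :
          (Σ n, L₀.Relations n) ⊕ ((Σ n, L₁.Relations n) ⊕ (Σ n, Own n)))) ?_
    rintro ⟨n, R | R | R⟩ ⟨m, T | T | T⟩ h <;> simp only [reduceCtorEq, Sum.inl.injEq,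
      Sum.inr.injEq, Sigma.mk.injEq] at h
    all_goals
      obtain ⟨rfl, h⟩ := h
      rw [heq_eq_eq] at h
      rw [h]
  have c5 : IsEmpty (Σ n, (LL L₀ L₁).Functions n) := ⟨fun z => Empty.elim z.2⟩
  have c6 : Countable (LL L₀ L₁).Symbols :=
    inferInstanceAs (Countable ((Σ n, (LL L₀ L₁).Functions n) ⊕ (Σ n, (LL L₀ L₁).Relations n)))
  exact Cardinal.mk_le_aleph0_iff.2 c6

section Bd

variable {L₀ L₁ : FirstOrder.Language.{0,0}} [L₀.IsRelational] [L₁.IsRelational]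
  {M V Y : Type} [L₀.Structure M] [L₁.Structure Y]
  {π : V → Y} {σ : Str M V} {A : Type} [(LL L₀ L₁).Structure A]

theorem bound_MA [Countable M] (h : BFE (LL L₀ L₁) (Car π σ) A) {κ : Cardinal.{0}}
    (hκ : ℵ₀ ≤ κ) (hb : ∀ (B : Type) (_ : L₀.Structure B), BFE L₀ M B → #B ≠ Order.succ κ) :
    #(MA L₀ L₁ A) ≤ κ := by
  by_contra hlt
  push Not at hlt
  obtain ⟨A₀, s, h1, h2⟩ := ls (bfe_MA h) (hκ.trans (Order.le_succ κ)) (Order.succ_le_of_lt hlt)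
  exact hb A₀ s h2 h1

theorem nonempty_MA [Nonempty M] (h : BFE (LL L₀ L₁) (Car π σ) A) : Nonempty (MA L₀ L₁ A) := by
  obtain ⟨S, ⟨f₀, hf₀⟩, -, hF, hB⟩ := h
  obtain ⟨m⟩ := ‹Nonempty M›
  obtain ⟨g, hg, -, hgd⟩ := hF f₀ hf₀ (Sum.inl m)
  obtain ⟨a, ha⟩ := exists_mp hgd
  exact ⟨⟨a, (rel1 (ow L₀ L₁ Own.isM) ha).1 ⟨m, rfl⟩⟩⟩

theorem bound_VA [Nonempty M] {U : Set Y} (hM : Mdl U π σ) (h : BFE (LL L₀ L₁) (Car π σ) A)
    {κ : Cardinal.{0}} (hκ : ℵ₁ ≤ κ) (hMA : #(MA L₀ L₁ A) ≤ κ) : #(VA L₀ L₁ A) ≤ κ := by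
  obtain ⟨m₀⟩ := nonempty_MA h
  refine card_le_of_good (σA L₀ L₁ A m₀) (good_σA h hM.good m₀) (fin_σA h ?_ m₀) hκ hMA
  intro v v' hne
  obtain ⟨S', h1, h2, h3⟩ := hM.fin {v, v'} (by simp)
  refine h2.subset ?_
  intro u hu
  exact h3 v (h1 (by simp)) v' (h1 (by simp)) u hne hu

/-- A label symbol as a symbol of the combined language. -/
def lb (L₀ : FirstOrder.Language.{0,0}) {L₁ : FirstOrder.Language.{0,0}} {n : ℕ}
    (R : L₁.Relations n) : (LL L₀ L₁).Relations n := Sum.inr (Sum.inl R)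

/-- The labels in use. -/
abbrev UA (L₀ L₁ : FirstOrder.Language.{0,0}) (u : L₁.Relations 1) (A : Type)
    [(LL L₀ L₁).Structure A] : Type :=
  {y : YA L₀ L₁ A // RelMap (lb L₀ u) ![y.1]}

theorem proj_iff {v : V} {y : Y} :
    RelMap (ow L₀ L₁ Own.proj) ![cV π σ v, cY π σ y] ↔ π v = y := by
  constructor
  · rintro ⟨x, h1, h2⟩
    have h1' : v = x := Sum.inl.inj (Sum.inr.inj h1)
    subst h1'
    exact (Sum.inr.inj (Sum.inr.inj h2)).symm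
  · rintro rfl
    exact ⟨v, rfl, rfl⟩

theorem bound_UA [Nonempty M] (u : L₁.Relations 1) (hM : Mdl {y | RelMap u ![y]} π σ)
    (h : BFE (LL L₀ L₁) (Car π σ) A) : #(UA L₀ L₁ u A) ≤ #(VA L₀ L₁ A) := by
  obtain ⟨S, ⟨f₀, hf₀⟩, -, hF, hB⟩ := h
  have hB' : Back S := hB
  have h1 : ∀ y : UA L₀ L₁ u A, ∃ v : VA L₀ L₁ A, RelMap (ow L₀ L₁ Own.proj) ![v.1, y.1.1] := by
    intro y
    obtain ⟨f, hf, -, hfc⟩ := hB f₀ hf₀ y.1.1
    obtain ⟨z, hz⟩ := exists_mp' hfc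
    obtain ⟨y₀, rfl⟩ := pre_Y y.1 hz
    have hy₀ : RelMap u ![y₀] := by
      have h2 := (rel1 (lb L₀ u) hz).2 y.2
      obtain ⟨b, hb, hR⟩ := h2
      have h3 : b = ![y₀] := by
        funext i
        fin_cases i
        exact (Sum.inr.inj (Sum.inr.inj (hb 0))).symm
      rw [← h3]; exact hR
    obtain ⟨m⟩ := ‹Nonempty M›
    let χ : Str M (Fin 0 ⊕ Fin 1) := ⟨fun _ _ => m, fun _ _ => 0, fun _ _ _ => False⟩
    obtain ⟨t, -, ht⟩ := hM.ext (m := 0) (k := 1) (fun i => i.elim0) χ (fun _ => y₀)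
      (fun _ => hy₀) (by
        intro m w x y hb
        have h4 := hb.hx 0
        apply h4
        rcases x 0 with i | i
        · exact i.elim0
        · rcases w with j | j
          · exact j.elim0
          · rw [Subsingleton.elim i j])
      ⟨Sum.inl_injective, fun x => x.elim0, fun x => x.elim0, fun x => x.elim0,
        fun x => x.elim0⟩
      ⟨fun x => x.elim0, fun x => x.elim0, fun x => x.elim0, fun x => x.elim0,
        fun x => x.elim0⟩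
    obtain ⟨g, hg, hfg, hgd⟩ := hF f hf (cV π σ (t 0))
    obtain ⟨a, ha⟩ := exists_mp hgd
    refine ⟨⟨a, ?_, ?_⟩, ?_⟩
    · intro h5
      obtain ⟨m, hm⟩ := (rel1 (ow L₀ L₁ Own.isM) ha).2 h5
      cases hm
    · intro h5
      obtain ⟨m, hm⟩ := (rel1 (ow L₀ L₁ Own.isY) ha).2 h5
      cases hm
    · rw [← rel2 (ow L₀ L₁ Own.proj) ha (hz.mono hfg)]
      exact proj_iff.2 (ht 0)
  choose v hv using h1
  refine mk_le_of_injective (f := v) ?_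
  intro y y' hyy
  obtain ⟨f, hf, -, hfc⟩ := Back.finite (S := S) hB' hf₀ {(v y).1, y.1.1, y'.1.1} (by simp)
  obtain ⟨z, hz⟩ := exists_mp' (hfc (v y).1 (by simp))
  obtain ⟨z1, hz1⟩ := exists_mp' (hfc y.1.1 (by simp))
  obtain ⟨z2, hz2⟩ := exists_mp' (hfc y'.1.1 (by simp))
  obtain ⟨x, rfl⟩ := pre_V _ hz
  obtain ⟨x1, rfl⟩ := pre_Y _ hz1
  obtain ⟨x2, rfl⟩ := pre_Y _ hz2
  have e1 := hv y
  have e2 := hv y'
  rw [← hyy] at e2
  rw [← rel2 (ow L₀ L₁ Own.proj) hz hz1] at e1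
  rw [← rel2 (ow L₀ L₁ Own.proj) hz hz2] at e2
  have e3 : π x = x1 := proj_iff.1 e1
  have e4 : π x = x2 := proj_iff.1 e2
  rw [e3] at e4
  subst e4
  exact Subtype.ext (Subtype.ext (hz1.fun hz2))

theorem bound_A {κ : Cardinal.{0}} (hκ : ℵ₀ ≤ κ) (h1 : #(MA L₀ L₁ A) ≤ κ)
    (h2 : #(VA L₀ L₁ A) ≤ κ) (h3 : #(YA L₀ L₁ A) ≤ κ) : #A ≤ κ := by
  classical
  have h4 : #A ≤ #(MA L₀ L₁ A ⊕ (VA L₀ L₁ A ⊕ YA L₀ L₁ A)) := by
    refine mk_le_of_surjective (f := fun z : MA L₀ L₁ A ⊕ (VA L₀ L₁ A ⊕ YA L₀ L₁ A) =>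
      (match z with
        | Sum.inl a => a.1
        | Sum.inr (Sum.inl a) => a.1
        | Sum.inr (Sum.inr a) => a.1 : A)) ?_
    intro a
    by_cases hM : RelMap (ow L₀ L₁ Own.isM) ![a]
    · exact ⟨Sum.inl ⟨a, hM⟩, rfl⟩
    · by_cases hY : RelMap (ow L₀ L₁ Own.isY) ![a]
      · exact ⟨Sum.inr (Sum.inr ⟨a, hY⟩), rfl⟩
      · exact ⟨Sum.inr (Sum.inl ⟨a, hM, hY⟩), rfl⟩
  refine h4.trans ?_
  rw [mk_sum, mk_sum]
  simp only [Cardinal.lift_id]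
  exact add_le_of_le hκ h1 (add_le_of_le hκ h2 h3)

end Bd

end Pool.Agent.TH767.B
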