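import Mathlib
import Pool.Agent.TH767.B.Bd2
import Pool.Agent.TH767.B.Aut

/-!
Permutations of the labels extend to automorphisms.
-/

namespace Pool.Agent.TH767.B

open FirstOrder FirstOrder.Language FirstOrder.Language.Structure Function Cardinal

attribute [local instance] pureStr

theorem intA_map {L₀ : FirstOrder.Language.{0,0}} {M V Y : Type} [L₀.Structure M]
    {π : V → Y} {σ : Str M V} (g : V ≃ V) (τ : Y ≃ Y) (F : Car π σ → Car π σ)
    (hF0 : ∀ m, F (cM π σ m) = cM π σ m) (hF1 : ∀ v, F (cV π σ v) = cV π σ (g v))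
    (hF2 : ∀ y, F (cY π σ y) = cY π σ (τ y))
    (h1 : ∀ v, π (g v) = τ (π v))
    (h2 : ∀ v v', v ≠ v' → σ.c (g v) (g v') = σ.c v v')
    (h3 : ∀ v v', v ≠ v' → σ.d (g v) (g v') = σ.d v v')
    (h4 : ∀ v v' u, v ≠ v' → (σ.F (g v) (g v') (g u) ↔ σ.F v v' u)) {n : ℕ}
    (R : L₀.Relations n ⊕ (LP.Relations n ⊕ Own n)) (x : Fin n → Car π σ)
    (h : intA π σ R x) : intA π σ R (F ∘ x) := by
  rcases R with R | R | R
  · obtain ⟨b, hb, hR⟩ := h
    exact ⟨b, fun i => (congrArg F (hb i)).trans (hF0 _), hR⟩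
  · obtain ⟨b, hb, hR⟩ := h
    exact ⟨τ ∘ b, fun i => (congrArg F (hb i)).trans (hF2 _), trivial⟩
  · cases R with
    | isM =>
      obtain ⟨m, hm⟩ := h
      exact ⟨m, (congrArg F hm).trans (hF0 _)⟩
    | isY =>
      obtain ⟨y, hy⟩ := h
      exact ⟨τ y, (congrArg F hy).trans (hF2 _)⟩
    | proj =>
      obtain ⟨v, hv, hp⟩ := h
      refine ⟨g v, (congrArg F hv).trans (hF1 v), ?_⟩
      refine (congrArg F hp).trans ((hF2 _).trans ?_)
      rw [h1]
      rfl
    | colr =>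
      obtain ⟨v, v', hne, hv, hv', hc⟩ := h
      refine ⟨g v, g v', fun e => hne (g.injective e), (congrArg F hv).trans (hF1 _),
        (congrArg F hv').trans (hF1 _), ?_⟩
      rw [h2 _ _ hne]
      exact (congrArg F hc).trans (hF0 _)
    | dd k =>
      obtain ⟨v, v', hne, hv, hv', hc⟩ := h
      refine ⟨g v, g v', fun e => hne (g.injective e), (congrArg F hv).trans (hF1 _),
        (congrArg F hv').trans (hF1 _), ?_⟩
      rw [h3 _ _ hne]
      exact hc
    | clo =>
      obtain ⟨v, v', u, hne, hv, hv', hu, hc⟩ := h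
      refine ⟨g v, g v', g u, fun e => hne (g.injective e), (congrArg F hv).trans (hF1 _),
        (congrArg F hv').trans (hF1 _), (congrArg F hu).trans (hF1 _), ?_⟩
      exact (h4 _ _ _ hne).2 hc

theorem aut_car {L₀ : FirstOrder.Language.{0,0}} {M V Y : Type} [L₀.Structure M] [Countable V]
    {U : Set Y} {π : V → Y} {σ : Str M V} (hM : Mdl U π σ) (hU : ∀ y, y ∈ U) (τ : Y ≃ Y) :
    ∃ e : (LL L₀ LP).Equiv (Car π σ) (Car π σ), ∀ y, e (cY π σ y) = cY π σ (τ y) := by
  obtain ⟨g, h1, h2, h3, h4⟩ := exists_iso (τ := τ) hM (fun y => ⟨fun _ => hU _, fun _ => hU _⟩)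
  let E : Car π σ ≃ Car π σ := Equiv.sumCongr (Equiv.refl M) (Equiv.sumCongr g τ)
  refine ⟨⟨E, fun f => Empty.elim f, ?_⟩, fun y => rfl⟩
  intro n R x
  constructor
  · intro h
    have hs : E.symm ∘ (E ∘ x) = x := by
      funext i
      exact E.symm_apply_apply (x i)
    have h5 : intA π σ R (E.symm ∘ (E ∘ x)) := by
      refine intA_map g.symm τ.symm E.symm (fun _ => rfl) (fun _ => rfl) (fun _ => rfl)
        ?_ ?_ ?_ ?_ R _ h
      · intro v
        rw [Equiv.eq_symm_apply, ← h1, Equiv.apply_symm_apply]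
      · intro v v' hne
        rw [← h2 (g.symm v) (g.symm v') (fun e => hne (g.symm.injective e))]
        simp
      · intro v v' hne
        rw [← h3 (g.symm v) (g.symm v') (fun e => hne (g.symm.injective e))]
        simp
      · intro v v' u hne
        rw [← h4 (g.symm v) (g.symm v') (g.symm u) (fun e => hne (g.symm.injective e))]
        simp
    rw [hs] at h5
    exact h5
  · intro h
    exact intA_map g τ E (fun _ => rfl) (fun _ => rfl) (fun _ => rfl) h1 h2 h3 h4 R x h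

/-- The labels as a sort of the model. -/
noncomputable def yEquiv {L₀ L₁ : FirstOrder.Language.{0,0}} {M V Y : Type} [L₀.Structure M]
    [L₁.Structure Y] (π : V → Y) (σ : Str M V) :
    Y ≃ {x : Car π σ // RelMap (ow L₀ L₁ Own.isY) ![x]} :=
  Equiv.ofBijective (fun y => ⟨cY π σ y, y, rfl⟩) ⟨by
    intro y y' h
    exact Sum.inr.inj (Sum.inr.inj (congrArg Subtype.val h)), by
    rintro ⟨x, y, hy⟩
    have hy' : x = cY π σ y := hy
    subst hy'
    exact ⟨y, rfl⟩⟩

theorem yEquiv_apply {L₀ L₁ : FirstOrder.Language.{0,0}} {M V Y : Type} [L₀.Structure M]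
    [L₁.Structure Y] (π : V → Y) (σ : Str M V) (y : Y) :
    (yEquiv (L₀ := L₀) (L₁ := L₁) π σ y).1 = cY π σ y := rfl

/-- Every permutation of the sort of labels extends to an automorphism. -/
theorem aut_isY {L₀ : FirstOrder.Language.{0,0}} {M V Y : Type} [L₀.Structure M] [Countable V]
    {U : Set Y} {π : V → Y} {σ : Str M V} (hM : Mdl U π σ) (hU : ∀ y, y ∈ U)
    (ρ : Equiv.Perm {x : Car π σ // RelMap (ow L₀ LP Own.isY) ![x]}) :
    ∃ e : (LL L₀ LP).Equiv (Car π σ) (Car π σ),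
      ∀ x : {x : Car π σ // RelMap (ow L₀ LP Own.isY) ![x]}, e x.1 = (ρ x).1 := by
  let E := yEquiv (L₀ := L₀) (L₁ := LP) π σ
  let τ : Y ≃ Y := E.trans (ρ.trans E.symm)
  obtain ⟨e, he⟩ := aut_car (L₀ := L₀) hM hU τ
  refine ⟨e, ?_⟩
  intro x
  obtain ⟨y, rfl⟩ := E.surjective x
  have h1 : E (τ y) = ρ (E y) := by simp [τ]
  rw [← h1]
  exact he y

end Pool.Agent.TH767.B
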