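import Mathlib
import Pool.Agent.TH767.B.PE

/-!
Characterizable and homogeneously characterizable cardinals.

A complete sentence of `L_{ω₁,ω}` over a countable language `L` is given by its countable model
`M`; its models are the `L`-structures back-and-forth equivalent to `M` (relation `BFE L M A`).
-/

namespace Pool.Agent.TH767.B

open FirstOrder FirstOrder.Language Cardinal

/-- `κ` is characterizable: some complete sentence has models in all infinite cardinalities `≤ κ`
and no model of cardinality `κ⁺`. -/
def Ch (κ : Cardinal.{0}) : Prop :=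
  ℵ₀ ≤ κ ∧ ∃ (L : FirstOrder.Language.{0,0}) (M : Type) (_ : L.Structure M),
    L.card ≤ ℵ₀ ∧ Countable M ∧
    (∀ μ : Cardinal.{0}, ℵ₀ ≤ μ → μ ≤ κ →
      ∃ (A : Type) (_ : L.Structure A), #A = μ ∧ BFE L M A) ∧
    (∀ (A : Type) (_ : L.Structure A), BFE L M A → #A ≠ Order.succ κ)

/-- `κ` is homogeneously characterizable: some complete sentence has no model of cardinality
`> κ`, a unary predicate `P` is infinite and completely homogeneous for its countable model, and
some model has exactly `κ` elements satisfying `P`. -/
def HomCh (κ : Cardinal.{0}) : Prop :=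
  ∃ (L : FirstOrder.Language.{0,0}) (M : Type) (_ : L.Structure M),
    L.card ≤ ℵ₀ ∧ Countable M ∧
    ∃ P : L.Relations 1,
      Set.Infinite {x : M | Structure.RelMap P ![x]} ∧
      (∀ σ : Equiv.Perm {x : M // Structure.RelMap P ![x]},
        ∃ e : L.Equiv M M, ∀ x : {x : M // Structure.RelMap P ![x]}, e x.1 = (σ x).1) ∧
      (∀ (A : Type) (_ : L.Structure A), BFE L M A → #A ≤ κ) ∧
      (∃ (A : Type) (_ : L.Structure A), BFE L M A ∧
        #{a : A // Structure.RelMap P ![a]} = κ)

end Pool.Agent.TH767.B
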