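import Mathlib
import Pool.Agent.TH767.B.PE

/-!
Passing from an arbitrary countable language to a relational one.
-/

namespace Pool.Agent.TH767.B

open FirstOrder FirstOrder.Language FirstOrder.Language.Structure Function

/-- The relational language of atomic formulas. -/
def LR (L : FirstOrder.Language.{0,0}) : FirstOrder.Language.{0,0} :=
  ⟨fun _ => Empty, fun n => (L.Term (Fin n) × L.Term (Fin n)) ⊕
    (Σ k, L.Relations k × (Fin k → L.Term (Fin n)))⟩

instance (L : FirstOrder.Language.{0,0}) : (LR L).IsRelational :=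
  fun _ => inferInstanceAs (IsEmpty Empty)

/-- The relational structure of atomic formulas. -/
def strR (L : FirstOrder.Language.{0,0}) (M : Type) [L.Structure M] : (LR L).Structure M where
  funMap f := Empty.elim f
  RelMap {n} R x := match R with
    | Sum.inl tt => tt.1.realize x = tt.2.realize x
    | Sum.inr r => RelMap r.2.1 (fun i => (r.2.2 i).realize x)

section

variable {L : FirstOrder.Language.{0,0}} {M N : Type} [L.Structure M] [L.Structure N]

theorem Mp.term {f : L.PartialEquiv M N} {α : Type} (t : L.Term α) {a : α → M} {b : α → N}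
    (h : ∀ i, Mp f (a i) (b i)) : Mp f (t.realize a) (t.realize b) := by
  induction t with
  | var i => exact h i
  | func F ts ih =>
    have h1 : ∀ i, (ts i).realize a ∈ f.dom := fun i => (ih i).1
    have h2 : funMap F (fun i => (ts i).realize a) ∈ f.dom := f.dom.fun_mem F _ h1
    refine ⟨h2, ?_⟩
    have h3 := f.toEquiv.map_fun F (fun i => ⟨(ts i).realize a, h1 i⟩)
    have h4 := congrArg Subtype.val h3
    have h5 : ((f.toEquiv (funMap F (fun i => ⟨(ts i).realize a, h1 i⟩)) : f.cod) : N) =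
        funMap F (fun i => ((f.toEquiv ⟨(ts i).realize a, h1 i⟩ : f.cod) : N)) := h4
    have h6 : (fun i => ((f.toEquiv ⟨(ts i).realize a, h1 i⟩ : f.cod) : N)) =
        fun i => (ts i).realize b := by
      funext i; exact (ih i).2
    rw [h6] at h5
    exact h5

/-- Tuples with the same atomic type generate isomorphic substructures. -/
theorem exists_gen {α : Type} (a : α → M) (b : α → N)
    (h1 : ∀ t t' : L.Term α, t.realize a = t'.realize a ↔ t.realize b = t'.realize b)
    (h2 : ∀ {k} (R : L.Relations k) (ts : Fin k → L.Term α),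
      RelMap R (fun i => (ts i).realize a) ↔ RelMap R (fun i => (ts i).realize b)) :
    ∃ f : L.PartialEquiv M N, (∀ x y, Mp f x y ↔ ∃ t : L.Term α, t.realize a = x ∧
      t.realize b = y) := by
  let D : L.Substructure M := ⟨Set.range (fun t : L.Term α => t.realize a), by
    intro n F x hx
    have hx' : ∀ i, ∃ t : L.Term α, t.realize a = x i := hx
    choose ts hts using hx'
    refine ⟨Term.func F ts, ?_⟩
    change funMap F (fun i => (ts i).realize a) = _
    congr 1
    funext i; exact hts i⟩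
  let E : L.Substructure N := ⟨Set.range (fun t : L.Term α => t.realize b), by
    intro n F x hx
    have hx' : ∀ i, ∃ t : L.Term α, t.realize b = x i := hx
    choose ts hts using hx'
    refine ⟨Term.func F ts, ?_⟩
    change funMap F (fun i => (ts i).realize b) = _
    congr 1
    funext i; exact hts i⟩
  have hD : ∀ x : D, ∃ y : E, ∃ t : L.Term α, t.realize a = x ∧ t.realize b = y := by
    rintro ⟨x, t, ht⟩
    exact ⟨⟨t.realize b, t, rfl⟩, t, ht, rfl⟩
  have hE : ∀ y : E, ∃ x : D, ∃ t : L.Term α, t.realize a = x ∧ t.realize b = y := by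
    rintro ⟨y, t, ht⟩
    exact ⟨⟨t.realize a, t, rfl⟩, t, rfl, ht⟩
  choose F tF hF1 hF2 using hD
  choose G tG hG1 hG2 using hE
  have hFu : ∀ (x : D) (t : L.Term α), t.realize a = x → t.realize b = F x := by
    intro x t ht
    rw [← hF2 x]
    exact (h1 _ _).1 (ht.trans (hF1 x).symm)
  let e : D ≃ E := ⟨F, G, by
    intro x
    apply Subtype.ext
    rw [← hG1 (F x), ← hF1 x]
    exact (h1 _ _).2 ((hG2 _).trans (hF2 x).symm), by
    intro y
    apply Subtype.ext
    rw [← hG2 y]
    exact (hFu _ _ (hG1 y)).symm⟩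
  refine ⟨⟨D, E, ⟨e, ?_, ?_⟩⟩, ?_⟩
  · intro n φ x
    apply Subtype.ext
    have h3 : (Term.func φ (fun i => tF (x i))).realize a = ((funMap φ x : D) : M) := by
      change funMap φ (fun i => (tF (x i)).realize a) = funMap φ (fun i => (x i : M))
      congr 1
      funext i; exact hF1 _
    have h4 := hFu _ _ h3
    change ((F (funMap φ x) : E) : N) = funMap φ (fun i => ((F (x i) : E) : N))
    rw [← h4]
    change funMap φ (fun i => (tF (x i)).realize b) = _
    congr 1
    funext i; exact hF2 _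
  · intro n R x
    have h3 := h2 R (fun i => tF (x i))
    have e1 : (fun i => (tF (x i)).realize a) = fun i => (x i : M) := by
      funext i; exact hF1 _
    have e2 : (fun i => (tF (x i)).realize b) = fun i => ((F (x i) : E) : N) := by
      funext i; exact hF2 _
    rw [e1, e2] at h3
    exact h3.symm
  · intro x y
    constructor
    · rintro ⟨h, rfl⟩
      exact ⟨tF ⟨x, h⟩, hF1 _, hF2 _⟩
    · rintro ⟨t, rfl, rfl⟩
      exact ⟨⟨t, rfl⟩, (hFu ⟨_, t, rfl⟩ t rfl).symm⟩

/-- Back-and-forth equivalence passes to the relational structures. -/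
theorem bfe_strR (h : BFE L M N) : @BFE (LR L) M N (strR L M) (strR L N) := by
  let _ := strR L M
  let _ := strR L N
  obtain ⟨S, ⟨f₀, hf₀⟩, -, hF, hB⟩ := h
  let St : Type := {z : (L.PartialEquiv M N) × (Σ n : ℕ, (Fin n → M) × (Fin n → N)) //
    z.1 ∈ S ∧ Injective z.2.2.1 ∧ ∀ i, Mp z.1 (z.2.2.1 i) (z.2.2.2 i)}
  refine bfe_of (L := LR L) (St := St) (fun z => Fin z.1.2.1) (fun z => z.1.2.2.1)
    (fun z => z.1.2.2.2)
    ⟨(f₀, ⟨0, Fin.elim0, Fin.elim0⟩), hf₀, fun i => i.elim0, fun i => i.elim0⟩ ?_ ?_ ?_ ?_ ?_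
  · intro z; exact z.2.2.1
  · rintro ⟨⟨f, n, a, b⟩, hf, ha, hab⟩ i j hij
    have h1 := hab i
    have h2 := hab j
    simp only at hij h1 h2
    rw [hij] at h1
    exact ha (h1.inj h2)
  · rintro ⟨⟨f, n, a, b⟩, hf, ha, hab⟩ k R x
    rcases R with ⟨t, t'⟩ | ⟨l, R, ts⟩
    · have h1 : Mp f (t.realize (a ∘ x)) (t.realize (b ∘ x)) := Mp.term t (fun i => hab (x i))
      have h2 : Mp f (t'.realize (a ∘ x)) (t'.realize (b ∘ x)) :=
        Mp.term t' (fun i => hab (x i))
      change t.realize (a ∘ x) = t'.realize (a ∘ x) ↔ t.realize (b ∘ x) = t'.realize (b ∘ x)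
      constructor
      · intro h; rw [h] at h1; exact h1.fun h2
      · intro h; rw [h] at h1; exact h1.inj h2
    · change RelMap R (fun i => (ts i).realize (a ∘ x)) ↔
        RelMap R (fun i => (ts i).realize (b ∘ x))
      exact Mp.rel R (fun i => Mp.term (ts i) (fun i => hab (x i)))
  · rintro ⟨⟨f, n, a, b⟩, hf, ha, hab⟩ m
    by_cases hm : ∃ i, a i = m
    · exact ⟨⟨(f, ⟨n, a, b⟩), hf, ha, hab⟩, fun i => ⟨i, rfl, rfl⟩, hm⟩
    push Not at hm
    obtain ⟨g, hg, hfg, hmd⟩ := hF f hf m
    obtain ⟨y, hy⟩ := exists_mp hmd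
    have e1 : ∀ i : Fin n, (Fin.snoc a m : Fin (n+1) → M) i.castSucc = a i := fun i => by
      rw [Fin.snoc_castSucc]
    have e2 : ∀ i : Fin n, (Fin.snoc b y : Fin (n+1) → N) i.castSucc = b i :=
      fun i => by rw [Fin.snoc_castSucc]
    have e3 : (Fin.snoc a m : Fin (n+1) → M) (Fin.last n) = m := by rw [Fin.snoc_last]
    refine ⟨⟨(g, ⟨n+1, Fin.snoc a m, Fin.snoc b y⟩), hg, ?_, ?_⟩,
      fun i => ⟨i.castSucc, (e1 i).symm, (e2 i).symm⟩, ⟨Fin.last n, e3⟩⟩
    · rw [Fin.snoc_injective_iff]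
      exact ⟨ha, by rintro ⟨i, hi⟩; exact hm i hi⟩
    · intro i
      induction i using Fin.lastCases with
      | last => simp only [Fin.snoc_last]; exact hy
      | cast i => simp only [Fin.snoc_castSucc]; exact (hab i).mono hfg
  · rintro ⟨⟨f, n, a, b⟩, hf, ha, hab⟩ y
    obtain ⟨g, hg, hfg, hyc⟩ := hB f hf y
    obtain ⟨m, hy⟩ := exists_mp' hyc
    by_cases hm : ∃ i, a i = m
    · obtain ⟨i, rfl⟩ := hm
      exact ⟨⟨(f, ⟨n, a, b⟩), hf, ha, hab⟩, fun i => ⟨i, rfl, rfl⟩, i,
        ((hab i).mono hfg).fun hy⟩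
    push Not at hm
    have e1 : ∀ i : Fin n, (Fin.snoc a m : Fin (n+1) → M) i.castSucc = a i := fun i => by
      rw [Fin.snoc_castSucc]
    have e2 : ∀ i : Fin n, (Fin.snoc b y : Fin (n+1) → N) i.castSucc = b i :=
      fun i => by rw [Fin.snoc_castSucc]
    have e3 : (Fin.snoc b y : Fin (n+1) → N) (Fin.last n) = y := by rw [Fin.snoc_last]
    refine ⟨⟨(g, ⟨n+1, Fin.snoc a m, Fin.snoc b y⟩), hg, ?_, ?_⟩,
      fun i => ⟨i.castSucc, (e1 i).symm, (e2 i).symm⟩, ⟨Fin.last n, e3⟩⟩
    · rw [Fin.snoc_injective_iff]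
      exact ⟨ha, by rintro ⟨i, hi⟩; exact hm i hi⟩
    · intro i
      induction i using Fin.lastCases with
      | last => simp only [Fin.snoc_last]; exact hy
      | cast i => simp only [Fin.snoc_castSucc]; exact (hab i).mono hfg

end

end Pool.Agent.TH767.B
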