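import Mathlib
import Pool.Agent.TH767.B.Relz

/-!
From the relational language back to the original one.
-/

namespace Pool.Agent.TH767.B

open FirstOrder FirstOrder.Language FirstOrder.Language.Structure Function

theorem card_LR {L : FirstOrder.Language.{0,0}} (h : L.card ≤ Cardinal.aleph0) :
    (LR L).card ≤ Cardinal.aleph0 := by
  have h0 : Countable L.Symbols := Cardinal.mk_le_aleph0_iff.1 h
  have h1 : Countable (Σ l, L.Functions l) :=
    Function.Injective.countable (f := fun z => (Sum.inl z : L.Symbols)) Sum.inl_injective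
  have h2 : Countable (Σ l, L.Relations l) :=
    Function.Injective.countable (f := fun z => (Sum.inr z : L.Symbols)) Sum.inr_injective
  have h2' : ∀ l, Countable (L.Relations l) := fun l =>
    Function.Injective.countable (f := fun z => (⟨l, z⟩ : Σ l, L.Relations l)) (by
      intro x y h; simpa using h)
  have h3 : ∀ n, Countable (L.Term (Fin n)) := fun n => inferInstance
  have h4 : ∀ n, Countable ((LR L).Relations n) := by
    intro n
    have : Countable ((L.Term (Fin n) × L.Term (Fin n)) ⊕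
      (Σ k, L.Relations k × (Fin k → L.Term (Fin n)))) := inferInstance
    exact this
  have h5 : Countable (Σ n, (LR L).Relations n) := inferInstance
  have h6 : ∀ n, IsEmpty ((LR L).Functions n) := fun n => inferInstanceAs (IsEmpty Empty)
  have h7 : Countable (LR L).Symbols := by
    unfold FirstOrder.Language.Symbols
    infer_instance
  exact Cardinal.mk_le_aleph0

theorem exists_str {L : FirstOrder.Language.{0,0}} {M B : Type} [L.Structure M]
    [strB : (LR L).Structure B] (h : @BFE (LR L) M B (strR L M) strB) :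
    ∃ s : L.Structure B, @BFE L M B _ s := by
  let _ := strR L M
  obtain ⟨S, ⟨f₀, hf₀⟩, -, hF, hB⟩ := h
  have hF' : Forth S := hF
  have hB' : Back S := hB
  -- the symbol for the graph of a function
  let gr : ∀ {n}, L.Functions n → (LR L).Relations (n+1) := fun {n} F =>
    Sum.inl (Term.func F (fun i => Term.var i.castSucc), Term.var (Fin.last n))
  have hgr : ∀ {n} (F : L.Functions n) (x : Fin n → M) (y : M),
      RelMap (gr F) (Fin.snoc x y : Fin (n+1) → M) ↔ funMap F x = y := by
    intro n F x y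
    change funMap F (fun i => (Fin.snoc x y : Fin (n+1) → M) i.castSucc) =
      (Fin.snoc x y : Fin (n+1) → M) (Fin.last n) ↔ _
    have e1 : (fun i : Fin n => (Fin.snoc x y : Fin (n+1) → M) i.castSucc) = x := by
      funext i; rw [Fin.snoc_castSucc]
    rw [e1, Fin.snoc_last]
  have hsnoc : ∀ {n} (g : (LR L).PartialEquiv M B) (x : Fin n → M) (y : M) (x' : Fin n → B)
      (y' : B), (∀ i, Mp g (x i) (x' i)) → Mp g y y' →
      ∀ i, Mp g ((Fin.snoc x y : Fin (n+1) → M) i) ((Fin.snoc x' y' : Fin (n+1) → B) i) := by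
    intro n g x y x' y' h1 h2 i
    induction i using Fin.lastCases with
    | last => simp only [Fin.snoc_last]; exact h2
    | cast i => simp only [Fin.snoc_castSucc]; exact h1 i
  have hgrB : ∀ {n} (F : L.Functions n) (g : (LR L).PartialEquiv M B) (x : Fin n → M) (y : M)
      (x' : Fin n → B) (y' : B), (∀ i, Mp g (x i) (x' i)) → Mp g y y' →
      (RelMap (gr F) (Fin.snoc x' y' : Fin (n+1) → B) ↔ funMap F x = y) := by
    intro n F g x y x' y' h1 h2
    rw [← hgr F x y]
    exact (Mp.rel (gr F) (hsnoc g x y x' y' h1 h2)).symm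
  have hex : ∀ {n} (F : L.Functions n) (x' : Fin n → B), ∃ y',
      RelMap (gr F) (Fin.snoc x' y' : Fin (n+1) → B) := by
    intro n F x'
    obtain ⟨f, hf, -, hfc⟩ := hB'.finite hf₀ (Set.range x') (Set.finite_range _)
    have h1 : ∀ i, ∃ x, Mp f x (x' i) := fun i => exists_mp' (hfc _ ⟨i, rfl⟩)
    choose x hx using h1
    obtain ⟨g, hg, hfg, hd⟩ := hF' f hf (funMap F x)
    obtain ⟨y', hy'⟩ := exists_mp hd
    exact ⟨y', (hgrB F g x _ x' y' (fun i => (hx i).mono hfg) hy').2 rfl⟩
  let s : L.Structure B :=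
    { funMap := fun F x => (hex F x).choose
      RelMap := fun {n} R x => RelMap (L := LR L)
        (Sum.inr ⟨n, R, fun i => Term.var i⟩ : (LR L).Relations n) x }
  refine ⟨s, ?_⟩
  -- terms
  have key : ∀ {n} (a : Fin n → M) (b : Fin n → B) (t : L.Term (Fin n)), ∀ g ∈ S,
      (∀ i, Mp g (a i) (b i)) → t.realize a ∈ g.dom → Mp g (t.realize a) (t.realize b) := by
    intro n a b t
    induction t with
    | var i => intro g _ h _; exact h i
    | @func l F ts ih =>
      intro g hg hab hd
      obtain ⟨g', hg', hgg', hd'⟩ := hF'.finite hg (Set.range (fun i => (ts i).realize a))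
        (Set.finite_range _)
      have h1 : ∀ i, Mp g' ((ts i).realize a) ((ts i).realize b) := fun i =>
        ih i g' hg' (fun i => (hab i).mono hgg') (hd' _ ⟨i, rfl⟩)
      obtain ⟨y', hy'⟩ := exists_mp hd
      have hy'' := (hex F (fun i => (ts i).realize b)).choose_spec
      obtain ⟨g'', hg'', hgg'', hc⟩ := hB' g' hg' ((hex F (fun i => (ts i).realize b)).choose)
      obtain ⟨y₀, hy₀⟩ := exists_mp' hc
      have h2 := (hgrB F g'' (fun i => (ts i).realize a) y₀ (fun i => (ts i).realize b) _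
        (fun i => (h1 i).mono hgg'') hy₀).1 hy''
      have h3 : (Term.func F ts).realize a = y₀ := h2
      rw [← h3] at hy₀
      have h4 : y' = (hex F (fun i => (ts i).realize b)).choose :=
        ((hy'.mono hgg').mono hgg'').fun hy₀
      rw [h4] at hy'
      exact hy'
  have gen : ∀ {n} (a : Fin n → M) (b : Fin n → B), (∃ f ∈ S, ∀ i, Mp f (a i) (b i)) →
      ∃ h : L.PartialEquiv M B, ∀ x y, Mp h x y ↔ ∃ t : L.Term (Fin n), t.realize a = x ∧
        t.realize b = y := by
    rintro n a b ⟨f, hf, hab⟩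
    refine exists_gen a b ?_ ?_
    · intro t t'
      obtain ⟨g, hg, hfg, hd⟩ := hF'.finite hf {t.realize a, t'.realize a} (by simp)
      have h1 := key a b t g hg (fun i => (hab i).mono hfg) (hd _ (by simp))
      have h2 := key a b t' g hg (fun i => (hab i).mono hfg) (hd _ (by simp))
      constructor
      · intro h; rw [h] at h1; exact h1.fun h2
      · intro h; rw [h] at h1; exact h1.inj h2
    · intro k R ts
      obtain ⟨g, hg, hfg, hd⟩ := hF'.finite hf (Set.range (fun i => (ts i).realize a))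
        (Set.finite_range _)
      have h1 : ∀ i, Mp g ((ts i).realize a) ((ts i).realize b) := fun i =>
        key a b (ts i) g hg (fun i => (hab i).mono hfg) (hd _ ⟨i, rfl⟩)
      exact Mp.rel (L := LR L) (Sum.inr ⟨k, R, fun i => Term.var i⟩ : (LR L).Relations k) h1
  refine ⟨{h | ∃ (n : ℕ) (a : Fin n → M) (b : Fin n → B), (∃ f ∈ S, ∀ i, Mp f (a i) (b i)) ∧
    ∀ x y, Mp h x y ↔ ∃ t : L.Term (Fin n), t.realize a = x ∧ t.realize b = y}, ?_, ?_, ?_, ?_⟩
  · obtain ⟨h, hh⟩ := gen (n := 0) Fin.elim0 Fin.elim0 ⟨f₀, hf₀, fun i => i.elim0⟩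
    exact ⟨h, 0, _, _, ⟨f₀, hf₀, fun i => i.elim0⟩, hh⟩
  · rintro h ⟨n, a, b, -, hh⟩
    refine ⟨(Set.finite_range a).toFinset, ?_⟩
    rw [Set.Finite.coe_toFinset]
    apply le_antisymm
    · rw [Substructure.closure_le]
      rintro x ⟨i, rfl⟩
      exact ((hh _ _).2 ⟨Term.var i, rfl, rfl⟩).dom
    · intro x hx
      obtain ⟨y, hy⟩ := exists_mp hx
      obtain ⟨t, ht, -⟩ := (hh _ _).1 hy
      rw [← ht]
      refine Term.realize_mem t a (fun i => ?_)
      exact Substructure.subset_closure ⟨i, rfl⟩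
  · rintro h ⟨n, a, b, ⟨f, hf, hab⟩, hh⟩ m
    obtain ⟨g, hg, hfg, hd⟩ := hF' f hf m
    obtain ⟨y, hy⟩ := exists_mp hd
    have hab' := hsnoc g a m b y (fun i => (hab i).mono hfg) hy
    obtain ⟨h', hh'⟩ := gen (Fin.snoc a m : Fin (n+1) → M) (Fin.snoc b y) ⟨g, hg, hab'⟩
    refine ⟨h', ⟨n+1, _, _, ⟨g, hg, hab'⟩, hh'⟩, ?_, ?_⟩
    · refine le_of_mp ?_
      intro x z hxz
      obtain ⟨t, ht, ht'⟩ := (hh _ _).1 hxz
      refine (hh' _ _).2 ⟨t.relabel Fin.castSucc, ?_, ?_⟩
      · rw [Term.realize_relabel]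
        have : (Fin.snoc a m : Fin (n+1) → M) ∘ Fin.castSucc = a := by
          funext i; simp
        rw [this, ht]
      · rw [Term.realize_relabel]
        have : (Fin.snoc b y : Fin (n+1) → B) ∘ Fin.castSucc = b := by
          funext i; simp
        rw [this, ht']
    · refine ((hh' _ _).2 ⟨Term.var (Fin.last n), ?_, rfl⟩).dom
      simp
  · rintro h ⟨n, a, b, ⟨f, hf, hab⟩, hh⟩ y
    obtain ⟨g, hg, hfg, hd⟩ := hB' f hf y
    obtain ⟨m, hy⟩ := exists_mp' hd
    have hab' := hsnoc g a m b y (fun i => (hab i).mono hfg) hy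
    obtain ⟨h', hh'⟩ := gen (Fin.snoc a m : Fin (n+1) → M) (Fin.snoc b y) ⟨g, hg, hab'⟩
    refine ⟨h', ⟨n+1, _, _, ⟨g, hg, hab'⟩, hh'⟩, ?_, ?_⟩
    · refine le_of_mp ?_
      intro x z hxz
      obtain ⟨t, ht, ht'⟩ := (hh _ _).1 hxz
      refine (hh' _ _).2 ⟨t.relabel Fin.castSucc, ?_, ?_⟩
      · rw [Term.realize_relabel]
        have : (Fin.snoc a m : Fin (n+1) → M) ∘ Fin.castSucc = a := by
          funext i; simp
        rw [this, ht]
      · rw [Term.realize_relabel]
        have : (Fin.snoc b y : Fin (n+1) → B) ∘ Fin.castSucc = b := by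
          funext i; simp
        rw [this, ht']
    · refine ((hh' m y).2 ⟨Term.var (Fin.last n), ?_, ?_⟩).cod
      · simp
      · simp

end Pool.Agent.TH767.B
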