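import Mathlib
import Pool.Agent.TH767.B.Defs
import Pool.Agent.TH767.B.Aut2
import Pool.Agent.TH767.B.Relz2

/-!
Every uncountable characterizable cardinal is homogeneously characterizable.
-/

namespace Pool.Agent.TH767.B

open FirstOrder FirstOrder.Language FirstOrder.Language.Structure Function Cardinal

theorem infinite_of_bfe {L : FirstOrder.Language.{0,0}} {M A : Type} [L.Structure M]
    [L.Structure A] (h : BFE L M A) [Infinite A] : Infinite M := by
  by_contra hM
  rw [not_infinite_iff_finite] at hM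
  obtain ⟨S, ⟨f₀, hf₀⟩, -, hF, hB⟩ := h
  have hB' : Back S := hB
  have := Fintype.ofFinite M
  obtain ⟨W, hW⟩ := Infinite.exists_subset_card_eq A (Fintype.card M + 1)
  obtain ⟨g, hg, -, hgc⟩ := Back.finite (S := S) hB' hf₀ (W : Set A) W.finite_toSet
  have h1 : ∀ a : W, ∃ z, Mp g z a.1 := fun a => exists_mp' (hgc a.1 a.2)
  choose z hz using h1
  have h2 : Injective z := by
    intro a b hab
    have h3 := hz a
    rw [hab] at h3
    exact Subtype.ext (h3.fun (hz b))
  have h3 := Fintype.card_le_of_injective _ h2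
  simp only [Fintype.card_coe] at h3
  omega

theorem card_LP : LP.card ≤ ℵ₀ := by
  have h1 : IsEmpty (Σ n, LP.Functions n) := ⟨fun z => Empty.elim z.2⟩
  have h2 : Countable (Σ n, PR n) := by
    refine Function.Injective.countable (f := fun z : (Σ n, PR n) => z.1) ?_
    rintro ⟨n, a⟩ ⟨m, b⟩ h
    cases a; cases b; rfl
  have h3 : Countable LP.Symbols :=
    inferInstanceAs (Countable ((Σ n, LP.Functions n) ⊕ (Σ n, PR n)))
  exact Cardinal.mk_le_aleph0_iff.2 h3

/-- The trivial unary symbol. -/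
def pu : LP.Relations 1 := PR.u

theorem homCh_of_ch {κ : Cardinal.{0}} (h : Ch κ) (hne : κ ≠ ℵ₀) : HomCh κ := by
  classical
  obtain ⟨hκ0, L, M, sM, hL, hMc, hmod, hbd⟩ := h
  have hκ1 : ℵ₁ ≤ κ := by
    rw [← succ_aleph0]
    exact Order.succ_le_of_lt (lt_of_le_of_ne hκ0 (Ne.symm hne))
  have hMi : Infinite M := by
    obtain ⟨A, sA, hA, hbfe⟩ := hmod κ hκ0 le_rfl
    have : Infinite A := by rw [infinite_iff, hA]; exact hκ0
    exact infinite_of_bfe hbfe
  letI iM : (LR L).Structure M := strR L M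
  letI iN : LP.Structure ℕ := pureStr ℕ
  have hU : #({y : ℕ | RelMap pu ![y]} : Set ℕ) ≤ #M :=
    (mk_le_aleph0).trans (infinite_iff.1 hMi)
  obtain ⟨V, π, σ, hV, hMd⟩ := exists_mdl (M := M) {y : ℕ | RelMap pu ![y]} hU
  have hVc : Countable V := mk_le_aleph0_iff.1 (hV.trans (mk_le_aleph0_iff.2 hMc))
  refine ⟨LL (LR L) LP, Car π σ, inferInstance, card_LL (card_LR hL) card_LP, ?_,
    ow (LR L) LP Own.isY, ?_, ?_, ?_, ?_⟩
  · exact inferInstanceAs (Countable (M ⊕ (V ⊕ ℕ)))
  · rw [← Set.infinite_coe_iff]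
    exact Infinite.of_injective _ (yEquiv (L₀ := LR L) (L₁ := LP) π σ).injective
  · exact aut_isY hMd (fun _ => trivial)
  · intro A sA hA
    have h1 : #(MA (LR L) LP A) ≤ κ := by
      refine bound_MA hA hκ0 ?_
      intro B sB hB
      obtain ⟨s, hs⟩ := exists_str hB
      exact hbd B s hs
    have h2 := bound_VA hMd hA hκ1 h1
    have h3 := (bound_UA pu hMd hA).trans h2
    refine bound_A hκ0 h1 h2 ?_
    refine le_trans ?_ h3
    refine mk_le_of_surjective (f := fun y : UA (LR L) LP pu A => y.1) ?_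
    intro y
    refine ⟨⟨y, ?_⟩, rfl⟩
    obtain ⟨S, ⟨f₀, hf₀⟩, -, hF, hB⟩ := hA
    obtain ⟨f, hf, -, hfc⟩ := hB f₀ hf₀ y.1
    obtain ⟨z, hz⟩ := exists_mp' hfc
    obtain ⟨y₀, rfl⟩ := pre_Y y hz
    refine (rel1 (lb (LR L) pu) hz).1 ?_
    exact ⟨![y₀], fun i => by fin_cases i; rfl, trivial⟩
  · obtain ⟨A, sA, hA, hbfe⟩ := hmod κ hκ0 le_rfl
    have hAi : Infinite A := by rw [infinite_iff, hA]; exact hκ0
    let Y' : Type := κ.out
    have hY' : #Y' = κ := mk_out κ
    have hYi : Infinite Y' := by rw [infinite_iff, hY']; exact hκ0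
    letI iA : (LR L).Structure A := strR L A
    letI iY : LP.Structure Y' := pureStr Y'
    have hU' : #({y : Y' | RelMap pu ![y]} : Set Y') ≤ #A := by
      refine (mk_set_le _).trans ?_
      rw [hY', hA]
    obtain ⟨V', π', σ', hV', hMd'⟩ := exists_mdl (M := A) {y : Y' | RelMap pu ![y]} hU'
    refine ⟨Car π' σ', inferInstance, ?_, ?_⟩
    · exact bfe_car pu (bfe_strR hbfe) (bfe_pure ℕ Y') hMd hMd'
    · rw [← hY']
      exact (Cardinal.mk_congr (yEquiv (L₀ := LR L) (L₁ := LP) π' σ')).symm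

end Pool.Agent.TH767.B
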