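import Mathlib
import Pool.Agent.TH767.B.PE

/-!
General tools: back-and-forth equivalence from one-point extensions of finite partial
isomorphisms, and countable pieces of back-and-forth equivalent structures.
-/

namespace Pool.Agent.TH767.B

open FirstOrder FirstOrder.Language FirstOrder.Language.Structure Function

section Emb

variable {L : FirstOrder.Language.{0,0}} [L.IsRelational] {M A : Type} [L.Structure M]
  [L.Structure A]

/-- A countable subset of a structure back-and-forth equivalent to the countable structure `M` is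
covered by a copy of `M`. -/
theorem bfe_embed [Countable M] (h : BFE L M A) {X : Set A} (hX : X.Countable) :
    ∃ j : M → A, Injective j ∧ (∀ n (R : L.Relations n) (x : Fin n → M),
      RelMap R (j ∘ x) ↔ RelMap R x) ∧ X ⊆ Set.range j := by
  obtain ⟨S, ⟨f₀, hf₀⟩, -, hF, hB⟩ := h
  rcases isEmpty_or_nonempty M with hM | hM
  · have hA : IsEmpty A := ⟨fun a => by
      obtain ⟨g, hg, -, ha⟩ := hB f₀ hf₀ a
      obtain ⟨z, hz⟩ := exists_mp' ha
      exact hM.false z⟩
    refine ⟨fun m => (hM.false m).elim, fun m => (hM.false m).elim, ?_,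
      fun a => (hA.false a).elim⟩
    intro n R x
    exact (Mp.rel (f := f₀) R (fun i => (hM.false (x i)).elim)).symm
  · obtain ⟨eM, heM⟩ := exists_surjective_nat M
    have hA : Nonempty A := by
      obtain ⟨g, hg, -, hm⟩ := hF f₀ hf₀ (eM 0)
      obtain ⟨y, -⟩ := exists_mp hm
      exact ⟨y⟩
    obtain ⟨a₀⟩ := hA
    obtain ⟨eX, heX⟩ := (hX.insert a₀).exists_eq_range ⟨a₀, Set.mem_insert _ _⟩
    have hstep : ∀ (f : S) (n : ℕ), ∃ g : S, f.1 ≤ g.1 ∧ eM n ∈ g.1.dom ∧ eX n ∈ g.1.cod := by
      intro f n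
      obtain ⟨g, hg, hfg, hm⟩ := hF f.1 f.2 (eM n)
      obtain ⟨g', hg', hgg', hm'⟩ := hB g hg (eX n)
      exact ⟨⟨g', hg'⟩, hfg.trans hgg', PartialEquiv.dom_le_dom hgg' hm, hm'⟩
    choose step hs using hstep
    let g : ℕ → S := fun n => Nat.rec ⟨f₀, hf₀⟩ (fun n f => step f n) n
    have hg : ∀ n, g (n + 1) = step (g n) n := fun n => rfl
    have hmono : Monotone (fun n => (g n).1) := by
      refine monotone_nat_of_le_succ (fun n => ?_)
      rw [hg]
      exact (hs (g n) n).1
    have hval : ∀ m, ∃ y n, Mp (g n).1 m y := by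
      intro m
      obtain ⟨n, rfl⟩ := heM m
      have h1 : eM n ∈ (g (n+1)).1.dom := by
        rw [hg]
        exact (hs (g n) n).2.1
      obtain ⟨y, hy⟩ := exists_mp h1
      exact ⟨y, n+1, hy⟩
    choose j nj hj using hval
    have hj' : ∀ m n, nj m ≤ n → Mp (g n).1 m (j m) := fun m n hn => (hj m).mono (hmono hn)
    refine ⟨j, ?_, ?_, ?_⟩
    · intro m m' hmm
      have h1 := hj' m (max (nj m) (nj m')) (le_max_left _ _)
      have h2 := hj' m' (max (nj m) (nj m')) (le_max_right _ _)
      rw [← hmm] at h2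
      exact h1.inj h2
    · intro n R x
      have h1 : ∀ i, Mp (g (Finset.univ.sup (fun i => nj (x i)))).1 (x i) (j (x i)) := by
        intro i
        exact hj' _ _ (Finset.le_sup (f := fun i => nj (x i)) (Finset.mem_univ i))
      exact (Mp.rel R h1).symm
    · intro a ha
      have h1 : a ∈ Set.range eX := by
        rw [← heX]
        exact Set.mem_insert_of_mem _ ha
      obtain ⟨n, rfl⟩ := h1
      have h2 : eX n ∈ (g (n+1)).1.cod := by
        rw [hg]
        exact (hs (g n) n).2.2
      obtain ⟨m, hm⟩ := exists_mp' h2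
      refine ⟨m, ?_⟩
      have h3 := hj' m (max (nj m) (n+1)) (le_max_left _ _)
      have h4 := hm.mono (hmono (le_max_right (nj m) (n+1)))
      exact h3.fun h4

end Emb

section Ext

variable {L : FirstOrder.Language.{0,0}} {M N : Type} [L.Structure M] [L.Structure N]

/-- Tuples with the same quantifier-free type. -/
def QF (L : FirstOrder.Language.{0,0}) {M N : Type} [L.Structure M] [L.Structure N]
    {ι : Type} (a : ι → M) (b : ι → N) : Prop :=
  ∀ n (R : L.Relations n) (x : Fin n → ι), RelMap R (a ∘ x) ↔ RelMap R (b ∘ x)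

/-- Finite partial isomorphisms. -/
structure PSt (L : FirstOrder.Language.{0,0}) (M N : Type) [L.Structure M] [L.Structure N] where
  ι : Type
  fin : Finite ι
  a : ι → M
  b : ι → N
  ia : Injective a
  ib : Injective b
  qf : QF L a b

/-- Adding a point to a tuple. -/
def add {ι M : Type} (a : ι → M) (m : M) : Option ι → M := fun i => i.elim m a

theorem add_inj {ι M : Type} {a : ι → M} {m : M} (ha : Injective a) (hm : m ∉ Set.range a) :
    Injective (add a m) := by
  rintro (_ | i) (_ | j) h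
  · rfl
  · exact (hm ⟨j, h.symm⟩).elim
  · exact (hm ⟨i, h⟩).elim
  · exact congrArg some (ha h)

theorem bfe_ext [L.IsRelational] (h0 : ∀ R : L.Relations 0, ∀ (x : Fin 0 → M) (y : Fin 0 → N),
      RelMap R x ↔ RelMap R y)
    (forth : ∀ (ι : Type) (_ : Finite ι) (a : ι → M) (b : ι → N), Injective a → Injective b →
      QF L a b → ∀ m, m ∉ Set.range a → ∃ m', m' ∉ Set.range b ∧ QF L (add a m) (add b m'))
    (back : ∀ (ι : Type) (_ : Finite ι) (a : ι → M) (b : ι → N), Injective a → Injective b →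
      QF L a b → ∀ m', m' ∉ Set.range b → ∃ m, m ∉ Set.range a ∧ QF L (add a m) (add b m')) :
    BFE L M N := by
  have (s : PSt L M N) : Finite s.ι := s.fin
  refine bfe_of (St := PSt L M N) (fun s => s.ι) (fun s => s.a) (fun s => s.b)
    ⟨Empty, inferInstance, fun x => x.elim, fun x => x.elim, fun x => x.elim, fun x => x.elim,
      ?_⟩ (fun s => s.ia) (fun s => s.ib) (fun s => s.qf) ?_ ?_
  · intro n R x
    rcases Nat.eq_zero_or_pos n with rfl | hn
    · exact h0 R _ _
    · exact (x ⟨0, hn⟩).elim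
  · intro s m
    by_cases hm : m ∈ Set.range s.a
    · exact ⟨s, fun i => ⟨i, rfl, rfl⟩, hm⟩
    · obtain ⟨m', hm', hqf⟩ := forth s.ι s.fin s.a s.b s.ia s.ib s.qf m hm
      exact ⟨⟨Option s.ι, inferInstance, add s.a m, add s.b m', add_inj s.ia hm,
        add_inj s.ib hm', hqf⟩, fun i => ⟨some i, rfl, rfl⟩, none, rfl⟩
  · intro s m'
    by_cases hm' : m' ∈ Set.range s.b
    · exact ⟨s, fun i => ⟨i, rfl, rfl⟩, hm'⟩
    · obtain ⟨m, hm, hqf⟩ := back s.ι s.fin s.a s.b s.ia s.ib s.qf m' hm'
      exact ⟨⟨Option s.ι, inferInstance, add s.a m, add s.b m', add_inj s.ia hm,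
        add_inj s.ib hm', hqf⟩, fun i => ⟨some i, rfl, rfl⟩, none, rfl⟩

theorem QF.symm {ι : Type} {a : ι → M} {b : ι → N} (h : QF L a b) : QF L b a :=
  fun n R x => (h n R x).symm

/-- One-sided criterion, applied in both directions. -/
theorem bfe_ext' [L.IsRelational] (h0 : ∀ R : L.Relations 0, ∀ (x : Fin 0 → M) (y : Fin 0 → N),
      RelMap R x ↔ RelMap R y)
    (forth : ∀ (ι : Type) (_ : Finite ι) (a : ι → M) (b : ι → N), Injective a → Injective b →
      QF L a b → ∀ m, m ∉ Set.range a → ∃ m', m' ∉ Set.range b ∧ QF L (add a m) (add b m'))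
    (back : ∀ (ι : Type) (_ : Finite ι) (a : ι → N) (b : ι → M), Injective a → Injective b →
      QF L a b → ∀ m, m ∉ Set.range a → ∃ m', m' ∉ Set.range b ∧ QF L (add a m) (add b m')) :
    BFE L M N := by
  refine bfe_ext h0 forth ?_
  intro ι hι a b ha hb hqf m' hm'
  obtain ⟨m, hm, h⟩ := back ι hι b a hb ha hqf.symm m' hm'
  exact ⟨m, hm, h.symm⟩

end Ext

end Pool.Agent.TH767.B
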