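import Mathlib
import Pool.Agent.TH767.B.Gen

/-!
Ultrametric spaces with distances in a linear order and a generic dense predicate.
-/

namespace Pool.Agent.TH767.B

open FirstOrder FirstOrder.Language FirstOrder.Language.Structure Function

/-- Own symbols of tree structures. -/
inductive RT : ℕ → Type
  | isK : RT 1
  | isP : RT 1
  | dist : RT 3

/-- The language of tree structures over a language for the linear order. -/
def LT (L : FirstOrder.Language.{0,0}) : FirstOrder.Language.{0,0} :=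
  ⟨fun _ => Empty, fun n => L.Relations n ⊕ RT n⟩

instance (L : FirstOrder.Language.{0,0}) : (LT L).IsRelational :=
  fun _ => inferInstanceAs (IsEmpty Empty)

/-- Interpretation of the own symbols. -/
def intT {K F : Type} (d : F → F → K) (P : F → Prop) : {n : ℕ} → RT n → (Fin n → K ⊕ F) → Prop
  | _, RT.isK, a => ∃ k, a 0 = Sum.inl k
  | _, RT.isP, a => ∃ f, a 0 = Sum.inr f ∧ P f
  | _, RT.dist, a => ∃ f g, f ≠ g ∧ a 0 = Sum.inr f ∧ a 1 = Sum.inr g ∧ a 2 = Sum.inl (d f g)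

/-- Interpretation of all symbols. -/
def intTA {L : FirstOrder.Language.{0,0}} {K F : Type} [L.Structure K] (d : F → F → K)
    (P : F → Prop) {n : ℕ} : L.Relations n ⊕ RT n → (Fin n → K ⊕ F) → Prop
  | Sum.inl R, a => ∃ b : Fin n → K, (∀ i, a i = Sum.inl (b i)) ∧ RelMap R b
  | Sum.inr R, a => intT d P R a

/-- The tree structure. -/
def tStr (L : FirstOrder.Language.{0,0}) {K F : Type} [L.Structure K] (d : F → F → K)
    (P : F → Prop) : (LT L).Structure (K ⊕ F) where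
  funMap f := Empty.elim f
  RelMap R a := intTA (L := L) d P R a

/-- Generic ultrametric spaces. -/
structure Tree {K F : Type} [LinearOrder K] (d : F → F → K) (P : F → Prop) : Prop where
  symm : ∀ x y, d x y = d y x
  ultra : ∀ x y z, x ≠ y → y ≠ z → x ≠ z → min (d x y) (d y z) ≤ d x z
  ext : ∀ (S : Set F) (f : F) (i : K) (b : Prop), S.Finite →
    ∃ g, (P g ↔ b) ∧ ∀ s ∈ S, (s = f ∨ i ≤ d s f) → g ≠ s ∧ d g s = i

/-- The isosceles property. -/
theorem Tree.iso {K F : Type} [LinearOrder K] {d : F → F → K} {P : F → Prop} (h : Tree d P)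
    {x y z : F} (hxy : x ≠ y) (hyz : y ≠ z) (hxz : x ≠ z) (hlt : d y z < d x y) :
    d x z = d y z := by
  have h1 := h.ultra x y z hxy hyz hxz
  rw [min_eq_right hlt.le] at h1
  refine le_antisymm ?_ h1
  have h2 := h.ultra y x z hxy.symm hxz hyz
  rw [h.symm y x] at h2
  rcases le_total (d x y) (d x z) with h3 | h3
  · rw [min_eq_left h3] at h2
    exact (not_lt.2 h2 hlt).elim
  · rw [min_eq_right h3] at h2
    exact h2

section St

variable {L : FirstOrder.Language.{0,0}} {K K' F F' : Type} [L.Structure K] [L.Structure K']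

/-- States. -/
structure TSt (S₀ : Set (L.PartialEquiv K K')) (d : F → F → K) (P : F → Prop)
    (d' : F' → F' → K') (P' : F' → Prop) where
  f₀ : L.PartialEquiv K K'
  h₀ : f₀ ∈ S₀
  A : Type
  B : Type
  fA : Finite A
  fB : Finite B
  α : A → K
  α' : A → K'
  s : B → F
  s' : B → F'
  ia : Injective α
  is : Injective s
  is' : Injective s'
  ma : ∀ i, Mp f₀ (α i) (α' i)
  hP : ∀ i, P (s i) ↔ P' (s' i)
  hd : ∀ i j, i ≠ j → ∃ a, d (s i) (s j) = α a ∧ d' (s' i) (s' j) = α' a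

variable {S₀ : Set (L.PartialEquiv K K')} {d : F → F → K} {P : F → Prop}
    {d' : F' → F' → K'} {P' : F' → Prop}

theorem TSt.ia' (S : TSt S₀ d P d' P') : Injective S.α' := by
  intro i j hij
  apply S.ia
  have h1 := S.ma i
  have h2 := S.ma j
  rw [← hij] at h2
  exact h1.inj h2

/-- The symmetric state. -/
def TSt.symm (S : TSt S₀ d P d' P') : TSt (inv S₀) d' P' d P where
  f₀ := S.f₀.symm
  h₀ := S.h₀
  A := S.A
  B := S.B
  fA := S.fA
  fB := S.fB
  α := S.α'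
  α' := S.α
  s := S.s'
  s' := S.s
  ia := S.ia'
  is := S.is'
  is' := S.is
  ma i := (S.ma i).symm
  hP i := (S.hP i).symm
  hd i j hij := by
    obtain ⟨a, h1, h2⟩ := S.hd i j hij
    exact ⟨a, h2, h1⟩

/-- Undoing the symmetry. -/
def TSt.symm' (S : TSt (inv S₀) d' P' d P) : TSt S₀ d P d' P' where
  f₀ := S.f₀.symm
  h₀ := S.h₀
  A := S.A
  B := S.B
  fA := S.fA
  fB := S.fB
  α := S.α'
  α' := S.α
  s := S.s'
  s' := S.s
  ia := S.ia'
  is := S.is'
  is' := S.is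
  ma i := (S.ma i).symm
  hP i := (S.hP i).symm
  hd i j hij := by
    obtain ⟨a, h1, h2⟩ := S.hd i j hij
    exact ⟨a, h2, h1⟩

/-- The left tuple. -/
def TSt.a (S : TSt S₀ d P d' P') : S.A ⊕ S.B → K ⊕ F := Sum.map S.α S.s

/-- The right tuple. -/
def TSt.b (S : TSt S₀ d P d' P') : S.A ⊕ S.B → K' ⊕ F' := Sum.map S.α' S.s'

/-- Extension of states. -/
def TEx (S S' : TSt S₀ d P d' P') : Prop := ∀ i, ∃ j, S.a i = S'.a j ∧ S.b i = S'.b j

theorem extK (hF : Forth S₀) {f₀ : L.PartialEquiv K K'} (h₀ : f₀ ∈ S₀) {A : Type} [Finite A]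
    {α : A → K} {α' : A → K'} (ia : Injective α) (ma : ∀ i, Mp f₀ (α i) (α' i)) (k : K) :
    ∃ f₁ ∈ S₀, ∃ (A₁ : Type) (_ : Finite A₁) (α₁ : A₁ → K) (α₁' : A₁ → K'),
      Injective α₁ ∧ (∀ i, Mp f₁ (α₁ i) (α₁' i)) ∧
      (∀ a, ∃ a₁, α₁ a₁ = α a ∧ α₁' a₁ = α' a) ∧ ∃ a, α₁ a = k := by
  by_cases hk : k ∈ Set.range α
  · exact ⟨f₀, h₀, A, inferInstance, α, α', ia, ma, fun a => ⟨a, rfl, rfl⟩, hk⟩
  · obtain ⟨f₁, h₁, hle, hkd⟩ := hF f₀ h₀ k
    obtain ⟨k', hk'⟩ := exists_mp hkd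
    refine ⟨f₁, h₁, Option A, inferInstance, add α k, add α' k', add_inj ia hk, ?_,
      fun a => ⟨some a, rfl, rfl⟩, none, rfl⟩
    rintro (_ | i)
    · exact hk'
    · exact (ma i).mono hle

theorem TSt.forth [LinearOrder K] [LinearOrder K'] [Nonempty K'] [Nonempty F']
    (lt : L.Relations 2) (hlt : ∀ a b : K, RelMap lt ![a, b] ↔ a < b)
    (hlt' : ∀ a b : K', RelMap lt ![a, b] ↔ a < b)
    (hF : Forth S₀) (h : Tree d P) (h' : Tree d' P') (S : TSt S₀ d P d' P') (x : K ⊕ F) :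
    ∃ S' : TSt S₀ d P d' P', TEx S S' ∧ ∃ i, S'.a i = x := by
  have := S.fA
  have := S.fB
  rcases x with k | g
  · obtain ⟨f₁, h₁, A₁, fA₁, α₁, α₁', ia₁, ma₁, he, a, ha⟩ := extK hF S.h₀ S.ia S.ma k
    refine ⟨⟨f₁, h₁, A₁, S.B, fA₁, S.fB, α₁, α₁', S.s, S.s', ia₁, S.is, S.is', ma₁, S.hP, ?_⟩,
      ?_, Sum.inl a, congrArg Sum.inl ha⟩
    · intro i j hij
      obtain ⟨a, h1, h2⟩ := S.hd i j hij
      obtain ⟨a₁, h3, h4⟩ := he a
      exact ⟨a₁, h1.trans h3.symm, h2.trans h4.symm⟩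
    · rintro (i | i)
      · obtain ⟨a₁, h3, h4⟩ := he i
        exact ⟨Sum.inl a₁, congrArg Sum.inl h3.symm, congrArg Sum.inl h4.symm⟩
      · exact ⟨Sum.inr i, rfl, rfl⟩
  · by_cases hg : g ∈ Set.range S.s
    · obtain ⟨i, hi⟩ := hg
      exact ⟨S, fun i => ⟨i, rfl, rfl⟩, Sum.inr i, congrArg Sum.inr hi⟩
    have hgs : ∀ i, g ≠ S.s i := fun i e => hg ⟨i, e.symm⟩
    rcases isEmpty_or_nonempty S.B with hB | hB
    · obtain ⟨g', hg', -⟩ := h'.ext ∅ (Classical.arbitrary F') (Classical.arbitrary K') (P g)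
        Set.finite_empty
      refine ⟨⟨S.f₀, S.h₀, S.A, Option S.B, S.fA, inferInstance, S.α, S.α', add S.s g,
        add S.s' g', S.ia, add_inj S.is hg, add_inj S.is' (fun ⟨i, _⟩ => hB.false i), S.ma,
        ?_, ?_⟩, ?_, Sum.inr none, rfl⟩
      · rintro (_ | i)
        · exact hg'.symm
        · exact S.hP i
      · rintro (_ | i) (_ | j) hij
        · exact (hij rfl).elim
        · exact (hB.false j).elim
        · exact (hB.false i).elim
        · exact (hB.false i).elim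
      · rintro (i | i)
        · exact ⟨Sum.inl i, rfl, rfl⟩
        · exact (hB.false i).elim
    obtain ⟨i₀, hi₀⟩ := Finite.exists_max (fun i => d g (S.s i))
    obtain ⟨f₁, h₁, A₁, fA₁, α₁, α₁', ia₁, ma₁, he, a₀, ha₀⟩ :=
      extK hF S.h₀ S.ia S.ma (d g (S.s i₀))
    have hord : ∀ a b, α₁ a < α₁ b ↔ α₁' a < α₁' b := by
      intro a b
      rw [← hlt, ← hlt']
      exact Mp.rel (f := f₁) lt (a := ![α₁ a, α₁ b]) (b := ![α₁' a, α₁' b]) (by
        intro j
        fin_cases j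
        · exact ma₁ a
        · exact ma₁ b)
    have hd₁ : ∀ i j, i ≠ j → ∃ a, d (S.s i) (S.s j) = α₁ a ∧ d' (S.s' i) (S.s' j) = α₁' a := by
      intro i j hij
      obtain ⟨a, h1, h2⟩ := S.hd i j hij
      obtain ⟨a₁, h3, h4⟩ := he a
      exact ⟨a₁, h1.trans h3.symm, h2.trans h4.symm⟩
    obtain ⟨g', hPg, hg'⟩ := h'.ext (Set.range S.s') (S.s' i₀) (α₁' a₀) (P g)
      (Set.finite_range _)
    have h0 : g' ≠ S.s' i₀ ∧ d' g' (S.s' i₀) = α₁' a₀ := hg' _ ⟨i₀, rfl⟩ (Or.inl rfl)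
    have key : ∀ i, g' ≠ S.s' i ∧ ∃ a, d g (S.s i) = α₁ a ∧ d' g' (S.s' i) = α₁' a := by
      intro i
      by_cases hi : i = i₀
      · subst hi
        exact ⟨h0.1, a₀, ha₀.symm, h0.2⟩
      obtain ⟨e, he1, he2⟩ := hd₁ i i₀ hi
      have hne : S.s i ≠ S.s i₀ := fun e => hi (S.is e)
      have hne' : S.s' i ≠ S.s' i₀ := fun e => hi (S.is' e)
      rcases le_or_gt (α₁ a₀) (α₁ e) with h5 | h5
      · have h6 : α₁' a₀ ≤ α₁' e := by
          rw [← not_lt, ← hord, not_lt]; exact h5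
        have h7 := hg' (S.s' i) ⟨i, rfl⟩ (Or.inr (by rw [he2]; exact h6))
        refine ⟨h7.1, a₀, ?_, h7.2⟩
        rw [ha₀]
        refine le_antisymm (hi₀ i) ?_
        have h8 := h.ultra g (S.s i₀) (S.s i) (hgs i₀) hne.symm (hgs i)
        rw [h.symm (S.s i₀) (S.s i), he1, ← ha₀, min_eq_left h5] at h8
        rw [← ha₀]
        exact h8
      · have h6 : α₁' e < α₁' a₀ := (hord _ _).1 h5
        have hgne : g' ≠ S.s' i := by
          rintro rfl
          rw [he2] at h0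
          exact absurd h0.2 h6.ne
        refine ⟨hgne, e, ?_, ?_⟩
        · rw [h.iso (hgs i₀) hne.symm (hgs i), h.symm, he1]
          rw [h.symm, he1, ← ha₀]
          exact h5
        · rw [h'.iso h0.1 hne'.symm hgne, h'.symm, he2]
          rw [h'.symm, he2, h0.2]
          exact h6
    refine ⟨⟨f₁, h₁, A₁, Option S.B, fA₁, inferInstance, α₁, α₁', add S.s g,
      add S.s' g', ia₁, add_inj S.is hg, add_inj S.is' (fun ⟨i, hi⟩ => (key i).1 hi.symm), ma₁,
      ?_, ?_⟩, ?_, Sum.inr none, rfl⟩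
    · rintro (_ | i)
      · exact hPg.symm
      · exact S.hP i
    · rintro (_ | i) (_ | j) hij
      · exact (hij rfl).elim
      · exact (key j).2
      · obtain ⟨a, h1, h2⟩ := (key i).2
        exact ⟨a, (h.symm _ _).trans h1, (h'.symm _ _).trans h2⟩
      · exact hd₁ i j (fun e => hij (congrArg some e))
    · rintro (i | i)
      · obtain ⟨a₁, h3, h4⟩ := he i
        exact ⟨Sum.inl a₁, congrArg Sum.inl h3.symm, congrArg Sum.inl h4.symm⟩
      · exact ⟨Sum.inr (some i), rfl, rfl⟩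

theorem TSt.rel_imp (S : TSt S₀ d P d' P') {n : ℕ} (R : L.Relations n ⊕ RT n)
    (x : Fin n → S.A ⊕ S.B) (h : intTA (L := L) d P R (S.a ∘ x)) :
    intTA (L := L) d' P' R (S.b ∘ x) := by
  have i0 : ∀ i m, S.a i = Sum.inl m → ∃ j, i = Sum.inl j ∧ S.α j = m := by
    rintro (j | j) m h
    · exact ⟨j, rfl, Sum.inl.inj h⟩
    · cases h
  have i1 : ∀ i v, S.a i = Sum.inr v → ∃ j, i = Sum.inr j ∧ S.s j = v := by
    rintro (j | j) m h
    · cases h
    · exact ⟨j, rfl, Sum.inr.inj h⟩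
  rcases R with R | R
  · obtain ⟨b, hb, hR⟩ := h
    have h1 : ∀ i, ∃ j, x i = Sum.inl j ∧ S.α j = b i := fun i => i0 _ _ (hb i)
    choose j hj1 hj2 using h1
    refine ⟨S.α' ∘ j, ?_, ?_⟩
    · intro i
      change S.b (x i) = _
      rw [hj1]
      rfl
    · have h2 : b = S.α ∘ j := by funext i; exact (hj2 i).symm
      rw [h2] at hR
      exact (Mp.rel R (fun i => S.ma (j i))).1 hR
  · cases R with
    | isK =>
      obtain ⟨k, hk⟩ := h
      obtain ⟨j, hj, -⟩ := i0 _ _ hk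
      refine ⟨S.α' j, ?_⟩
      change S.b (x 0) = _
      rw [hj]
      rfl
    | isP =>
      obtain ⟨f, hf, hPf⟩ := h
      obtain ⟨j, hj, hjf⟩ := i1 _ _ hf
      refine ⟨S.s' j, ?_, ?_⟩
      · change S.b (x 0) = _
        rw [hj]
        rfl
      · rw [← S.hP, hjf]; exact hPf
    | dist =>
      obtain ⟨f, g, hfg, h0, h1, h2⟩ := h
      obtain ⟨j, hj, hjf⟩ := i1 _ _ h0
      obtain ⟨k, hk, hkg⟩ := i1 _ _ h1
      obtain ⟨l, hl, hld⟩ := i0 _ _ h2
      have hjk : j ≠ k := by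
        rintro rfl
        exact hfg (hjf.symm.trans hkg)
      obtain ⟨a, ha1, ha2⟩ := S.hd j k hjk
      rw [hjf, hkg, ← hld] at ha1
      have hla : l = a := S.ia ha1
      subst hla
      refine ⟨S.s' j, S.s' k, fun e => hjk (S.is' e), ?_, ?_, ?_⟩
      · change S.b (x 0) = _
        rw [hj]; rfl
      · change S.b (x 1) = _
        rw [hk]; rfl
      · change S.b (x 2) = _
        rw [hl, ha2]; rfl

theorem bfe_tree [LinearOrder K] [LinearOrder K'] [Nonempty K] [Nonempty K'] [Nonempty F]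
    [Nonempty F'] (lt : L.Relations 2) (hlt : ∀ a b : K, RelMap lt ![a, b] ↔ a < b)
    (hlt' : ∀ a b : K', RelMap lt ![a, b] ↔ a < b)
    (h₀ : BFE L K K') (h : Tree d P) (h' : Tree d' P') :
    @BFE (LT L) (K ⊕ F) (K' ⊕ F') (tStr L d P) (tStr L d' P') := by
  let _ := tStr L d P
  let _ := tStr L d' P'
  obtain ⟨S₀, ⟨f₀, hf₀⟩, -, hF, hB⟩ := h₀
  have hF' : Forth S₀ := hF
  have hB' : Back S₀ := hB
  have (S : TSt S₀ d P d' P') : Finite (S.A ⊕ S.B) := by
    have := S.fA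
    have := S.fB
    infer_instance
  refine bfe_of (L := LT L) (St := TSt S₀ d P d' P') (fun S => S.A ⊕ S.B) (fun S => S.a)
    (fun S => S.b)
    ⟨f₀, hf₀, Empty, Empty, inferInstance, inferInstance, fun x => x.elim, fun x => x.elim,
      fun x => x.elim, fun x => x.elim, fun x => x.elim, fun x => x.elim, fun x => x.elim,
      fun x => x.elim, fun x => x.elim, fun x => x.elim⟩
    (fun S => Sum.map_injective.2 ⟨S.ia, S.is⟩) (fun S => Sum.map_injective.2 ⟨S.ia', S.is'⟩)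
    ?_ ?_ ?_
  · intro S n R x
    exact ⟨S.rel_imp R x, S.symm.rel_imp R x⟩
  · intro S m
    exact S.forth lt hlt hlt' hF' h h' m
  · intro S m
    obtain ⟨S', h1, i, h2⟩ := S.symm.forth lt hlt' hlt hB'.forth_inv h' h m
    refine ⟨S'.symm', ?_, i, h2⟩
    intro j
    obtain ⟨l, h3, h4⟩ := h1 j
    exact ⟨l, h4, h3⟩

end St

end Pool.Agent.TH767.B
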