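import Mathlib
import Pool.Agent.TH767.B.Tree

/-!
Trees of functions on a linear order.
-/

namespace Pool.Agent.TH767.B

open Function Cardinal

/-- Families of functions which form a tree structure. -/
structure FT {K Z F : Type} [LinearOrder K] (ev : F → K → Z) (P : F → Prop) : Prop where
  least : ∀ f g, f ≠ g → ∃ k, ev f k ≠ ev g k ∧ ∀ l < k, ev f l = ev g l
  mod : ∀ (f : F) (i : K) (z : Z) (b : Prop),
    ∃ g, (∀ l < i, ev g l = ev f l) ∧ ev g i = z ∧ (P g ↔ b)

open Classical in
/-- The place of the least disagreement. -/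
noncomputable def fd {K Z F : Type} [LinearOrder K] [Nonempty K] (ev : F → K → Z) (f g : F) : K :=
  if h : ∃ k, ev f k ≠ ev g k ∧ ∀ l < k, ev f l = ev g l then h.choose else Classical.arbitrary K

section

variable {K Z F : Type} [LinearOrder K] [Nonempty K] {ev : F → K → Z} {P : F → Prop}

theorem fd_spec (h : FT ev P) {f g : F} (hfg : f ≠ g) :
    ev f (fd ev f g) ≠ ev g (fd ev f g) ∧ ∀ l < fd ev f g, ev f l = ev g l := by
  have h1 := h.least f g hfg
  unfold fd
  rw [dif_pos h1]
  exact h1.choose_spec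

theorem fd_eq (h : FT ev P) {f g : F} (hfg : f ≠ g) {k : K} (h1 : ev f k ≠ ev g k)
    (h2 : ∀ l < k, ev f l = ev g l) : fd ev f g = k := by
  obtain ⟨h3, h4⟩ := fd_spec h hfg
  rcases lt_trichotomy (fd ev f g) k with h5 | h5 | h5
  · exact (h3 (h2 _ h5)).elim
  · exact h5
  · exact (h1 (h4 _ h5)).elim

theorem tree_fd [Infinite Z] (h : FT ev P) : Tree (fd ev) P := by
  refine ⟨?_, ?_, ?_⟩
  · intro x y
    by_cases hxy : x = y
    · rw [hxy]
    obtain ⟨h3, h4⟩ := fd_spec h hxy
    exact (fd_eq h (Ne.symm hxy) h3.symm (fun l hl => (h4 l hl).symm)).symm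
  · intro x y z hxy hyz hxz
    by_contra hlt
    push Not at hlt
    rw [lt_min_iff] at hlt
    exact (fd_spec h hxz).1 (((fd_spec h hxy).2 _ hlt.1).trans ((fd_spec h hyz).2 _ hlt.2))
  · intro S f i b hS
    obtain ⟨z, hz⟩ := (hS.image (fun s => ev s i)).exists_notMem
    obtain ⟨g, hg1, hg2, hg3⟩ := h.mod f i z b
    refine ⟨g, hg3, ?_⟩
    intro s hs hs'
    have hgs : ev g i ≠ ev s i := by
      rw [hg2]
      rintro rfl
      exact hz ⟨s, hs, rfl⟩
    have hne : g ≠ s := fun e => hgs (by rw [e])
    refine ⟨hne, fd_eq h hne hgs ?_⟩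
    intro l hl
    rw [hg1 l hl]
    rcases hs' with rfl | hs'
    · rfl
    · by_cases hsf : s = f
      · rw [hsf]
      exact ((fd_spec h hsf).2 l (hl.trans_le hs')).symm

end

section Fin

variable {K : Type} [LinearOrder K] [NoMaxOrder K]

theorem ft_fin : FT (fun f : K →₀ ℕ => (f : K → ℕ))
    (fun f => ∃ j, f j = 1 ∧ ∀ k > j, f k = 0) := by
  classical
  constructor
  · intro f g hfg
    have hfin : {k | f k ≠ g k}.Finite := by
      refine (f.support ∪ g.support).finite_toSet.subset ?_
      intro k hk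
      rw [Finset.mem_coe, Finset.mem_union, Finsupp.mem_support_iff, Finsupp.mem_support_iff]
      by_contra hcon
      push Not at hcon
      exact hk (hcon.1.trans hcon.2.symm)
    have hne : {k | f k ≠ g k}.Nonempty := by
      by_contra hcon
      rw [Set.not_nonempty_iff_eq_empty] at hcon
      apply hfg
      ext k
      by_contra hk
      have : k ∈ {k | f k ≠ g k} := hk
      rw [hcon] at this
      exact this
    have hwf := hfin.isWF
    refine ⟨hwf.min hne, hwf.min_mem hne, ?_⟩
    intro l hl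
    by_contra hcon
    exact hwf.not_lt_min hne hcon hl
  · intro f i z b
    obtain ⟨j, hj⟩ := exists_gt i
    let g : K →₀ ℕ := f.filter (· < i) + Finsupp.single i z +
      Finsupp.single j (if b then 1 else 2)
    refine ⟨g, ?_, ?_, ?_⟩
    · intro l hl
      simp [g, hl, hl.ne, (hl.trans hj).ne]
    · simp [g, hj.ne]
    · have e1 : ∀ k, i < k → g k = if k = j then (if b then 1 else 2) else 0 := by
        intro k hk
        by_cases hkj : k = j
        · subst hkj
          simp [g, not_lt.2 hk.le, hk.ne']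
        · simp [g, not_lt.2 hk.le, hk.ne', hkj]
      constructor
      · rintro ⟨k, hk1, hk2⟩
        by_contra hb
        rcases lt_trichotomy k j with h1 | h1 | h1
        · have h2 := hk2 j h1
          rw [e1 j hj, if_pos rfl, if_neg hb] at h2
          omega
        · subst h1
          rw [e1 k hj, if_pos rfl, if_neg hb] at hk1
          omega
        · rw [e1 k (hj.trans h1), if_neg h1.ne'] at hk1
          omega
      · intro hb
        refine ⟨j, ?_, ?_⟩
        · rw [e1 j hj, if_pos rfl, if_pos hb]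
        · intro k hk
          rw [e1 k (hj.trans hk), if_neg hk.ne']

end Fin

/-- Functions with well-ordered support. -/
def WF (K Z : Type) [LinearOrder K] (z₀ : Z) : Type := {f : K → Z // {k | f k ≠ z₀}.IsWF}

theorem ft_wf {K Z : Type} [LinearOrder K] [NoMaxOrder K] (W : Set K) (hW : W.IsWF)
    (hc : ∀ k, ∃ w ∈ W, k ≤ w) {z₀ z₁ : Z} (hz : z₁ ≠ z₀) :
    FT (fun f : WF K Z z₀ => f.1) (fun f => ∃ k, ∀ l ≥ k, f.1 l = z₀) := by
  classical
  constructor
  · rintro ⟨f, hf⟩ ⟨g, hg⟩ hfg
    have hwf : {k | f k ≠ g k}.IsWF := by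
      refine (hf.union hg).mono ?_
      intro k hk
      by_contra hcon
      rw [Set.mem_union, not_or] at hcon
      exact hk ((not_not.1 hcon.1).trans (not_not.1 hcon.2).symm)
    have hne : {k | f k ≠ g k}.Nonempty := by
      by_contra hcon
      rw [Set.not_nonempty_iff_eq_empty] at hcon
      apply hfg
      apply Subtype.ext
      funext k
      by_contra hk
      have : k ∈ {k | f k ≠ g k} := hk
      rw [hcon] at this
      exact this
    refine ⟨hwf.min hne, hwf.min_mem hne, ?_⟩
    intro l hl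
    by_contra hcon
    exact hwf.not_lt_min hne hcon hl
  · rintro ⟨f, hf⟩ i z b
    let g : K → Z := fun k => if k < i then f k else if k = i then z else
      if b then z₀ else if k ∈ W then z₁ else z₀
    have hg : {k | g k ≠ z₀}.IsWF := by
      refine ((hf.union (Set.finite_singleton i).isWF).union hW).mono ?_
      intro k hk
      by_contra hcon
      rw [Set.mem_union, Set.mem_union, not_or, not_or] at hcon
      obtain ⟨⟨h1, h2⟩, h3⟩ := hcon
      apply hk
      have h1' : f k = z₀ := not_not.1 h1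
      have h2' : k ≠ i := h2
      simp only [g]
      rw [if_neg h2', if_neg h3, h1']
      simp
    refine ⟨⟨g, hg⟩, ?_, ?_, ?_⟩
    · intro l hl
      change g l = f l
      simp only [g]
      rw [if_pos hl]
    · change g i = z
      simp [g]
    · constructor
      · rintro ⟨k, hk⟩
        by_contra hb
        obtain ⟨m, hm⟩ := exists_gt (max k i)
        obtain ⟨w, hw, hmw⟩ := hc m
        have h1 : k ≤ w := ((le_max_left k i).trans hm.le).trans hmw
        have h2 : i < w := ((le_max_right k i).trans_lt hm).trans_le hmw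
        have h3 : g w = z₀ := hk w h1
        simp only [g] at h3
        rw [if_neg (not_lt.2 h2.le), if_neg h2.ne', if_neg hb, if_pos hw] at h3
        exact hz h3
      · intro hb
        obtain ⟨m, hm⟩ := exists_gt i
        refine ⟨m, ?_⟩
        intro l hl
        change g l = z₀
        have h2 : i < l := hm.trans_le hl
        simp only [g]
        rw [if_neg (not_lt.2 h2.le), if_neg h2.ne', if_pos hb]

theorem card_wf {K Z : Type} [LinearOrder K] (W : Set K) (hW : W.IsWF) (z₀ : Z) :
    #(W → Z) ≤ #(WF K Z z₀) := by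
  classical
  refine mk_le_of_injective (f := fun f : W → Z => (⟨fun k => if h : k ∈ W then f ⟨k, h⟩ else z₀,
    hW.mono (by
      intro k hk
      by_contra hcon
      apply hk
      simp [hcon])⟩ : WF K Z z₀)) ?_
  intro f g hfg
  funext w
  have h1 := congrFun (congrArg Subtype.val hfg) w.1
  simpa using h1

theorem card_wfP {K Z : Type} [LinearOrder K] (z₀ : Z) :
    #{f : WF K Z z₀ // ∃ k, ∀ l ≥ k, f.1 l = z₀} ≤
      Cardinal.sum (fun k : K => #(Set.Iio k → Z)) := by
  rw [← mk_sigma]
  refine mk_le_of_injective (f := fun f : {f : WF K Z z₀ // ∃ k, ∀ l ≥ k, f.1 l = z₀} =>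
    (⟨f.2.choose, fun l => f.1.1 l.1⟩ : Σ k : K, (Set.Iio k → Z))) ?_
  rintro ⟨⟨f, hf⟩, hf'⟩ ⟨⟨g, hg⟩, hg'⟩ h
  apply Subtype.ext
  apply Subtype.ext
  funext l
  have h1 : hf'.choose = hg'.choose := congrArg Sigma.fst h
  have hf2 := hf'.choose_spec
  have hg2 := hg'.choose_spec
  by_cases hl : l < hf'.choose
  · have h3 : ∀ (k k' : K) (u : Set.Iio k → Z) (v : Set.Iio k' → Z),
        (⟨k, u⟩ : Σ k : K, (Set.Iio k → Z)) = ⟨k', v⟩ → ∀ (hl : l < k) (hl' : l < k'),
        u ⟨l, hl⟩ = v ⟨l, hl'⟩ := by
      intro k k' u v huv hl hl'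
      cases huv
      rfl
    exact h3 _ _ _ _ h hl (h1 ▸ hl)
  · have h4 : f l = z₀ := hf2 l (not_lt.1 hl)
    have h5 : g l = z₀ := hg2 l (by rw [← h1]; exact not_lt.1 hl)
    exact h4.trans h5.symm

end Pool.Agent.TH767.B
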