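import Mathlib
import Pool.Agent.TH767.B.Gen

/-!
Random bipartite graphs: back-and-forth equivalence, existence with one side of size `κ` and the
other of size `2 ^ κ`.
-/

namespace Pool.Agent.TH767.B

open FirstOrder FirstOrder.Language FirstOrder.Language.Structure Function Cardinal

/-- The symbols. -/
inductive RB : ℕ → Type
  | u : RB 1
  | r : RB 2

/-- The language. -/
def LB : FirstOrder.Language.{0,0} := ⟨fun _ => Empty, RB⟩

instance : LB.IsRelational := fun _ => inferInstanceAs (IsEmpty Empty)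

/-- Interpretation. -/
def intB {P Q : Type} (R : P → Q → Prop) : {n : ℕ} → RB n → (Fin n → P ⊕ Q) → Prop
  | _, RB.u, a => ∃ p, a 0 = Sum.inl p
  | _, RB.r, a => ∃ p q, a 0 = Sum.inl p ∧ a 1 = Sum.inr q ∧ R p q

/-- The structure. -/
def rbStr {P Q : Type} (R : P → Q → Prop) : LB.Structure (P ⊕ Q) where
  funMap f := Empty.elim f
  RelMap S a := intB R S a

/-- The unary symbol. -/
def bu : LB.Relations 1 := RB.u

/-- The binary symbol. -/
def br : LB.Relations 2 := RB.r

/-- Genericity. -/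
structure Rnd {P Q : Type} (R : P → Q → Prop) : Prop where
  p : ∀ (S : Set Q) (T : Set P) (ε : Q → Prop), S.Finite → T.Finite →
    ∃ p, p ∉ T ∧ ∀ q ∈ S, R p q ↔ ε q
  q : ∀ (T : Set P) (S : Set Q) (ε : P → Prop), T.Finite → S.Finite →
    ∃ q, q ∉ S ∧ ∀ p ∈ T, R p q ↔ ε p

/-- Being on the left. -/
def IsL {P Q : Type} (z : P ⊕ Q) : Prop := ∃ p, z = Sum.inl p

/-- The relation on the sum. -/
def RR {P Q : Type} (R : P → Q → Prop) (z w : P ⊕ Q) : Prop :=
  ∃ p q, z = Sum.inl p ∧ w = Sum.inr q ∧ R p q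

theorem qf_rb {P Q P' Q' : Type} {R : P → Q → Prop} {R' : P' → Q' → Prop} {ι : Type}
    {a : ι → P ⊕ Q} {b : ι → P' ⊕ Q'} :
    @QF LB _ _ (rbStr R) (rbStr R') _ a b ↔
      (∀ i, IsL (a i) ↔ IsL (b i)) ∧ (∀ i j, RR R (a i) (a j) ↔ RR R' (b i) (b j)) := by
  let _ := rbStr R
  let _ := rbStr R'
  constructor
  · intro h
    exact ⟨fun i => h 1 bu ![i], fun i j => h 2 br ![i, j]⟩
  · rintro ⟨h1, h2⟩ n S x
    cases S with
    | u => exact h1 (x 0)
    | r => exact h2 (x 0) (x 1)

theorem rnd_forth {P Q P' Q' : Type} {R : P → Q → Prop} {R' : P' → Q' → Prop}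
    (h' : Rnd R') (ι : Type) (_ : Finite ι) (a : ι → P ⊕ Q) (b : ι → P' ⊕ Q')
    (_ : Injective a) (hb : Injective b)
    (hqf : @QF LB _ _ (rbStr R) (rbStr R') _ a b) (m : P ⊕ Q) (_ : m ∉ Set.range a) :
    ∃ m', m' ∉ Set.range b ∧ @QF LB _ _ (rbStr R) (rbStr R') _ (add a m) (add b m') := by
  obtain ⟨h1, h2⟩ := qf_rb.1 hqf
  have hTf : {p' : P' | ∃ i, b i = Sum.inl p'}.Finite := by
    refine Set.Finite.subset ((Set.finite_range b).preimage (f := Sum.inl)
      Sum.inl_injective.injOn) ?_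
    rintro p' ⟨i, hi⟩
    exact ⟨i, hi⟩
  have hSf : {q' : Q' | ∃ i, b i = Sum.inr q'}.Finite := by
    refine Set.Finite.subset ((Set.finite_range b).preimage (f := Sum.inr)
      Sum.inr_injective.injOn) ?_
    rintro p' ⟨i, hi⟩
    exact ⟨i, hi⟩
  rcases m with p | q
  · obtain ⟨p', hp', hp⟩ := h'.p _ _ (fun q' => ∃ i q, b i = Sum.inr q' ∧ a i = Sum.inr q ∧ R p q)
      hSf hTf
    refine ⟨Sum.inl p', fun ⟨i, hi⟩ => hp' ⟨i, hi⟩, qf_rb.2 ⟨?_, ?_⟩⟩
    · rintro (_ | i)
      · exact ⟨fun _ => ⟨p', rfl⟩, fun _ => ⟨p, rfl⟩⟩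
      · exact h1 i
    · rintro (_ | i) (_ | j)
      · constructor
        · rintro ⟨p₁, q₁, -, h, -⟩; cases h
        · rintro ⟨p₁, q₁, -, h, -⟩; cases h
      · constructor
        · rintro ⟨p₁, q₁, h3, h4, h5⟩
          have h3' : p = p₁ := Sum.inl.inj h3
          subst h3'
          have h4' : a j = Sum.inr q₁ := h4
          have h6 : ¬ IsL (b j) := by
            rw [← h1]
            rintro ⟨p₂, hp₂⟩
            rw [h4'] at hp₂; cases hp₂
          rcases hbj : b j with p₂ | q₂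
          · exact (h6 ⟨p₂, hbj⟩).elim
          · exact ⟨p', q₂, rfl, hbj, (hp q₂ ⟨j, hbj⟩).2 ⟨j, q₁, hbj, h4', h5⟩⟩
        · rintro ⟨p₁, q₁, h3, h4, h5⟩
          have h3' : p' = p₁ := Sum.inl.inj h3
          subst h3'
          have h4' : b j = Sum.inr q₁ := h4
          obtain ⟨i, q, h6, h7, h8⟩ := (hp q₁ ⟨j, h4'⟩).1 h5
          have h9 : i = j := hb (h6.trans h4'.symm)
          subst h9
          exact ⟨p, q, rfl, h7, h8⟩
      · constructor
        · rintro ⟨p₁, q₁, -, h, -⟩; cases h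
        · rintro ⟨p₁, q₁, -, h, -⟩; cases h
      · exact h2 i j
  · obtain ⟨q', hq', hq⟩ := h'.q _ _ (fun p' => ∃ i p, b i = Sum.inl p' ∧ a i = Sum.inl p ∧ R p q)
      hTf hSf
    refine ⟨Sum.inr q', fun ⟨i, hi⟩ => hq' ⟨i, hi⟩, qf_rb.2 ⟨?_, ?_⟩⟩
    · rintro (_ | i)
      · constructor
        · rintro ⟨p₁, h⟩; cases h
        · rintro ⟨p₁, h⟩; cases h
      · exact h1 i
    · rintro (_ | i) (_ | j)
      · constructor
        · rintro ⟨p₁, q₁, h, -, -⟩; cases h
        · rintro ⟨p₁, q₁, h, -, -⟩; cases h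
      · constructor
        · rintro ⟨p₁, q₁, h, -, -⟩; cases h
        · rintro ⟨p₁, q₁, h, -, -⟩; cases h
      · constructor
        · rintro ⟨p₁, q₁, h3, h4, h5⟩
          have h4' : q = q₁ := Sum.inr.inj h4
          subst h4'
          have h3' : a i = Sum.inl p₁ := h3
          obtain ⟨p₂, hp₂⟩ := (h1 i).1 ⟨p₁, h3'⟩
          exact ⟨p₂, q', hp₂, rfl, (hq p₂ ⟨i, hp₂⟩).2 ⟨i, p₁, hp₂, h3', h5⟩⟩
        · rintro ⟨p₁, q₁, h3, h4, h5⟩
          have h4' : q' = q₁ := Sum.inr.inj h4
          subst h4'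
          have h3' : b i = Sum.inl p₁ := h3
          obtain ⟨j, p, h6, h7, h8⟩ := (hq p₁ ⟨i, h3'⟩).1 h5
          have h9 : j = i := hb (h6.trans h3'.symm)
          subst h9
          exact ⟨p, q, h7, rfl, h8⟩
      · exact h2 i j

theorem bfe_rnd {P Q P' Q' : Type} {R : P → Q → Prop} {R' : P' → Q' → Prop}
    (h : Rnd R) (h' : Rnd R') : @BFE LB _ _ (rbStr R) (rbStr R') := by
  let _ := rbStr R
  let _ := rbStr R'
  refine bfe_ext' ?_ (rnd_forth h') (rnd_forth h)
  intro S
  cases S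

/-- The generic relation. -/
def gR {K Z : Type} (X : Z × (Finset (Finset K × Finset (Finset K)) ×
    Finset (Finset K × Finset (Finset K))) → Set K)
    (p : Finset K × Finset (Finset K)) (q : Z × (Finset (Finset K × Finset (Finset K)) ×
    Finset (Finset K × Finset (Finset K)))) : Prop :=
  p ∈ q.2.1 ∨ (p ∉ q.2.2 ∧ ∃ F ∈ p.2, ∀ k, k ∈ F ↔ k ∈ p.1 ∧ k ∈ X q)

theorem rnd_gR {K Z : Type} [Infinite K] [Infinite Z] (X : Z × (Finset (Finset K ×
    Finset (Finset K)) × Finset (Finset K × Finset (Finset K))) → Set K) (hX : Injective X) :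
    Rnd (gR X) := by
  classical
  constructor
  · intro S T ε hS hT
    -- separate the sets
    have hsep : ∀ q q', q ≠ q' → ∃ k, ¬ (k ∈ X q ↔ k ∈ X q') := by
      intro q q' hne
      by_contra hcon
      push Not at hcon
      exact hne (hX (Set.ext hcon))
    let sp : ∀ q q' : Z × (Finset (Finset K × Finset (Finset K)) ×
        Finset (Finset K × Finset (Finset K))), K := fun q q' =>
      if h : ∃ k, ¬ (k ∈ X q ↔ k ∈ X q') then h.choose else Classical.arbitrary K
    have hsp : ∀ q q', q ≠ q' → ¬ (sp q q' ∈ X q ↔ sp q q' ∈ X q') := by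
      intro q q' hne
      have h := hsep q q' hne
      simp only [sp]
      rw [dif_pos h]
      exact h.choose_spec
    let S' := hS.toFinset
    let F₀ : Finset K := (S' ×ˢ S').image (fun z => sp z.1 z.2)
    have hF₀ : ∀ q ∈ S, ∀ q' ∈ S, sp q q' ∈ F₀ := by
      intro q hq q' hq'
      refine Finset.mem_image.2 ⟨(q, q'), ?_, rfl⟩
      rw [Finset.mem_product]
      exact ⟨hS.mem_toFinset.2 hq, hS.mem_toFinset.2 hq'⟩
    let T' : Finset (Finset K × Finset (Finset K)) :=
      hT.toFinset ∪ S'.biUnion (fun q => q.2.1 ∪ q.2.2)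
    obtain ⟨k, hk⟩ := Infinite.exists_notMem_finset (T'.biUnion (fun p => p.1) ∪ F₀)
    rw [Finset.mem_union, not_or] at hk
    let F := insert k F₀
    let G : Finset (Finset K) :=
      (S'.filter ε).image (fun q => F.filter (fun k => k ∈ X q))
    have hFT : (F, G) ∉ T' := by
      intro hmem
      exact hk.1 (Finset.mem_biUnion.2 ⟨(F, G), hmem, Finset.mem_insert_self _ _⟩)
    refine ⟨(F, G), ?_, ?_⟩
    · intro h
      exact hFT (Finset.mem_union_left _ (hT.mem_toFinset.2 h))
    · intro q hq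
      have hn : (F, G) ∉ q.2.1 ∧ (F, G) ∉ q.2.2 := by
        constructor
        · intro h
          exact hFT (Finset.mem_union_right _ (Finset.mem_biUnion.2
            ⟨q, hS.mem_toFinset.2 hq, Finset.mem_union_left _ h⟩))
        · intro h
          exact hFT (Finset.mem_union_right _ (Finset.mem_biUnion.2
            ⟨q, hS.mem_toFinset.2 hq, Finset.mem_union_right _ h⟩))
      constructor
      · rintro (h | ⟨-, F', hF', h⟩)
        · exact (hn.1 h).elim
        · obtain ⟨q', hq', rfl⟩ := Finset.mem_image.1 hF'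
          rw [Finset.mem_filter] at hq'
          by_cases hqq : q = q'
          · rw [hqq]; exact hq'.2
          · exfalso
            have h3 : sp q q' ∈ F := Finset.mem_insert_of_mem
              (hF₀ q hq q' (hS.mem_toFinset.1 hq'.1))
            have h4 := h (sp q q')
            rw [Finset.mem_filter] at h4
            apply hsp q q' hqq
            constructor
            · intro h5
              exact (h4.2 ⟨h3, h5⟩).2
            · intro h5
              exact (h4.1 ⟨h3, h5⟩).2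
      · intro hε
        refine Or.inr ⟨hn.2, F.filter (fun k => k ∈ X q), ?_, ?_⟩
        · refine Finset.mem_image.2 ⟨q, ?_, rfl⟩
          rw [Finset.mem_filter]
          exact ⟨hS.mem_toFinset.2 hq, hε⟩
        · intro k
          rw [Finset.mem_filter]
  · intro T S ε hT hS
    obtain ⟨z, hz⟩ := (hS.image Prod.fst).exists_notMem
    refine ⟨(z, (hT.toFinset.filter ε, hT.toFinset)), fun h => hz ⟨_, h, rfl⟩, ?_⟩
    intro p hp
    constructor
    · rintro (h | ⟨h, -⟩)
      · exact (Finset.mem_filter.1 h).2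
      · exact (h (hT.mem_toFinset.2 hp)).elim
    · intro hε
      exact Or.inl (Finset.mem_filter.2 ⟨hT.mem_toFinset.2 hp, hε⟩)

/-- Existence of random bipartite graphs. -/
theorem exists_rnd {κ μ : Cardinal.{0}} (hκ : ℵ₀ ≤ κ) (hμ : κ ≤ μ) (hμ' : μ ≤ 2 ^ κ) :
    ∃ (P Q : Type) (R : P → Q → Prop), Rnd R ∧ #P = κ ∧ #Q = μ := by
  let K : Type := κ.out
  let Z : Type := μ.out
  have hK : #K = κ := mk_out κ
  have hZ : #Z = μ := mk_out μ
  have iK : Infinite K := by rw [infinite_iff, hK]; exact hκ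
  have iZ : Infinite Z := by rw [infinite_iff, hZ]; exact hκ.trans hμ
  have hP : #(Finset K × Finset (Finset K)) = κ := by
    rw [mk_prod, mk_finset_of_infinite, mk_finset_of_infinite, mk_finset_of_infinite]
    simp only [Cardinal.lift_id]
    rw [hK, mul_eq_self hκ]
  have iP : Infinite (Finset K × Finset (Finset K)) := by rw [infinite_iff, hP]; exact hκ
  have hQ : #(Z × (Finset (Finset K × Finset (Finset K)) ×
      Finset (Finset K × Finset (Finset K)))) = μ := by
    rw [mk_prod, mk_prod, mk_finset_of_infinite]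
    simp only [Cardinal.lift_id]
    rw [hP, hZ, mul_eq_self hκ, mul_eq_left (hκ.trans hμ) hμ]
    exact (aleph0_pos.trans_le hκ).ne'
  have hX : #(Z × (Finset (Finset K × Finset (Finset K)) ×
      Finset (Finset K × Finset (Finset K)))) ≤ #(Set K) := by
    rw [hQ, mk_set, hK]; exact hμ'
  obtain ⟨X⟩ := hX
  exact ⟨_, _, gR X, rnd_gR X X.injective, hP, hQ⟩

end Pool.Agent.TH767.B
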