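import Mathlib
import Pool.Agent.TH767.B.Rnd
import Pool.Agent.TH767.B.Main

/-!
If `κ` is an uncountable characterizable cardinal, then `2 ^ κ` is characterizable.
-/

namespace Pool.Agent.TH767.B

open FirstOrder FirstOrder.Language FirstOrder.Language.Structure Function Cardinal

theorem card_LB : LB.card ≤ ℵ₀ := by
  have h1 : IsEmpty (Σ n, LB.Functions n) := ⟨fun z => Empty.elim z.2⟩
  have h2 : Countable (Σ n, RB n) := by
    refine Function.Injective.countable (f := fun z : (Σ n, RB n) => z.1) ?_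
    rintro ⟨n, a⟩ ⟨m, b⟩ h
    cases a <;> cases b <;> first | rfl | (simp at h)
  have h3 : Countable LB.Symbols :=
    inferInstanceAs (Countable ((Σ n, LB.Functions n) ⊕ (Σ n, RB n)))
  exact Cardinal.mk_le_aleph0_iff.2 h3

/-- Values of an embedding at a pair. -/
theorem emb2 {L : FirstOrder.Language.{0,0}} {M A : Type} [L.Structure M] [L.Structure A]
    {j : M → A} (hj : ∀ n (R : L.Relations n) (x : Fin n → M), RelMap R (j ∘ x) ↔ RelMap R x)
    (R : L.Relations 2) (x y : M) : RelMap R ![j x, j y] ↔ RelMap R ![x, y] := by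
  rw [← hj 2 R ![x, y] ]
  have : j ∘ ![x, y] = ![j x, j y] := by
    funext i
    fin_cases i <;> rfl
  rw [this]

theorem emb1 {L : FirstOrder.Language.{0,0}} {M A : Type} [L.Structure M] [L.Structure A]
    {j : M → A} (hj : ∀ n (R : L.Relations n) (x : Fin n → M), RelMap R (j ∘ x) ↔ RelMap R x)
    (R : L.Relations 1) (x : M) : RelMap R ![j x] ↔ RelMap R ![x] := by
  rw [← hj 1 R ![x] ]
  have : j ∘ ![x] = ![j x] := by
    funext i
    fin_cases i; rfl
  rw [this]

theorem emb3 {L : FirstOrder.Language.{0,0}} {M A : Type} [L.Structure M] [L.Structure A]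
    {j : M → A} (hj : ∀ n (R : L.Relations n) (x : Fin n → M), RelMap R (j ∘ x) ↔ RelMap R x)
    (R : L.Relations 3) (x y z : M) : RelMap R ![j x, j y, j z] ↔ RelMap R ![x, y, z] := by
  rw [← hj 3 R ![x, y, z] ]
  have : j ∘ ![x, y, z] = ![j x, j y, j z] := by
    funext i
    fin_cases i <;> rfl
  rw [this]

theorem card_rnd {P Q : Type} {R : P → Q → Prop} [Countable P] [Countable Q] (h : Rnd R)
    {A : Type} [sA : LB.Structure A] (hA : @BFE LB (P ⊕ Q) A (rbStr R) sA) {κ : Cardinal.{0}}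
    (hκ : ℵ₀ ≤ κ) (hu : #{a : A // RelMap bu ![a]} ≤ κ) : #A ≤ 2 ^ κ := by
  classical
  let _ := rbStr R
  have h2 : κ ≤ 2 ^ κ := (cantor κ).le
  have hq : #{a : A // ¬ RelMap bu ![a]} ≤ 2 ^ κ := by
    have h3 : #{a : A // ¬ RelMap bu ![a]} ≤ #(Set {a : A // RelMap bu ![a]}) := by
      refine mk_le_of_injective (f := fun q => {p | RelMap br ![p.1, q.1]}) ?_
      rintro ⟨q, hq⟩ ⟨q', hq'⟩ hqq
      obtain ⟨j, hj1, hj2, hj3⟩ := bfe_embed hA (X := {q, q'}) (Set.toFinite _).countable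
      obtain ⟨z, rfl⟩ := hj3 (Set.mem_insert _ _)
      obtain ⟨z', rfl⟩ := hj3 (Set.mem_insert_of_mem _ rfl)
      rw [emb1 hj2] at hq hq'
      rcases z with p | q
      · exact (hq ⟨p, rfl⟩).elim
      rcases z' with p | q'
      · exact (hq' ⟨p, rfl⟩).elim
      by_contra hne
      have hne' : q ≠ q' := by
        rintro rfl
        exact hne rfl
      obtain ⟨p, -, hp⟩ := h.p {q, q'} ∅ (fun x => x = q) (Set.toFinite _) Set.finite_empty
      have e1 : R p q := (hp q (by simp)).2 rfl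
      have e2 : ¬ R p q' := fun e => hne' ((hp q' (by simp)).1 e).symm
      have hpA : RelMap bu ![j (Sum.inl p)] := by
        rw [emb1 hj2]
        exact ⟨p, rfl⟩
      have h4 : (⟨j (Sum.inl p), hpA⟩ : {a : A // RelMap bu ![a]}) ∈
          {p : {a : A // RelMap bu ![a]} | RelMap br ![p.1, j (Sum.inr q)]} := by
        change RelMap br ![j (Sum.inl p), j (Sum.inr q)]
        rw [emb2 hj2]
        exact ⟨p, q, rfl, rfl, e1⟩
      have h5 : (⟨j (Sum.inl p), hpA⟩ : {a : A // RelMap bu ![a]}) ∈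
          {p : {a : A // RelMap bu ![a]} | RelMap br ![p.1, j (Sum.inr q')]} := by
        rw [← (show {p : {a : A // RelMap bu ![a]} | RelMap br ![p.1, j (Sum.inr q)]} =
          {p : {a : A // RelMap bu ![a]} | RelMap br ![p.1, j (Sum.inr q')]} from hqq)]
        exact h4
      change RelMap br ![j (Sum.inl p), j (Sum.inr q')] at h5
      rw [emb2 hj2] at h5
      obtain ⟨p₁, q₁, h6, h7, h8⟩ := h5
      have h6' : p = p₁ := Sum.inl.inj h6
      have h7' : q' = q₁ := Sum.inr.inj h7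
      subst h6'
      subst h7'
      exact e2 h8
    refine h3.trans ?_
    rw [mk_set]
    exact power_le_power_left two_ne_zero hu
  have h4 : #A ≤ #({a : A // RelMap bu ![a]} ⊕ {a : A // ¬ RelMap bu ![a]}) :=
    (mk_congr (Equiv.sumCompl (fun a : A => RelMap bu ![a])).symm).le
  refine h4.trans ?_
  rw [mk_sum]
  simp only [Cardinal.lift_id]
  exact add_le_of_le (hκ.trans h2) (hu.trans h2) hq

theorem bb_bound {κ : Cardinal.{0}} (hκ1 : ℵ₁ ≤ κ) {L : FirstOrder.Language.{0,0}} {M : Type}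
    [L.Structure M] [Countable M] [Nonempty M]
    (hbd : ∀ (A : Type) (_ : L.Structure A), BFE L M A → #A ≠ Order.succ κ)
    {L₁ : FirstOrder.Language.{0,0}} [L₁.IsRelational] (u : L₁.Relations 1) {Y : Type}
    [L₁.Structure Y] {V : Type} {π : V → Y} {σ : Str M V}
    (hMd : Mdl {y | RelMap u ![y]} π σ) (A : Type) [sA : (LL (LR L) L₁).Structure A]
    (hA : letI := strR L M; BFE (LL (LR L) L₁) (Car π σ) A) :
    #(MA (LR L) L₁ A) ≤ κ ∧ #(VA (LR L) L₁ A) ≤ κ ∧ #(UA (LR L) L₁ u A) ≤ κ := by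
  letI iM : (LR L).Structure M := strR L M
  have hκ0 : ℵ₀ ≤ κ := (aleph0_lt_aleph_one.le).trans hκ1
  have h1 : #(MA (LR L) L₁ A) ≤ κ := by
    refine bound_MA hA hκ0 ?_
    intro B sB hB
    obtain ⟨s, hs⟩ := exists_str hB
    exact hbd B s hs
  have h2 := bound_VA hMd hA hκ1 h1
  exact ⟨h1, h2, (bound_UA u hMd hA).trans h2⟩

theorem aleph_one_le {κ : Cardinal.{0}} (hκ0 : ℵ₀ ≤ κ) (hne : κ ≠ ℵ₀) : ℵ₁ ≤ κ := by
  rw [← succ_aleph0]
  exact Order.succ_le_of_lt (lt_of_le_of_ne hκ0 (Ne.symm hne))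

theorem ch_two_pow_c {κ : Cardinal.{0}} (h : Ch κ) (hκ1 : ℵ₁ ≤ κ) : Ch (2 ^ κ) := by
  classical
  obtain ⟨hκ0, L, M, sM, hL, hMc, hmod, hbd⟩ := h
  have hMi : Infinite M := by
    obtain ⟨A, sA, hA, hbfe⟩ := hmod κ hκ0 le_rfl
    have : Infinite A := by rw [infinite_iff, hA]; exact hκ0
    exact infinite_of_bfe hbfe
  have hc : κ ≤ 2 ^ κ := (cantor κ).le
  letI iM : (LR L).Structure M := strR L M
  obtain ⟨P, Q, R, hR, hP, hQ⟩ := exists_rnd (κ := ℵ₀) (μ := ℵ₀) le_rfl le_rfl (cantor _).le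
  have hPc : Countable P := mk_le_aleph0_iff.1 hP.le
  have hQc : Countable Q := mk_le_aleph0_iff.1 hQ.le
  letI iN : LB.Structure (P ⊕ Q) := rbStr R
  have hU : #({y : P ⊕ Q | RelMap bu ![y]} : Set (P ⊕ Q)) ≤ #M :=
    (mk_le_aleph0).trans (infinite_iff.1 hMi)
  obtain ⟨V, π, σ, hV, hMd⟩ := exists_mdl (M := M) {y : P ⊕ Q | RelMap bu ![y]} hU
  have hVc : Countable V := mk_le_aleph0_iff.1 (hV.trans (mk_le_aleph0_iff.2 hMc))
  have hCc : Countable (Car π σ) := inferInstanceAs (Countable (M ⊕ (V ⊕ (P ⊕ Q))))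
  refine ⟨hκ0.trans hc, LL (LR L) LB, Car π σ, inferInstance, card_LL (card_LR hL) card_LB,
    hCc, ?_, ?_⟩
  · intro μ hμ0 hμ
    obtain ⟨A, sA, hA, hbfe⟩ := hmod κ hκ0 le_rfl
    have hAi : Infinite A := by rw [infinite_iff, hA]; exact hκ0
    obtain ⟨P', Q', R', hR', hP', hQ'⟩ := exists_rnd (κ := κ) (μ := 2 ^ κ) hκ0 hc le_rfl
    letI iA : (LR L).Structure A := strR L A
    letI iY : LB.Structure (P' ⊕ Q') := rbStr R'
    have hU' : #({y : P' ⊕ Q' | RelMap bu ![y]} : Set (P' ⊕ Q')) ≤ #A := by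
      rw [hA, ← hP']
      refine mk_le_of_surjective (f := fun p : P' =>
        (⟨Sum.inl p, p, rfl⟩ : {y : P' ⊕ Q' | RelMap bu ![y]})) ?_
      rintro ⟨z, p, hp⟩
      have hp' : z = Sum.inl p := hp
      subst hp'
      exact ⟨p, rfl⟩
    obtain ⟨V', π', σ', hV', hMd'⟩ := exists_mdl (M := A) {y : P' ⊕ Q' | RelMap bu ![y]} hU'
    have hB := bfe_car bu (bfe_strR hbfe) (bfe_rnd hR hR') hMd hMd'
    refine ls hB hμ0 (hμ.trans ?_)
    rw [← hQ']
    exact mk_le_of_injective (f := fun q : Q' => (Sum.inr (Sum.inr (Sum.inr q)) : Car π' σ'))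
      (fun q q' h => Sum.inr.inj (Sum.inr.inj (Sum.inr.inj h)))
  · intro A sA hA
    obtain ⟨h1, h2, h3⟩ := bb_bound hκ1 hbd bu hMd A hA
    have h4 : #(YA (LR L) LB A) ≤ 2 ^ κ := by
      refine card_rnd hR (bfe_YA hA) hκ0 (le_trans ?_ h3)
      exact mk_le_of_injective (f := fun a : {a : YA (LR L) LB A // RelMap bu ![a]} =>
        (⟨a.1, (by
          have h5 := a.2
          have h6 : (fun j => (![a.1] j : A)) = ![a.1.1] := by
            funext j
            fin_cases j; rfl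
          change RelMap (lb (LR L) bu) (fun j => (![a.1] j : A)) at h5
          rw [h6] at h5
          exact h5)⟩ : UA (LR L) LB bu A))
        (fun a b h => Subtype.ext
          (congrArg (fun z : UA (LR L) LB bu A => (z.1 : YA (LR L) LB A)) h))
    exact ((bound_A (hκ0.trans hc) (h1.trans hc) (h2.trans hc) h4).trans_lt
      (Order.lt_succ _)).ne

end Pool.Agent.TH767.B
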