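import Mathlib
import Pool.Agent.TH767.B.PowC

/-!
`2 ^ ℵ₀` is characterizable.
-/

namespace Pool.Agent.TH767.B

open FirstOrder FirstOrder.Language FirstOrder.Language.Structure Function Cardinal

/-- The symbols. -/
inductive RD : ℕ → Type
  | D (n : ℕ) : RD 2

/-- The language. -/
def LD : FirstOrder.Language.{0,0} := ⟨fun _ => Empty, RD⟩

instance : LD.IsRelational := fun _ => inferInstanceAs (IsEmpty Empty)

/-- Interpretation. -/
def intD {F : Type} (d : F → F → ℕ) : {n : ℕ} → RD n → (Fin n → F) → Prop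
  | _, RD.D n, a => a 0 ≠ a 1 ∧ d (a 0) (a 1) = n

/-- The structure. -/
def dStr {F : Type} (d : F → F → ℕ) : LD.Structure F where
  funMap f := Empty.elim f
  RelMap S a := intD d S a

/-- The symbols of the language. -/
def dn (n : ℕ) : LD.Relations 2 := RD.D n

/-- The universal part of the theory of binary ultrametric spaces. -/
structure BinU {F : Type} (d : F → F → ℕ) : Prop where
  symm : ∀ x y, d x y = d y x
  ultra : ∀ x y z, x ≠ y → y ≠ z → x ≠ z → min (d x y) (d y z) ≤ d x z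
  bin : ∀ x y z, x ≠ y → y ≠ z → x ≠ z → d x y = d x z → d x y < d y z

/-- Binary ultrametric spaces. -/
structure Bin {F : Type} (d : F → F → ℕ) : Prop extends BinU d where
  ext : ∀ x n, ∃ y, x ≠ y ∧ d x y = n

theorem card_LD : LD.card ≤ ℵ₀ := by
  have h1 : IsEmpty (Σ n, LD.Functions n) := ⟨fun z => Empty.elim z.2⟩
  have h2 : Countable (Σ n, RD n) := by
    refine Function.Surjective.countable (f := fun n : ℕ => (⟨2, RD.D n⟩ : Σ n, RD n)) ?_
    rintro ⟨n, a⟩
    cases a with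
    | D k => exact ⟨k, rfl⟩
  have h3 : Countable LD.Symbols :=
    inferInstanceAs (Countable ((Σ n, LD.Functions n) ⊕ (Σ n, RD n)))
  exact Cardinal.mk_le_aleph0_iff.2 h3

theorem qf_d {F F' : Type} {d : F → F → ℕ} {d' : F' → F' → ℕ} {ι : Type}
    {a : ι → F} {b : ι → F'} :
    @QF LD _ _ (dStr d) (dStr d') _ a b ↔ ∀ n i j, (a i ≠ a j ∧ d (a i) (a j) = n) ↔
      (b i ≠ b j ∧ d' (b i) (b j) = n) := by
  let _ := dStr d
  let _ := dStr d'
  constructor
  · intro h n i j
    exact h 2 (dn n) ![i, j]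
  · intro h n S x
    cases S with
    | D k => exact h k (x 0) (x 1)

theorem bin_forth {F F' : Type} {d : F → F → ℕ} {d' : F' → F' → ℕ} (h : Bin d) (h' : Bin d')
    [Nonempty F'] (ι : Type) (_ : Finite ι) (a : ι → F) (b : ι → F')
    (ha : Injective a) (hb : Injective b)
    (hqf : @QF LD _ _ (dStr d) (dStr d') _ a b) (m : F) (hm : m ∉ Set.range a) :
    ∃ m', m' ∉ Set.range b ∧ @QF LD _ _ (dStr d) (dStr d') _ (add a m) (add b m') := by
  have h1 := qf_d.1 hqf
  have hma : ∀ i, m ≠ a i := fun i e => hm ⟨i, e.symm⟩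
  have hd : ∀ i j, i ≠ j → d (a i) (a j) = d' (b i) (b j) := by
    intro i j hij
    exact (((h1 _ i j).1 ⟨fun e => hij (ha e), rfl⟩).2).symm
  suffices hs : ∃ m', (∀ i, m' ≠ b i) ∧ ∀ i, d' m' (b i) = d m (a i) by
    obtain ⟨m', h2, h3⟩ := hs
    refine ⟨m', fun ⟨i, e⟩ => h2 i e.symm, qf_d.2 ?_⟩
    rintro n (_ | i) (_ | j)
    · constructor
      · rintro ⟨e, -⟩; exact (e rfl).elim
      · rintro ⟨e, -⟩; exact (e rfl).elim
    · constructor
      · rintro ⟨-, e⟩; exact ⟨h2 j, (h3 j).trans e⟩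
      · rintro ⟨-, e⟩; exact ⟨hma j, (h3 j).symm.trans e⟩
    · constructor
      · rintro ⟨-, e⟩
        exact ⟨(h2 i).symm, (h'.symm _ _).trans ((h3 i).trans ((h.symm _ _).trans e))⟩
      · rintro ⟨-, e⟩
        exact ⟨(hma i).symm, (h.symm _ _).trans ((h3 i).symm.trans ((h'.symm _ _).trans e))⟩
    · exact h1 n i j
  rcases isEmpty_or_nonempty ι with hι | hι
  · exact ⟨Classical.arbitrary F', fun i => (hι.false i).elim, fun i => (hι.false i).elim⟩
  obtain ⟨i₀, hi₀⟩ := Finite.exists_max (fun i => d m (a i))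
  obtain ⟨m', hm', hd'⟩ := h'.ext (b i₀) (d m (a i₀))
  have key : ∀ i, m' ≠ b i ∧ d' m' (b i) = d m (a i) := by
    intro i
    by_cases hi : i = i₀
    · subst hi
      exact ⟨hm'.symm, (h'.symm _ _).trans hd'⟩
    have e1 := hd i i₀ hi
    have hbi : b i ≠ b i₀ := fun e => hi (hb e)
    have hai : a i ≠ a i₀ := fun e => hi (ha e)
    have u1 := h.ultra (a i) m (a i₀) (hma i).symm (hma i₀) hai
    have u2 := h.ultra m (a i₀) (a i) (hma i₀) hai.symm (hma i)
    rw [h.symm (a i) m] at u1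
    rw [h.symm (a i₀) (a i)] at u2
    rcases lt_or_eq_of_le (hi₀ i) with hlt | heq
    · -- smaller distance
      have hlt' : d m (a i) < d m (a i₀) := hlt
      have e2 : d (a i) (a i₀) = d m (a i) := by
        rcases le_total (d m (a i₀)) (d (a i) (a i₀)) with h5 | h5
        · rw [min_eq_left h5] at u2
          omega
        · rw [min_eq_right h5] at u2
          rw [min_eq_left hlt'.le] at u1
          omega
      have e3 : d' (b i) (b i₀) = d m (a i) := e1.symm.trans e2
      have hne : m' ≠ b i := by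
        rintro rfl
        rw [h'.symm] at hd'
        omega
      refine ⟨hne, ?_⟩
      have v1 := h'.ultra m' (b i₀) (b i) hm'.symm hbi.symm hne
      have v2 := h'.ultra (b i) m' (b i₀) hne.symm hm'.symm hbi
      rw [h'.symm m' (b i₀), hd', h'.symm (b i₀) (b i), e3, min_eq_right hlt'.le] at v1
      rw [h'.symm m' (b i₀), hd', e3, h'.symm (b i) m'] at v2
      rcases le_total (d' m' (b i)) (d m (a i₀)) with h5 | h5
      · rw [min_eq_left h5] at v2
        omega
      · rw [min_eq_right h5] at v2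
        omega
    · have heq' : d m (a i) = d m (a i₀) := heq
      have b1 := h.bin m (a i) (a i₀) (hma i) hai (hma i₀) heq'
      rw [e1] at b1
      have hne : m' ≠ b i := by
        rintro rfl
        rw [h'.symm] at hd'
        omega
      refine ⟨hne, ?_⟩
      have v1 := h'.ultra m' (b i₀) (b i) hm'.symm hbi.symm hne
      have v2 := h'.ultra m' (b i) (b i₀) hne hbi hm'.symm
      rw [h'.symm m' (b i₀), hd', h'.symm (b i₀) (b i), min_eq_left (by omega)] at v1
      rw [h'.symm m' (b i₀), hd'] at v2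
      rcases le_total (d' m' (b i)) (d' (b i) (b i₀)) with h5 | h5
      · rw [min_eq_left h5] at v2
        omega
      · rw [min_eq_right h5] at v2
        omega
  exact ⟨m', fun i => (key i).1, fun i => (key i).2⟩

theorem bfe_bin {F F' : Type} {d : F → F → ℕ} {d' : F' → F' → ℕ} (h : Bin d) (h' : Bin d')
    [Nonempty F] [Nonempty F'] : @BFE LD _ _ (dStr d) (dStr d') := by
  let _ := dStr d
  let _ := dStr d'
  refine bfe_ext' ?_ (bin_forth h h') (bin_forth h' h)
  intro S
  cases S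

open Classical in
/-- The distance read off a structure. -/
noncomputable def dA (A : Type) [LD.Structure A] (x y : A) : ℕ :=
  if h : ∃ n, RelMap (dn n) ![x, y] then h.choose else 0

theorem dA_emb {F A : Type} [sA : LD.Structure A] {d : F → F → ℕ} {j : F → A}
    (hj2 : ∀ n (R : LD.Relations n) (x : Fin n → F),
      RelMap R (j ∘ x) ↔ @RelMap LD F (dStr d) _ R x) {x y : F} (hxy : x ≠ y) :
    dA A (j x) (j y) = d x y := by
  let _ := dStr d
  have h1 : ∀ n, RelMap (dn n) ![j x, j y] ↔ d x y = n := by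
    intro n
    rw [emb2 hj2]
    exact ⟨fun h => h.2, fun h => ⟨hxy, h⟩⟩
  have h2 : ∃ n, RelMap (dn n) ![j x, j y] := ⟨_, (h1 _).2 rfl⟩
  unfold dA
  rw [dif_pos h2]
  exact ((h1 _).1 h2.choose_spec).symm

theorem binU_A {F A : Type} [sA : LD.Structure A] [Countable F] {d : F → F → ℕ} (h : Bin d)
    (hA : @BFE LD F A (dStr d) sA) : (∀ x y : A, x ≠ y → dA A x y = dA A y x) ∧
    (∀ x y z : A, x ≠ y → y ≠ z → x ≠ z → min (dA A x y) (dA A y z) ≤ dA A x z) ∧
    (∀ x y z : A, x ≠ y → y ≠ z → x ≠ z → dA A x y = dA A x z → dA A x y < dA A y z) := by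
  let _ := dStr d
  have hne : ∀ {j : F → A} {x y : F}, j x ≠ j y → x ≠ y := fun h e => h (congrArg _ e)
  refine ⟨?_, ?_, ?_⟩
  · intro x y hxy
    obtain ⟨j, hj1, hj2, hj3⟩ := bfe_embed hA (X := {x, y}) (Set.toFinite _).countable
    obtain ⟨x, rfl⟩ := hj3 (by simp : x ∈ _)
    obtain ⟨y, rfl⟩ := hj3 (by simp : y ∈ _)
    rw [dA_emb hj2 (hne hxy), dA_emb hj2 (hne hxy).symm, h.symm]
  · intro x y z hxy hyz hxz
    obtain ⟨j, hj1, hj2, hj3⟩ := bfe_embed hA (X := {x, y, z}) (Set.toFinite _).countable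
    obtain ⟨x, rfl⟩ := hj3 (by simp : x ∈ _)
    obtain ⟨y, rfl⟩ := hj3 (by simp : y ∈ _)
    obtain ⟨z, rfl⟩ := hj3 (by simp : z ∈ _)
    rw [dA_emb hj2 (hne hxy), dA_emb hj2 (hne hyz), dA_emb hj2 (hne hxz)]
    exact h.ultra _ _ _ (hne hxy) (hne hyz) (hne hxz)
  · intro x y z hxy hyz hxz
    obtain ⟨j, hj1, hj2, hj3⟩ := bfe_embed hA (X := {x, y, z}) (Set.toFinite _).countable
    obtain ⟨x, rfl⟩ := hj3 (by simp : x ∈ _)
    obtain ⟨y, rfl⟩ := hj3 (by simp : y ∈ _)
    obtain ⟨z, rfl⟩ := hj3 (by simp : z ∈ _)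
    rw [dA_emb hj2 (hne hxy), dA_emb hj2 (hne hyz), dA_emb hj2 (hne hxz)]
    exact h.bin _ _ _ (hne hxy) (hne hyz) (hne hxz)

theorem card_bin {F A : Type} [sA : LD.Structure A] [Countable F] {d : F → F → ℕ}
    (h : Bin d) (hA : @BFE LD F A (dStr d) sA) [Nonempty F] : #A ≤ 2 ^ ℵ₀ := by
  classical
  let _ := dStr d
  obtain ⟨hs, hu, hb⟩ := binU_A h hA
  obtain ⟨j, hj1, hj2, -⟩ := bfe_embed hA (X := ∅) Set.countable_empty
  have hdense : ∀ x : A, ∀ n : ℕ, ∃ c : F, x = j c ∨ n ≤ dA A x (j c) := by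
    intro x n
    induction n with
    | zero => exact ⟨Classical.arbitrary F, Or.inr (Nat.zero_le _)⟩
    | succ n ih =>
      obtain ⟨c, hc⟩ := ih
      by_cases hxc : x = j c
      · exact ⟨c, Or.inl hxc⟩
      have hc' := hc.resolve_left hxc
      rcases Nat.lt_or_ge n (dA A x (j c)) with hlt | hge
      · exact ⟨c, Or.inr hlt⟩
      have heq : dA A x (j c) = n := le_antisymm hge hc'
      obtain ⟨c', hcc', hd⟩ := h.ext c n
      refine ⟨c', ?_⟩
      by_cases hxc' : x = j c'
      · exact Or.inl hxc'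
      right
      have e1 : dA A (j c) x = dA A (j c) (j c') := by
        rw [hs _ _ (Ne.symm hxc), heq, dA_emb hj2 hcc', hd]
      have e2 := hb (j c) x (j c') (Ne.symm hxc) hxc' (fun e => hcc' (hj1 e)) e1
      rw [hs _ _ (Ne.symm hxc), heq] at e2
      exact e2
  choose Φ hΦ using hdense
  have h1 : #A ≤ #(ℕ → F) := by
    refine mk_le_of_injective (f := Φ) ?_
    intro x y hxy
    by_contra hne
    have h2 := hΦ x (dA A x y + 1)
    have h3 := hΦ y (dA A x y + 1)
    rw [← hxy] at h3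
    rcases h2 with h2 | h2
    · rcases h3 with h3 | h3
      · exact hne (h2.trans h3.symm)
      · rw [← h2, ← hs x y hne] at h3
        omega
    · rcases h3 with h3 | h3
      · rw [← h3] at h2
        omega
      · by_cases h4 : x = j (Φ x (dA A x y + 1))
        · rw [← h4, ← hs x y hne] at h3
          omega
        · by_cases h5 : y = j (Φ x (dA A x y + 1))
          · rw [← h5] at h2
            omega
          · have h6 := hu x (j (Φ x (dA A x y + 1))) y h4 (Ne.symm h5) hne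
            rw [← hs y _ h5] at h6
            have h7 := le_min h2 h3
            omega
  refine h1.trans ?_
  rw [← power_def]
  have h2 : #F ≤ 2 ^ ℵ₀ := (mk_le_aleph0).trans (cantor _).le
  refine (power_le_power_right h2).trans ?_
  rw [mk_nat, ← power_mul, aleph0_mul_aleph0]

/-- The distance of two sets of natural numbers. -/
noncomputable def sd {F : Type} (G : F → Set ℕ) (x y : F) : ℕ :=
  sInf {n | ¬ (n ∈ G x ↔ n ∈ G y)}

theorem bin_sd {F : Type} (G : F → Set ℕ) (hG : Injective G)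
    (hf : ∀ x n, ∃ y, ∀ k, k ∈ G y ↔ (if k = n then k ∉ G x else k ∈ G x)) : Bin (sd G) := by
  have hex : ∀ {x y}, x ≠ y → {n | ¬ (n ∈ G x ↔ n ∈ G y)}.Nonempty := by
    intro x y hxy
    by_contra hcon
    rw [Set.not_nonempty_iff_eq_empty] at hcon
    apply hxy
    apply hG
    ext n
    by_contra h
    have : n ∈ {n | ¬ (n ∈ G x ↔ n ∈ G y)} := h
    rw [hcon] at this
    exact this
  have hm : ∀ {x y}, x ≠ y → ¬ (sd G x y ∈ G x ↔ sd G x y ∈ G y) := fun hxy => Nat.sInf_mem (hex hxy)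
  have hl : ∀ {x y n}, n < sd G x y → (n ∈ G x ↔ n ∈ G y) := by
    intro x y n hn
    by_contra h
    exact Nat.notMem_of_lt_sInf hn h
  have hle : ∀ {x y n}, x ≠ y → (∀ m < n, (m ∈ G x ↔ m ∈ G y)) → n ≤ sd G x y := by
    intro x y n hxy h
    by_contra hlt
    push Not at hlt
    exact hm hxy (h _ hlt)
  refine ⟨⟨?_, ?_, ?_⟩, ?_⟩
  · intro x y
    unfold sd
    congr 1
    ext n
    simp only [Set.mem_ofPred_eq]
    tauto
  · intro x y z _ _ hxz
    refine hle hxz ?_
    intro m hm'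
    rw [hl (lt_min_iff.1 hm').1, hl (lt_min_iff.1 hm').2]
  · intro x y z hxy hyz hxz he
    refine hle hyz ?_
    intro m hm'
    rcases Nat.lt_succ_iff_lt_or_eq.1 hm' with h1 | h1
    · rw [← hl h1]
      rw [he] at h1
      exact hl h1
    · subst h1
      have h2 := hm hxy
      have h3 := hm hxz
      rw [← he] at h3
      tauto
  · intro x n
    obtain ⟨y, hy⟩ := hf x n
    have hn : ¬ (n ∈ G x ↔ n ∈ G y) := by
      rw [hy]
      simp
    have hxy : x ≠ y := by
      rintro rfl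
      exact hn Iff.rfl
    refine ⟨y, hxy, le_antisymm (Nat.sInf_le hn) (hle hxy ?_)⟩
    intro m hm'
    rw [hy, if_neg hm'.ne]

theorem ch_two_pow_aleph0 : Ch (2 ^ ℵ₀) := by
  classical
  have b1 : Bin (sd (fun S : Finset ℕ => (S : Set ℕ))) := by
    refine bin_sd _ Finset.coe_injective ?_
    intro x n
    refine ⟨if n ∈ x then x.erase n else insert n x, ?_⟩
    intro k
    by_cases hn : n ∈ x
    · rw [if_pos hn]
      by_cases hk : k = n
      · subst hk; simp [hn]
      · simp [hk]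
    · rw [if_neg hn]
      by_cases hk : k = n
      · subst hk; simp [hn]
      · simp [hk]
  have b2 : Bin (sd (fun S : Set ℕ => S)) := by
    refine bin_sd _ (fun _ _ h => h) ?_
    intro x n
    exact ⟨{k | if k = n then k ∉ x else k ∈ x}, fun k => Iff.rfl⟩
  letI i1 : LD.Structure (Finset ℕ) := dStr (sd (fun S : Finset ℕ => (S : Set ℕ)))
  letI i2 : LD.Structure (Set ℕ) := dStr (sd (fun S : Set ℕ => S))
  refine ⟨(cantor _).le, LD, Finset ℕ, i1, card_LD, inferInstance, ?_, ?_⟩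
  · intro μ hμ0 hμ
    refine ls (bfe_bin b1 b2) hμ0 ?_
    rw [mk_set, mk_nat]
    exact hμ
  · intro A sA hA
    exact ((card_bin b1 hA).trans_lt (Order.lt_succ _)).ne

/-- The class of characterizable cardinals is closed under `κ ↦ 2 ^ κ`. -/
theorem ch_two_pow {κ : Cardinal.{0}} (h : Ch κ) : Ch (2 ^ κ) := by
  by_cases hκ : κ = ℵ₀
  · rw [hκ]; exact ch_two_pow_aleph0
  · exact ch_two_pow_c h (aleph_one_le h.1 hκ)

end Pool.Agent.TH767.B
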