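import Mathlib
import Pool.Agent.TH767.B.Tree
import Pool.Agent.TH767.B.PowB

/-!
The cardinality bound for tree structures, and the trees of functions.
-/

namespace Pool.Agent.TH767.B

open FirstOrder FirstOrder.Language FirstOrder.Language.Structure Function Cardinal

/-- The symbol for the linear order. -/
def tK (L : FirstOrder.Language.{0,0}) : (LT L).Relations 1 := Sum.inr RT.isK

/-- The symbol for the dense predicate. -/
def tP (L : FirstOrder.Language.{0,0}) : (LT L).Relations 1 := Sum.inr RT.isP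

/-- The symbol for the distance. -/
def tD (L : FirstOrder.Language.{0,0}) : (LT L).Relations 3 := Sum.inr RT.dist

/-- The symbols of the linear order. -/
def tL {L : FirstOrder.Language.{0,0}} {n : ℕ} (R : L.Relations n) : (LT L).Relations n :=
  Sum.inl R

section Bd

variable {L : FirstOrder.Language.{0,0}} {K F : Type} [L.Structure K] {d : F → F → K}
  {P : F → Prop}

theorem tK_iff {z : K ⊕ F} : @RelMap _ _ (tStr L d P) _ (tK L) ![z] ↔ ∃ k, z = Sum.inl k :=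
  Iff.rfl

theorem tP_iff {z : K ⊕ F} :
    @RelMap _ _ (tStr L d P) _ (tP L) ![z] ↔ ∃ f, z = Sum.inr f ∧ P f := Iff.rfl

theorem tD_iff {f g : F} {k : K} : @RelMap _ _ (tStr L d P) _ (tD L)
    ![Sum.inr f, Sum.inr g, Sum.inl k] ↔ f ≠ g ∧ d f g = k := by
  constructor
  · rintro ⟨f', g', h1, h2, h3, h4⟩
    have h2' : f = f' := Sum.inr.inj h2
    have h3' : g = g' := Sum.inr.inj h3
    subst h2'
    subst h3'
    exact ⟨h1, (Sum.inl.inj h4).symm⟩
  · rintro ⟨h1, h2⟩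
    exact ⟨f, g, h1, rfl, rfl, congrArg Sum.inl h2.symm⟩

theorem tL_iff (lt : L.Relations 2) {k l : K} : @RelMap _ _ (tStr L d P) _ (tL lt)
    ![Sum.inl k, Sum.inl l] ↔ RelMap lt ![k, l] := by
  constructor
  · rintro ⟨b, hb, hR⟩
    have h1 : b = ![k, l] := by
      funext i
      fin_cases i
      · exact (Sum.inl.inj (hb 0)).symm
      · exact (Sum.inl.inj (hb 1)).symm
    rw [← h1]; exact hR
  · intro h
    refine ⟨![k, l], ?_, h⟩
    intro i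
    fin_cases i <;> rfl

theorem card_tree [LinearOrder K] [NoMaxOrder K] [Nonempty K] [Countable K] [Countable F]
    (lt : L.Relations 2) (hlt : ∀ a b : K, RelMap lt ![a, b] ↔ a < b) (h : Tree d P) {A : Type}
    [sA : (LT L).Structure A] (hA : @BFE (LT L) (K ⊕ F) A (tStr L d P) sA) :
    #{a : A // ¬ RelMap (tK L) ![a]} ≤
      #({a : A // RelMap (tK L) ![a]} → {a : A // RelMap (tP L) ![a]}) := by
  classical
  let _ := tStr L d P
  have hex : ∀ (x : {a : A // ¬ RelMap (tK L) ![a]}) (k : {a : A // RelMap (tK L) ![a]}),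
      ∃ p : {a : A // RelMap (tP L) ![a]}, RelMap (tD L) ![p.1, x.1, k.1] := by
    rintro ⟨x, hx⟩ ⟨k, hk⟩
    obtain ⟨j, hj1, hj2, hj3⟩ := bfe_embed hA (X := {x, k}) (Set.toFinite _).countable
    obtain ⟨z, rfl⟩ := hj3 (Set.mem_insert _ _)
    obtain ⟨z', rfl⟩ := hj3 (Set.mem_insert_of_mem _ rfl)
    rw [emb1 hj2, tK_iff] at hx hk
    obtain ⟨k, rfl⟩ := hk
    rcases z with l | f
    · exact (hx ⟨l, rfl⟩).elim
    obtain ⟨g, hg, hg'⟩ := h.ext {f} f k True (Set.finite_singleton f)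
    obtain ⟨h1, h2⟩ := hg' f rfl (Or.inl rfl)
    refine ⟨⟨j (Sum.inr g), ?_⟩, ?_⟩
    · rw [emb1 hj2, tP_iff]
      exact ⟨g, rfl, hg.2 trivial⟩
    · change RelMap (tD L) ![j (Sum.inr g), j (Sum.inr f), j (Sum.inl k)]
      rw [emb3 hj2, tD_iff]
      exact ⟨h1, h2⟩
  choose Φ hΦ using hex
  refine mk_le_of_injective (f := Φ) ?_
  rintro ⟨x, hx⟩ ⟨x', hx'⟩ hxx
  by_contra hne
  obtain ⟨j, hj1, hj2, hj3⟩ := bfe_embed hA (X := {x, x'}) (Set.toFinite _).countable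
  obtain ⟨z, hz⟩ := hj3 (Set.mem_insert _ _)
  obtain ⟨z', hz'⟩ := hj3 (Set.mem_insert_of_mem _ rfl)
  have hz1 : ¬ ∃ k, z = Sum.inl k := by
    rw [← tK_iff (L := L) (d := d) (P := P), ← emb1 hj2, hz]; exact hx
  have hz1' : ¬ ∃ k, z' = Sum.inl k := by
    rw [← tK_iff (L := L) (d := d) (P := P), ← emb1 hj2, hz']; exact hx'
  rcases z with l | f
  · exact hz1 ⟨l, rfl⟩
  rcases z' with l | f'
  · exact hz1' ⟨l, rfl⟩
  have hff : f ≠ f' := by
    rintro rfl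
    exact hne (Subtype.ext (hz.symm.trans hz'))
  obtain ⟨k₁, hk₁⟩ := exists_gt (d f f')
  have r1 : RelMap (tD L) ![j (Sum.inr f), j (Sum.inr f'), j (Sum.inl (d f f'))] := by
    rw [emb3 hj2, tD_iff]
    exact ⟨hff, rfl⟩
  have r2 : RelMap (tL lt) ![j (Sum.inl (d f f')), j (Sum.inl k₁)] := by
    rw [emb2 hj2, tL_iff, hlt]
    exact hk₁
  have r3 : RelMap (tK L) ![j (Sum.inl k₁)] := by
    rw [emb1 hj2, tK_iff]
    exact ⟨k₁, rfl⟩
  have r4 := hΦ ⟨x, hx⟩ ⟨_, r3⟩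
  have r5 := hΦ ⟨x', hx'⟩ ⟨_, r3⟩
  rw [← hxx] at r5
  generalize hp : Φ ⟨x, hx⟩ ⟨_, r3⟩ = p at r4 r5
  rw [hz] at r1
  rw [hz'] at r1
  obtain ⟨i, hi1, hi2, hi3⟩ := bfe_embed hA (X := {x, x', p.1, j (Sum.inl (d f f')),
    j (Sum.inl k₁)}) (Set.toFinite _).countable
  obtain ⟨y, hy⟩ := hi3 (show x ∈ _ by simp)
  obtain ⟨y', hy'⟩ := hi3 (show x' ∈ _ by simp)
  obtain ⟨q, hq⟩ := hi3 (show p.1 ∈ _ by simp)
  obtain ⟨k, hk⟩ := hi3 (show j (Sum.inl (d f f')) ∈ _ by simp)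
  obtain ⟨l, hl⟩ := hi3 (show j (Sum.inl k₁) ∈ _ by simp)
  change RelMap (tD L) ![p.1, x, j (Sum.inl k₁)] at r4
  change RelMap (tD L) ![p.1, x', j (Sum.inl k₁)] at r5
  rw [← hy, ← hy', ← hk, emb3 hi2] at r1
  rw [← hk, ← hl, emb2 hi2] at r2
  rw [← hq, ← hy, ← hl, emb3 hi2] at r4
  rw [← hq, ← hy', ← hl, emb3 hi2] at r5
  obtain ⟨f₁, f₁', n1, e1, e2, e3⟩ := r1
  obtain ⟨q₂, f₂, n2, e4, e5, e6⟩ := r4
  obtain ⟨q₃, f₃, n3, e7, e8, e9⟩ := r5
  have e1 : y = Sum.inr f₁ := e1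
  have e2 : y' = Sum.inr f₁' := e2
  have e3 : k = Sum.inl (d f₁ f₁') := e3
  have e4 : q = Sum.inr q₂ := e4
  have e5 : y = Sum.inr f₂ := e5
  have e6 : l = Sum.inl (d q₂ f₂) := e6
  have e7 : q = Sum.inr q₃ := e7
  have e8 : y' = Sum.inr f₃ := e8
  have e9 : l = Sum.inl (d q₃ f₃) := e9
  subst e1
  subst e2
  subst e3
  subst e4
  obtain rfl := Sum.inr.inj e5
  subst e6
  obtain rfl := Sum.inr.inj e7
  obtain rfl := Sum.inr.inj e8
  rw [tL_iff, hlt] at r2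
  have e10 := Sum.inl.inj e9
  have u := h.ultra f₁ q₂ f₁' n2.symm n3 n1
  rw [h.symm f₁ q₂, ← e10, min_self] at u
  exact not_lt.2 u r2

end Bd

end Pool.Agent.TH767.B
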