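import Mathlib
import Pool.Agent.TH767.B.FunTree
import Pool.Agent.TH767.B.TreeB

/-!
The language of linear orders with countably many unary predicates.
-/

namespace Pool.Agent.TH767.B

open FirstOrder FirstOrder.Language FirstOrder.Language.Structure Function Cardinal

/-- The symbols. -/
inductive RK : ℕ → Type
  | lt : RK 2
  | c (n : ℕ) : RK 1

/-- The language. -/
def LO : FirstOrder.Language.{0,0} := ⟨fun _ => Empty, RK⟩

instance : LO.IsRelational := fun _ => inferInstanceAs (IsEmpty Empty)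

/-- Interpretation. -/
def intK {K : Type} [LinearOrder K] (c : ℕ → K → Prop) : {n : ℕ} → RK n → (Fin n → K) → Prop
  | _, RK.lt, a => a 0 < a 1
  | _, RK.c n, a => c n (a 0)

/-- The structure. -/
def kStr {K : Type} [LinearOrder K] (c : ℕ → K → Prop) : LO.Structure K where
  funMap f := Empty.elim f
  RelMap S a := intK c S a

/-- The order symbol. -/
def oL : LO.Relations 2 := RK.lt

/-- The unary symbols. -/
def oc (n : ℕ) : LO.Relations 1 := RK.c n

theorem card_LO : LO.card ≤ ℵ₀ := by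
  have h1 : IsEmpty (Σ n, LO.Functions n) := ⟨fun z => Empty.elim z.2⟩
  have h2 : Countable (Σ n, RK n) := by
    refine Function.Surjective.countable (f := fun n : Option ℕ =>
      (match n with
        | none => ⟨2, RK.lt⟩
        | some n => ⟨1, RK.c n⟩ : Σ n, RK n)) ?_
    rintro ⟨n, a⟩
    cases a with
    | lt => exact ⟨none, rfl⟩
    | c k => exact ⟨some k, rfl⟩
  have h3 : Countable LO.Symbols :=
    inferInstanceAs (Countable ((Σ n, LO.Functions n) ⊕ (Σ n, RK n)))
  exact Cardinal.mk_le_aleph0_iff.2 h3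

theorem card_LT {L : FirstOrder.Language.{0,0}} (h : L.card ≤ ℵ₀) : (LT L).card ≤ ℵ₀ := by
  have c0 := countable_rel h
  have h1 : IsEmpty (Σ n, (LT L).Functions n) := ⟨fun z => Empty.elim z.2⟩
  have h2 : Countable (Σ n, RT n) := by
    refine Function.Surjective.countable (f := fun n : Fin 3 =>
      (match n with
        | 0 => ⟨1, RT.isK⟩
        | 1 => ⟨1, RT.isP⟩
        | 2 => ⟨3, RT.dist⟩ : Σ n, RT n)) ?_
    rintro ⟨n, a⟩
    cases a with
    | isK => exact ⟨0, rfl⟩
    | isP => exact ⟨1, rfl⟩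
    | dist => exact ⟨2, rfl⟩
  have c4 : Countable (Σ n, (LT L).Relations n) := by
    refine Function.Surjective.countable (f := fun z : (Σ n, L.Relations n) ⊕ (Σ n, RT n) =>
      (match z with
        | Sum.inl ⟨n, R⟩ => ⟨n, Sum.inl R⟩
        | Sum.inr ⟨n, R⟩ => ⟨n, Sum.inr R⟩ : Σ n, (LT L).Relations n)) ?_
    rintro ⟨n, R | R⟩
    · exact ⟨Sum.inl ⟨n, R⟩, rfl⟩
    · exact ⟨Sum.inr ⟨n, R⟩, rfl⟩
  have h3 : Countable (LT L).Symbols :=
    inferInstanceAs (Countable ((Σ n, (LT L).Functions n) ⊕ (Σ n, (LT L).Relations n)))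
  exact Cardinal.mk_le_aleph0_iff.2 h3

theorem bfe_refl (L : FirstOrder.Language.{0,0}) [L.IsRelational] (M : Type) [L.Structure M] :
    BFE L M M := by
  classical
  refine bfe_of (St := Finset M) (fun s => s) (fun s x => x.1) (fun s x => x.1) ∅
    (fun s => Subtype.val_injective) (fun s => Subtype.val_injective)
    (fun _ _ _ _ => Iff.rfl) ?_ ?_
  · intro s m
    exact ⟨insert m s, fun i => ⟨⟨i.1, Finset.mem_insert_of_mem i.2⟩, rfl, rfl⟩,
      ⟨m, Finset.mem_insert_self _ _⟩, rfl⟩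
  · intro s m
    exact ⟨insert m s, fun i => ⟨⟨i.1, Finset.mem_insert_of_mem i.2⟩, rfl, rfl⟩,
      ⟨m, Finset.mem_insert_self _ _⟩, rfl⟩

section DLO

theorem dlo_forth {K K' : Type} [LinearOrder K] [LinearOrder K'] [DenselyOrdered K']
    [NoMinOrder K'] [NoMaxOrder K'] [Nonempty K'] (ι : Type) (_ : Finite ι) (a : ι → K)
    (b : ι → K') (_ : Injective a) (_ : Injective b)
    (hqf : @QF LO _ _ (kStr fun _ _ => False) (kStr fun _ _ => False) _ a b) (m : K)
    (hm : m ∉ Set.range a) :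
    ∃ m', m' ∉ Set.range b ∧
      @QF LO _ _ (kStr fun _ _ => False) (kStr fun _ _ => False) _ (add a m) (add b m') := by
  classical
  let _ : LO.Structure K := kStr fun _ _ => False
  let _ : LO.Structure K' := kStr fun _ _ => False
  have := Fintype.ofFinite ι
  have h1 : ∀ i j, a i < a j ↔ b i < b j := fun i j => hqf 2 oL ![i, j]
  obtain ⟨m', h2, h3⟩ := Order.exists_between_finsets
    ((Finset.univ.filter (fun i => a i < m)).image b)
    ((Finset.univ.filter (fun i => m < a i)).image b) (by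
      intro x hx y hy
      obtain ⟨i, hi, rfl⟩ := Finset.mem_image.1 hx
      obtain ⟨j, hj, rfl⟩ := Finset.mem_image.1 hy
      rw [Finset.mem_filter] at hi hj
      rw [← h1]
      exact hi.2.trans hj.2)
  have h4 : ∀ i, a i < m → b i < m' := fun i hi => h2 _ (Finset.mem_image.2
    ⟨i, Finset.mem_filter.2 ⟨Finset.mem_univ _, hi⟩, rfl⟩)
  have h5 : ∀ i, m < a i → m' < b i := fun i hi => h3 _ (Finset.mem_image.2
    ⟨i, Finset.mem_filter.2 ⟨Finset.mem_univ _, hi⟩, rfl⟩)
  have h6 : ∀ i, a i < m ∨ m < a i := fun i => lt_or_gt_of_ne (fun e => hm ⟨i, e⟩)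
  have h7 : ∀ i, a i < m ↔ b i < m' := by
    intro i
    refine ⟨h4 i, fun h => ?_⟩
    rcases h6 i with h8 | h8
    · exact h8
    · exact (lt_asymm h (h5 i h8)).elim
  have h8 : ∀ i, m < a i ↔ m' < b i := by
    intro i
    refine ⟨h5 i, fun h => ?_⟩
    rcases h6 i with h8 | h8
    · exact (lt_asymm h (h4 i h8)).elim
    · exact h8
  refine ⟨m', ?_, ?_⟩
  · rintro ⟨i, rfl⟩
    rcases h6 i with h9 | h9
    · exact lt_irrefl _ ((h7 i).1 h9)
    · exact lt_irrefl _ ((h8 i).1 h9)
  · have key : ∀ i j : Option ι, add a m i < add a m j ↔ add b m' i < add b m' j := by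
      rintro (_ | i) (_ | j)
      · change m < m ↔ m' < m'
        simp
      · exact h8 j
      · exact h7 i
      · exact h1 i j
    intro n R x
    cases R with
    | lt => exact key (x 0) (x 1)
    | c n => exact Iff.rfl

theorem bfe_dlo {K K' : Type} [LinearOrder K] [LinearOrder K'] [DenselyOrdered K]
    [NoMinOrder K] [NoMaxOrder K] [Nonempty K] [DenselyOrdered K']
    [NoMinOrder K'] [NoMaxOrder K'] [Nonempty K'] :
    @BFE LO K K' (kStr fun _ _ => False) (kStr fun _ _ => False) := by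
  let _ : LO.Structure K := kStr fun _ _ => False
  let _ : LO.Structure K' := kStr fun _ _ => False
  refine bfe_ext' ?_ dlo_forth dlo_forth
  intro S
  cases S

end DLO

theorem mk_UA (L₀ L₁ : FirstOrder.Language.{0,0}) [L₁.IsRelational] (u : L₁.Relations 1)
    (A : Type) [(LL L₀ L₁).Structure A] :
    #{a : YA L₀ L₁ A // RelMap u ![a]} ≤ #(UA L₀ L₁ u A) := by
  refine mk_le_of_injective (f := fun a : {a : YA L₀ L₁ A // RelMap u ![a]} =>
    (⟨a.1, (by
      have h5 := a.2
      have h6 : (fun j => (![a.1] j : A)) = ![a.1.1] := by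
        funext j
        fin_cases j; rfl
      change RelMap (lb L₀ u) (fun j => (![a.1] j : A)) at h5
      rw [h6] at h5
      exact h5)⟩ : UA L₀ L₁ u A)) ?_
  intro a b h
  exact Subtype.ext (congrArg (fun z : UA L₀ L₁ u A => (z.1 : YA L₀ L₁ A)) h)

/-- Splitting a tree structure. -/
theorem card_split {A : Type} (p : A → Prop) {κ : Cardinal.{0}} (hκ : ℵ₀ ≤ κ)
    (h1 : #{a : A // p a} ≤ κ) (h2 : #{a : A // ¬ p a} ≤ κ) : #A ≤ κ := by
  classical
  have h4 : #A ≤ #({a : A // p a} ⊕ {a : A // ¬ p a}) :=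
    (mk_congr (Equiv.sumCompl p).symm).le
  refine h4.trans ?_
  rw [mk_sum]
  simp only [Cardinal.lift_id]
  exact add_le_of_le hκ h1 h2

end Pool.Agent.TH767.B
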