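import Mathlib
import Pool.Agent.TH767.B.Ord

/-!
`λ ^ ℵ₀` is characterizable for every uncountable characterizable `λ`.
-/

namespace Pool.Agent.TH767.B

open FirstOrder FirstOrder.Language FirstOrder.Language.Structure Function Cardinal

/-- The structure on the natural numbers. -/
def natStr : LO.Structure ℕ := kStr (fun n k => k = n)

theorem card_natK {F : Type} [Countable F] {d : F → F → ℕ} {P : F → Prop}
    {A : Type} [sA : (LT LO).Structure A]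
    (hA : letI := natStr; @BFE (LT LO) (ℕ ⊕ F) A (tStr LO d P) sA) :
    #{a : A // RelMap (tK LO) ![a]} ≤ ℵ₀ := by
  classical
  let _ := natStr
  let _ := tStr LO d P
  have hc : ∀ (k n : ℕ), @RelMap _ (ℕ ⊕ F) (tStr LO d P) _ (tL (oc n)) ![Sum.inl k] ↔ k = n := by
    intro k n
    constructor
    · rintro ⟨b, hb, hR⟩
      have h1 : b = ![k] := by
        funext i
        fin_cases i
        exact (Sum.inl.inj (hb 0)).symm
      rw [h1] at hR
      exact hR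
    · intro h
      refine ⟨![k], ?_, h⟩
      intro i
      fin_cases i; rfl
  have hex : ∀ a : {a : A // RelMap (tK LO) ![a]}, ∃ n, RelMap (tL (oc n)) ![a.1] := by
    rintro ⟨a, ha⟩
    obtain ⟨j, hj1, hj2, hj3⟩ := bfe_embed hA (X := {a}) (Set.toFinite _).countable
    obtain ⟨z, rfl⟩ := hj3 rfl
    rw [emb1 hj2, tK_iff] at ha
    obtain ⟨k, rfl⟩ := ha
    refine ⟨k, ?_⟩
    change RelMap (tL (oc k)) ![j (Sum.inl k)]
    rw [emb1 hj2, hc]
  choose n hn using hex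
  have h1 : #{a : A // RelMap (tK LO) ![a]} ≤ #ℕ := by
    refine mk_le_of_injective (f := n) ?_
    rintro ⟨a, ha⟩ ⟨a', ha'⟩ haa
    have e1 := hn ⟨a, ha⟩
    have e2 := hn ⟨a', ha'⟩
    rw [← haa] at e2
    change RelMap (tL (oc (n ⟨a, ha⟩))) ![a] at e1
    change RelMap (tL (oc (n ⟨a, ha⟩))) ![a'] at e2
    generalize n ⟨a, ha⟩ = m at e1 e2
    obtain ⟨j, hj1, hj2, hj3⟩ := bfe_embed hA (X := {a, a'}) (Set.toFinite _).countable
    obtain ⟨z, hz⟩ := hj3 (Set.mem_insert _ _)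
    obtain ⟨z', hz'⟩ := hj3 (Set.mem_insert_of_mem _ rfl)
    rw [← hz, emb1 hj2] at ha e1
    rw [← hz', emb1 hj2] at ha' e2
    rw [tK_iff] at ha ha'
    obtain ⟨k, rfl⟩ := ha
    obtain ⟨k', rfl⟩ := ha'
    rw [hc] at e1 e2
    apply Subtype.ext
    change a = a'
    rw [← hz, ← hz', e1, e2]
  exact h1.trans mk_nat.le

theorem ch_pow_aleph0 {l : Cardinal.{0}} (h : Ch l) (hl1 : ℵ₁ ≤ l) : Ch (l ^ ℵ₀) := by
  classical
  obtain ⟨hl0, L, M, sM, hL, hMc, hmod, hbd⟩ := h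
  have hMi : Infinite M := by
    obtain ⟨A, sA, hA, hbfe⟩ := hmod l hl0 le_rfl
    have : Infinite A := by rw [infinite_iff, hA]; exact hl0
    exact infinite_of_bfe hbfe
  have hc : l ≤ l ^ ℵ₀ := self_le_power l one_le_aleph0
  letI iM : (LR L).Structure M := strR L M
  letI iK : LO.Structure ℕ := natStr
  have hlt : ∀ a b : ℕ, RelMap oL ![a, b] ↔ a < b := fun a b => Iff.rfl
  have hT := tree_fd (ft_fin (K := ℕ))
  let P₀ : (ℕ →₀ ℕ) → Prop := fun f => ∃ j, f j = 1 ∧ ∀ k > j, f k = 0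
  let d₀ : (ℕ →₀ ℕ) → (ℕ →₀ ℕ) → ℕ := fd (fun f : ℕ →₀ ℕ => (f : ℕ → ℕ))
  letI iN : (LT LO).Structure (ℕ ⊕ (ℕ →₀ ℕ)) := tStr LO d₀ P₀
  have hU : #({y : ℕ ⊕ (ℕ →₀ ℕ) | RelMap (tP LO) ![y]} : Set (ℕ ⊕ (ℕ →₀ ℕ))) ≤ #M :=
    (mk_le_aleph0).trans (infinite_iff.1 hMi)
  obtain ⟨V, π, σ, hV, hMd⟩ := exists_mdl (M := M) {y : ℕ ⊕ (ℕ →₀ ℕ) | RelMap (tP LO) ![y]} hU
  have hVc : Countable V := mk_le_aleph0_iff.1 (hV.trans (mk_le_aleph0_iff.2 hMc))
  have hCc : Countable (Car π σ) := inferInstanceAs (Countable (M ⊕ (V ⊕ (ℕ ⊕ (ℕ →₀ ℕ)))))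
  refine ⟨hl0.trans hc, LL (LR L) (LT LO), Car π σ, inferInstance,
    card_LL (card_LR hL) (card_LT card_LO), hCc, ?_, ?_⟩
  · intro μ hμ0 hμ
    obtain ⟨A, sA, hA, hbfe⟩ := hmod l hl0 le_rfl
    have hAi : Infinite A := by rw [infinite_iff, hA]; exact hl0
    let Z : Type := l.out
    have hZ : #Z = l := mk_out l
    have iZ : Infinite Z := by rw [infinite_iff, hZ]; exact hl0
    obtain ⟨z₀, z₁, hz⟩ := exists_pair_ne Z
    have hW : (Set.univ : Set ℕ).IsWF := Set.IsWF.of_wellFoundedLT _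
    have hT' := tree_fd (ft_wf (K := ℕ) (Z := Z) Set.univ hW
      (fun k => ⟨k, trivial, le_rfl⟩) hz.symm)
    letI iA : (LR L).Structure A := strR L A
    letI iY : (LT LO).Structure (ℕ ⊕ WF ℕ Z z₀) := tStr LO (fd (fun f : WF ℕ Z z₀ => f.1))
      (fun f => ∃ k, ∀ l ≥ k, f.1 l = z₀)
    have hU' : #({y : ℕ ⊕ WF ℕ Z z₀ | RelMap (tP LO) ![y]} : Set (ℕ ⊕ WF ℕ Z z₀)) ≤ #A := by
      have h1 : #({y : ℕ ⊕ WF ℕ Z z₀ | RelMap (tP LO) ![y]} : Set (ℕ ⊕ WF ℕ Z z₀)) ≤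
          #{f : WF ℕ Z z₀ // ∃ k, ∀ l ≥ k, f.1 l = z₀} := by
        refine mk_le_of_surjective (f := fun f : {f : WF ℕ Z z₀ // ∃ k, ∀ l ≥ k, f.1 l = z₀} =>
          (⟨Sum.inr f.1, f.1, rfl, f.2⟩ : {y : ℕ ⊕ WF ℕ Z z₀ | RelMap (tP LO) ![y]})) ?_
        rintro ⟨y, f, hf, hf'⟩
        have hf1 : y = Sum.inr f := hf
        subst hf1
        exact ⟨⟨f, hf'⟩, rfl⟩
      refine h1.trans ((card_wfP z₀).trans ?_)
      rw [hA]
      refine (sum_le_sum _ (fun _ => l) ?_).trans ?_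
      · intro k
        exact mk_fun_le hl0 hZ.le
      · rw [sum_const']
        rw [mk_nat]
        exact (mul_le_mul' hl0 le_rfl).trans (mul_eq_self hl0).le
    obtain ⟨V', π', σ', hV', hMd'⟩ := exists_mdl (M := A)
      {y : ℕ ⊕ WF ℕ Z z₀ | RelMap (tP LO) ![y]} hU'
    have hne : Nonempty (WF ℕ Z z₀) := ⟨⟨fun _ => z₀, Set.IsWF.of_wellFoundedLT _⟩⟩
    have hB := bfe_car (tP LO) (bfe_strR hbfe)
      (bfe_tree oL hlt hlt (bfe_refl LO ℕ) hT hT') hMd hMd'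
    refine ls hB hμ0 (hμ.trans ?_)
    have h2 : l ^ ℵ₀ ≤ #(WF ℕ Z z₀) := by
      refine le_trans ?_ (card_wf (Set.univ : Set ℕ) hW z₀)
      rw [← power_def, hZ]
      refine power_le_power_left (aleph0_pos.trans_le hl0).ne' ?_
      rw [mk_univ, mk_nat]
    refine h2.trans ?_
    exact mk_le_of_injective (f := fun q : WF ℕ Z z₀ =>
      (Sum.inr (Sum.inr (Sum.inr q)) : Car π' σ'))
      (fun q q' h => Sum.inr.inj (Sum.inr.inj (Sum.inr.inj h)))
  · intro A sA hA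
    obtain ⟨h1, h2, h3⟩ := bb_bound hl1 hbd (tP LO) hMd A hA
    have hY := bfe_YA hA
    have h4 : #(YA (LR L) (LT LO) A) ≤ l ^ ℵ₀ := by
      refine card_split (fun a => RelMap (tK LO) ![a]) (hl0.trans hc)
        ((card_natK hY).trans (hl0.trans hc)) ?_
      refine (card_tree oL hlt hT hY).trans ?_
      rw [← power_def]
      have h5 : #{a : YA (LR L) (LT LO) A // RelMap (tP LO) ![a]} ≤ l :=
        (mk_UA (LR L) (LT LO) (tP LO) A).trans h3
      refine (power_le_power_right h5).trans ?_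
      exact power_le_power_left (aleph0_pos.trans_le hl0).ne' (card_natK hY)
    exact ((bound_A (hl0.trans hc) (h1.trans hc) (h2.trans hc) h4).trans_lt
      (Order.lt_succ _)).ne

end Pool.Agent.TH767.B
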