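import Mathlib
import Pool.Agent.TH767.B.PowA

/-!
The characterizing sentence built from a tree of functions over a dense linear order.
-/

namespace Pool.Agent.TH767.B

open FirstOrder FirstOrder.Language FirstOrder.Language.Structure Function Cardinal

theorem ch_pow_tree {κ l : Cardinal.{0}} (hk : Ch κ) (hk1 : ℵ₁ ≤ κ) (hl : Ch l) (hl1 : ℵ₁ ≤ l)
    {K' F' : Type} [LinearOrder K'] [DenselyOrdered K'] [NoMinOrder K'] [NoMaxOrder K']
    [Nonempty K'] [Nonempty F'] (hK' : #K' ≤ κ) {d' : F' → F' → K'} {P' : F' → Prop}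
    (hT' : Tree d' P') (hP' : #{f : F' // P' f} ≤ l) (hF' : l ^ κ ≤ #F') : Ch (l ^ κ) := by
  classical
  obtain ⟨hk0, Lk, Mk, sMk, hLk, hMkc, hmodk, hbdk⟩ := hk
  obtain ⟨hl0, Ll, Ml, sMl, hLl, hMlc, hmodl, hbdl⟩ := hl
  have hMki : Infinite Mk := by
    obtain ⟨A, sA, hA, hbfe⟩ := hmodk κ hk0 le_rfl
    have : Infinite A := by rw [infinite_iff, hA]; exact hk0
    exact infinite_of_bfe hbfe
  have hMli : Infinite Ml := by
    obtain ⟨A, sA, hA, hbfe⟩ := hmodl l hl0 le_rfl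
    have : Infinite A := by rw [infinite_iff, hA]; exact hl0
    exact infinite_of_bfe hbfe
  have hl2 : (2 : Cardinal.{0}) ≤ l := (nat_lt_aleph0 2).le.trans hl0
  have hcl : l ≤ l ^ κ := self_le_power l (one_le_aleph0.trans hk0)
  have hck : κ ≤ l ^ κ := (cantor κ).le.trans (power_le_power_right hl2)
  have hc0 : ℵ₀ ≤ l ^ κ := hl0.trans hcl
  letI iMk : (LR Lk).Structure Mk := strR Lk Mk
  letI iMl : (LR Ll).Structure Ml := strR Ll Ml
  letI iK : LO.Structure ℚ := kStr (fun _ _ => False)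
  letI iK' : LO.Structure K' := kStr (fun _ _ => False)
  have hlt : ∀ a b : ℚ, RelMap oL ![a, b] ↔ a < b := fun a b => Iff.rfl
  have hlt' : ∀ a b : K', RelMap oL ![a, b] ↔ a < b := fun a b => Iff.rfl
  have hT := tree_fd (ft_fin (K := ℚ))
  let P₀ : (ℚ →₀ ℕ) → Prop := fun f => ∃ j, f j = 1 ∧ ∀ k > j, f k = 0
  let d₀ : (ℚ →₀ ℕ) → (ℚ →₀ ℕ) → ℚ := fd (fun f : ℚ →₀ ℕ => (f : ℚ → ℕ))
  -- the countable model
  letI iY : (LT LO).Structure (ℚ ⊕ (ℚ →₀ ℕ)) := tStr LO d₀ P₀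
  have hU1 : #({y : ℚ ⊕ (ℚ →₀ ℕ) | RelMap (tK LO) ![y]} : Set (ℚ ⊕ (ℚ →₀ ℕ))) ≤ #Mk :=
    (mk_le_aleph0).trans (infinite_iff.1 hMki)
  obtain ⟨V₁, π₁, σ₁, hV₁, hMd₁⟩ := exists_mdl (M := Mk)
    {y : ℚ ⊕ (ℚ →₀ ℕ) | RelMap (tK LO) ![y]} hU1
  have hV₁c : Countable V₁ := mk_le_aleph0_iff.1 (hV₁.trans (mk_le_aleph0_iff.2 hMkc))
  have hC₁c : Countable (Car π₁ σ₁) :=
    inferInstanceAs (Countable (Mk ⊕ (V₁ ⊕ (ℚ ⊕ (ℚ →₀ ℕ)))))
  have hU2 : #({y : Car π₁ σ₁ | RelMap (lb (LR Lk) (tP LO)) ![y]} : Set (Car π₁ σ₁)) ≤ #Ml :=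
    (mk_le_aleph0).trans (infinite_iff.1 hMli)
  obtain ⟨V₂, π₂, σ₂, hV₂, hMd₂⟩ := exists_mdl (M := Ml)
    {y : Car π₁ σ₁ | RelMap (lb (LR Lk) (tP LO)) ![y]} hU2
  have hV₂c : Countable V₂ := mk_le_aleph0_iff.1 (hV₂.trans (mk_le_aleph0_iff.2 hMlc))
  have hC₂c : Countable (Car π₂ σ₂) := inferInstanceAs (Countable (Ml ⊕ (V₂ ⊕ (Car π₁ σ₁))))
  refine ⟨hc0, LL (LR Ll) (LL (LR Lk) (LT LO)), Car π₂ σ₂, inferInstance,
    card_LL (card_LR hLl) (card_LL (card_LR hLk) (card_LT card_LO)), hC₂c, ?_, ?_⟩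
  · intro μ hμ0 hμ
    -- the big model
    obtain ⟨Ak, sAk, hAk, hbk⟩ := hmodk κ hk0 le_rfl
    have hAki : Infinite Ak := by rw [infinite_iff, hAk]; exact hk0
    obtain ⟨Al, sAl, hAl, hbl⟩ := hmodl l hl0 le_rfl
    have hAli : Infinite Al := by rw [infinite_iff, hAl]; exact hl0
    letI iAk : (LR Lk).Structure Ak := strR Lk Ak
    letI iAl : (LR Ll).Structure Al := strR Ll Al
    letI iY' : (LT LO).Structure (K' ⊕ F') := tStr LO d' P'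
    have hU1' : #({y : K' ⊕ F' | RelMap (tK LO) ![y]} : Set (K' ⊕ F')) ≤ #Ak := by
      rw [hAk]
      refine le_trans ?_ hK'
      refine mk_le_of_surjective (f := fun k : K' =>
        (⟨Sum.inl k, k, rfl⟩ : {y : K' ⊕ F' | RelMap (tK LO) ![y]})) ?_
      rintro ⟨y, k, hy⟩
      have hy1 : y = Sum.inl k := hy
      subst hy1
      exact ⟨k, rfl⟩
    obtain ⟨W₁, p₁, s₁, hW₁, hNd₁⟩ := exists_mdl (M := Ak)
      {y : K' ⊕ F' | RelMap (tK LO) ![y]} hU1'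
    have hU2' : #({y : Car p₁ s₁ | RelMap (lb (LR Lk) (tP LO)) ![y]} : Set (Car p₁ s₁)) ≤
        #Al := by
      rw [hAl]
      refine le_trans ?_ hP'
      refine mk_le_of_surjective (f := fun f : {f : F' // P' f} =>
        (⟨Sum.inr (Sum.inr (Sum.inr f.1)), ![Sum.inr f.1], (fun i => by fin_cases i; rfl),
          ⟨f.1, rfl, f.2⟩⟩ : {y : Car p₁ s₁ | RelMap (lb (LR Lk) (tP LO)) ![y]})) ?_
      rintro ⟨y, b, hy, f, hf, hPf⟩
      have h1 : y = Sum.inr (Sum.inr (b 0)) := hy 0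
      have h2 : b 0 = Sum.inr f := hf
      rw [h2] at h1
      subst h1
      exact ⟨⟨f, hPf⟩, rfl⟩
    obtain ⟨W₂, p₂, s₂, hW₂, hNd₂⟩ := exists_mdl (M := Al)
      {y : Car p₁ s₁ | RelMap (lb (LR Lk) (tP LO)) ![y]} hU2'
    have hB₁ := bfe_car (tK LO) (bfe_strR hbk)
      (bfe_tree oL hlt hlt' bfe_dlo hT hT') hMd₁ hNd₁
    have hB₂ := bfe_car (lb (LR Lk) (tP LO)) (bfe_strR hbl) hB₁ hMd₂ hNd₂
    refine ls hB₂ hμ0 (hμ.trans (hF'.trans ?_))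
    exact mk_le_of_injective (f := fun q : F' =>
      (Sum.inr (Sum.inr (Sum.inr (Sum.inr (Sum.inr q)))) : Car p₂ s₂))
      (fun q q' h => Sum.inr.inj (Sum.inr.inj (Sum.inr.inj (Sum.inr.inj (Sum.inr.inj h)))))
  · intro A sA hA
    obtain ⟨a1, a2, a3⟩ := bb_bound hl1 hbdl (lb (LR Lk) (tP LO)) hMd₂ A hA
    have hY₂ := bfe_YA hA
    obtain ⟨b1, b2, b3⟩ := bb_bound hk1 hbdk (tK LO) hMd₁ _ hY₂
    have hY₁ := bfe_YA hY₂
    have c1 := (mk_UA (LR Lk) (LT LO) (tK LO)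
      (YA (LR Ll) (LL (LR Lk) (LT LO)) A)).trans b3
    have c2 : #{a : YA (LR Lk) (LT LO) (YA (LR Ll) (LL (LR Lk) (LT LO)) A) //
        RelMap (tP LO) ![a]} ≤ l := by
      refine (mk_UA (LR Lk) (LT LO) (tP LO) _).trans ?_
      refine le_trans ?_ ((mk_UA (LR Ll) (LL (LR Lk) (LT LO)) (lb (LR Lk) (tP LO)) A).trans a3)
      refine mk_le_of_injective (f := fun a : UA (LR Lk) (LT LO) (tP LO)
        (YA (LR Ll) (LL (LR Lk) (LT LO)) A) =>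
        (⟨a.1.1, a.2⟩ : {a : YA (LR Ll) (LL (LR Lk) (LT LO)) A //
          RelMap (lb (LR Lk) (tP LO)) ![a]})) ?_
      intro a b h
      have h1 : a.1.1 = b.1.1 := congrArg (fun z : {a : YA (LR Ll) (LL (LR Lk) (LT LO)) A //
          RelMap (lb (LR Lk) (tP LO)) ![a]} => z.1) h
      exact Subtype.ext (Subtype.ext h1)
    have c3 : #(YA (LR Lk) (LT LO) (YA (LR Ll) (LL (LR Lk) (LT LO)) A)) ≤ l ^ κ := by
      refine card_split (fun a => RelMap (tK LO) ![a]) hc0 (c1.trans hck) ?_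
      refine (card_tree oL hlt hT hY₁).trans ?_
      rw [← power_def]
      refine (power_le_power_right c2).trans ?_
      exact power_le_power_left (aleph0_pos.trans_le hl0).ne' c1
    have c4 : #(YA (LR Ll) (LL (LR Lk) (LT LO)) A) ≤ l ^ κ :=
      bound_A hc0 (b1.trans hck) (b2.trans hck) c3
    exact ((bound_A hc0 (a1.trans hcl) (a2.trans hcl) c4).trans_lt (Order.lt_succ _)).ne

end Pool.Agent.TH767.B
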