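import Mathlib
import Pool.Agent.TH767.B.PowD

/-!
Cardinal arithmetic, and closure of the characterizable cardinals under exponentiation.
-/

namespace Pool.Agent.TH767.B

open Function Cardinal Set

/-- Bounded functions. -/
theorem pow_le_of_lt_cof {μ : Cardinal.{0}} (hμ : ℵ₀ ≤ μ) {X : Type}
    (hX : #X < μ.ord.cof) (H : ∀ ν < μ, ν ^ #X ≤ μ) : μ ^ #X ≤ μ := by
  let I : Type := μ.ord.ToType
  have hI : #I = μ := mk_ord_toType μ
  have hb : ∀ f : X → I, ∃ i, ∀ x, f x < i := by
    intro f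
    by_contra hcon
    push Not at hcon
    have hcof : IsCofinal (range f) := by
      intro i
      obtain ⟨x, hx⟩ := hcon i
      exact ⟨f x, ⟨x, rfl⟩, hx⟩
    have h1 := Order.cof_le hcof
    have h2 : Order.cof I = μ.ord.cof := Ordinal.cof_toType _
    rw [h2] at h1
    exact not_lt.2 (h1.trans mk_range_le) hX
  choose b hb using hb
  have h1 : #(X → I) ≤ #(Σ i : I, (X → Iio i)) := by
    refine mk_le_of_injective (f := fun f : X → I =>
      (⟨b f, fun x => ⟨f x, hb f x⟩⟩ : Σ i : I, (X → Iio i))) ?_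
    intro f g h
    funext x
    have h3 : ∀ (k k' : I) (u : X → Iio k) (v : X → Iio k'),
        (⟨k, u⟩ : Σ k : I, (X → Iio k)) = ⟨k', v⟩ → ((u x : Iio k) : I) = (v x : Iio k') := by
      intro k k' u v huv
      cases huv
      rfl
    exact h3 _ _ _ _ h
  rw [← power_def, hI] at h1
  refine h1.trans ?_
  rw [mk_sigma]
  refine (sum_le_sum _ (fun _ => μ) ?_).trans ?_
  · intro i
    rw [← power_def]
    have h2 : #(Iio i) < μ := (mk_Iio_lt i (by simp [I])).trans_le hI.le
    exact H _ h2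
  · rw [sum_const', hI, mul_eq_self hμ]

theorem pow_le_pow_cof {μ κ : Cardinal.{0}} (hμ : ℵ₀ ≤ μ) (hκ : ℵ₀ ≤ κ)
    (H : ∀ ν < μ, ν ^ κ ≤ μ) : μ ^ κ ≤ μ ^ μ.ord.cof := by
  classical
  let I : Type := μ.ord.ToType
  have hI : #I = μ := mk_ord_toType μ
  let X : Type := κ.out
  have hX : #X = κ := mk_out κ
  obtain ⟨C, hC, hC'⟩ := Order.exists_cof_eq I
  have h2 : Order.cof I = μ.ord.cof := Ordinal.cof_toType _
  rw [h2] at hC'
  have hno : NoMaxOrder I := by
    have := Cardinal.noMaxOrder hμ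
    exact this
  have h1 : #(X → I) ≤ #(∀ c : C, (X → Option (Iio (c : I)))) := by
    refine mk_le_of_injective (f := fun (f : X → I) (c : C) (x : X) =>
      if h : f x < c then (some ⟨f x, h⟩ : Option (Iio (c : I))) else none) ?_
    intro f g hfg
    funext x
    obtain ⟨i, hi⟩ := exists_gt (f x)
    obtain ⟨c, hc, hic⟩ := hC i
    have h3 := congrFun (congrFun hfg ⟨c, hc⟩) x
    simp only at h3
    rw [dif_pos (hi.trans_le hic)] at h3
    by_cases h4 : g x < c
    · rw [dif_pos h4] at h3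
      exact congrArg Subtype.val (Option.some.inj h3)
    · rw [dif_neg h4] at h3
      cases h3
  rw [← power_def, hI, hX] at h1
  refine h1.trans ?_
  rw [mk_pi]
  refine (prod_le_prod _ (fun _ => μ) ?_).trans ?_
  · intro c
    rw [← power_def, hX]
    refine H _ ?_
    rw [mk_option]
    have h2 : #(Iio (c : I)) < μ := (mk_Iio_lt (c : I) (by simp [I])).trans_le hI.le
    exact add_lt_of_lt hμ h2 (one_lt_aleph0.trans_le hμ)
  · rw [prod_const', hC']

theorem tree_case {κ l μ : Cardinal.{0}} (hk : Ch κ) (hk1 : ℵ₁ ≤ κ) (hl : Ch l) (hl1 : ℵ₁ ≤ l)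
    (hμ : ℵ₀ ≤ μ) (hμl : μ ≤ l) (hθκ : μ.ord.cof ≤ κ) (hθ : ℵ₀ < μ.ord.cof)
    (H : ∀ ν < μ, ν ^ κ ≤ μ) (hp : l ^ κ ≤ μ ^ μ.ord.cof) : Ch (l ^ κ) := by
  classical
  set θ := μ.ord.cof with hθdef
  let J : Type := θ.ord.ToType
  have hJ : #J = θ := mk_ord_toType θ
  have hθμ : θ ≤ μ := Ordinal.cof_ord_le μ
  have hJne : Nonempty J := by
    rw [← mk_ne_zero_iff, hJ]
    exact (aleph0_pos.trans hθ).ne'
  have hJno : NoMaxOrder J := Cardinal.noMaxOrder hθ.le
  let Z : Type := μ.out
  have hZ : #Z = μ := mk_out μ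
  have iZ : Infinite Z := by rw [infinite_iff, hZ]; exact hμ
  obtain ⟨z₀, z₁, hz⟩ := exists_pair_ne Z
  let K' : Type := J ×ₗ ℚ
  have hK' : #K' = θ := by
    have : #K' = #(J × ℚ) := mk_congr ofLex
    rw [this, mk_prod]
    simp only [Cardinal.lift_id]
    rw [hJ, Cardinal.mkRat, mul_aleph0_eq hθ.le]
  let w : J → K' := fun a => toLex (a, 0)
  have hw : ∀ a b, w a < w b ↔ a < b := by
    intro a b
    change toLex (a, (0 : ℚ)) < toLex (b, (0 : ℚ)) ↔ a < b
    rw [Prod.Lex.toLex_lt_toLex]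
    simp
  have hW : (range w).IsWF := by
    change (range w).WellFoundedOn (· < ·)
    rw [wellFoundedOn_range]
    have h1 : ((· < ·) on w : J → J → Prop) = (· < ·) := by
      funext a b
      exact propext (hw a b)
    change WellFounded ((· < ·) on w)
    rw [h1]
    exact wellFounded_lt
  have hcof : ∀ k : K', ∃ v ∈ range w, k ≤ v := by
    intro k
    obtain ⟨b, hb⟩ := exists_gt (ofLex k).1
    refine ⟨w b, ⟨b, rfl⟩, le_of_lt ?_⟩
    rw [Prod.Lex.lt_iff]
    exact Or.inl hb
  have hdo : DenselyOrdered K' := inferInstance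
  have hnm : NoMinOrder K' := inferInstance
  have hnx : NoMaxOrder K' := inferInstance
  have hT' := tree_fd (ft_wf (K := K') (Z := Z) (range w) hW hcof hz.symm)
  have hne : Nonempty (WF K' Z z₀) := ⟨⟨fun _ => z₀, by simp⟩⟩
  refine ch_pow_tree hk hk1 hl hl1 (K' := K') (F' := WF K' Z z₀) (hK'.le.trans hθκ) hT' ?_ ?_
  · refine (card_wfP z₀).trans ?_
    refine (sum_le_sum _ (fun _ => μ) ?_).trans ?_
    · intro k
      rw [← power_def, hZ]
      have h1 : #(Iio k) < θ := by
        have h2 : #(Iio k) ≤ #(Iic (ofLex k).1 × ℚ) := by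
          refine mk_le_of_injective (f := fun x : Iio k =>
            ((⟨(ofLex x.1).1, (by
              have h3 := x.2
              rw [mem_Iio, Prod.Lex.lt_iff] at h3
              rcases h3 with h3 | h3
              · exact h3.le
              · exact h3.1.le)⟩, (ofLex x.1).2) : Iic (ofLex k).1 × ℚ)) ?_
          rintro ⟨x, hx⟩ ⟨y, hy⟩ hxy
          rw [Prod.mk.injEq] at hxy
          apply Subtype.ext
          apply ofLex.injective
          exact Prod.ext (congrArg Subtype.val hxy.1) hxy.2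
        refine h2.trans_lt ?_
        rw [mk_prod]
        simp only [Cardinal.lift_id]
        have h4 : #(Iio (ofLex k).1) < θ :=
          (mk_Iio_lt (ofLex k).1 (by simp [J])).trans_le hJ.le
        have h5 : #(Iic (ofLex k).1) < θ := by
          have h6 : Iic (ofLex k).1 = insert (ofLex k).1 (Iio (ofLex k).1) := by
            ext x
            simp [le_iff_eq_or_lt]
          rw [h6]
          exact (mk_insert_le).trans_lt (add_lt_of_lt hθ.le h4 (one_lt_aleph0.trans hθ))
        exact mul_lt_of_lt hθ.le h5 (by rw [Cardinal.mkRat]; exact hθ)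
      refine pow_le_of_lt_cof hμ (h1.trans_le hθdef.le) ?_
      intro ν hν
      rcases eq_or_ne ν 0 with rfl | hν0
      · exact (zero_power_le _).trans (one_le_aleph0.trans hμ)
      · exact (power_le_power_left hν0 (h1.le.trans hθκ)).trans (H ν hν)
    · rw [sum_const', hK']
      exact (mul_le_mul' hθμ le_rfl).trans ((mul_eq_self hμ).le.trans hμl)
  · refine hp.trans (le_trans ?_ (card_wf (range w) hW z₀))
    rw [← power_def, hZ]
    refine power_le_power_left (aleph0_pos.trans_le hμ).ne' ?_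
    rw [mk_range_eq w (fun a b h => by
      rcases lt_trichotomy a b with h1 | h1 | h1
      · exact ((((hw a b).2 h1).ne) h).elim
      · exact h1
      · exact ((((hw b a).2 h1).ne) h.symm).elim), hJ]

/-- The class of characterizable cardinals is closed under exponentiation. -/
theorem ch_pow {κ l : Cardinal.{0}} (hk : Ch κ) (hl : Ch l) : Ch (l ^ κ) := by
  have hk0 : ℵ₀ ≤ κ := hk.1
  have hl0 : ℵ₀ ≤ l := hl.1
  have hl2 : (2 : Cardinal.{0}) ≤ l := (natCast_lt_aleph0 (n := 2)).le.trans hl0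
  rcases le_or_gt l (2 ^ κ) with h1 | h1
  · have h2 : l ^ κ = 2 ^ κ := by
      refine le_antisymm ?_ (power_le_power_right hl2)
      refine (power_le_power_right h1).trans ?_
      rw [← power_mul, mul_eq_self hk0]
    rw [h2]
    exact ch_two_pow hk
  have hl1 : ℵ₁ ≤ l := aleph_one_le hl0 ((hk0.trans_lt (cantor κ)).trans h1).ne'
  by_cases hκ : κ = ℵ₀
  · rw [hκ]
    exact ch_pow_aleph0 hl hl1
  have hk1 : ℵ₁ ≤ κ := aleph_one_le hk0 hκ
  have hpp : ∀ ν : Cardinal.{0}, (ν ^ κ) ^ κ = ν ^ κ := by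
    intro ν
    rw [← power_mul, mul_eq_self hk0]
  let T : Set Cardinal.{0} := {ν | l ≤ ν ^ κ}
  have hT : T.Nonempty := ⟨l, self_le_power l (one_le_aleph0.trans hk0)⟩
  let μ := sInf T
  have hμ1 : l ≤ μ ^ κ := csInf_mem hT
  have hμ2 : ∀ ν < μ, ν ^ κ < l := by
    intro ν hν
    by_contra hcon
    push Not at hcon
    exact notMem_of_lt_csInf' hν hcon
  have hμl : μ ≤ l := csInf_le' (self_le_power l (one_le_aleph0.trans hk0))
  have h2μ : 2 ^ κ < μ := by
    by_contra hcon
    push Not at hcon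
    have h2 : μ ^ κ ≤ (2 ^ κ) ^ κ := power_le_power_right hcon
    rw [hpp] at h2
    exact not_lt.2 (hμ1.trans h2) h1
  have hμ0 : ℵ₀ ≤ μ := (hk0.trans (cantor κ).le).trans h2μ.le
  have H : ∀ ν < μ, ν ^ κ ≤ μ := by
    intro ν hν
    by_contra hcon
    push Not at hcon
    have h2 : μ ^ κ ≤ (ν ^ κ) ^ κ := power_le_power_right hcon.le
    rw [hpp] at h2
    exact not_lt.2 (hμ1.trans h2) (hμ2 ν hν)
  have hlm : l ^ κ ≤ μ ^ κ := by
    have h2 : l ^ κ ≤ (μ ^ κ) ^ κ := power_le_power_right hμ1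
    rwa [hpp] at h2
  rcases lt_or_ge κ μ.ord.cof with h2 | h2
  · -- the power is trivial
    have h3 : μ ^ κ ≤ μ := by
      have h4 := pow_le_of_lt_cof hμ0 (X := κ.out) (by rw [mk_out]; exact h2)
        (by rw [mk_out]; exact H)
      rwa [mk_out] at h4
    have h5 : l ^ κ = l := le_antisymm (hlm.trans (h3.trans hμl))
      (self_le_power l (one_le_aleph0.trans hk0))
    rw [h5]
    exact hl
  · have h3 := pow_le_pow_cof hμ0 hk0 H
    have h4 : ℵ₀ ≤ μ.ord.cof := Ordinal.aleph0_le_cof.2 (isSuccLimit_ord hμ0)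
    rcases eq_or_lt_of_le h4 with h5 | h5
    · have h6 : l ^ κ = l ^ ℵ₀ := by
        refine le_antisymm ?_ ?_
        · refine hlm.trans (h3.trans ?_)
          rw [← h5]
          exact power_le_power_right hμl
        · exact power_le_power_left (aleph0_pos.trans_le hl0).ne' hk0
      rw [h6]
      exact ch_pow_aleph0 hl hl1
    · exact tree_case hk hk1 hl hl1 hμ0 hμl h2 h5 H (hlm.trans h3)

end Pool.Agent.TH767.B
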